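import Pool.Agent.H567.PP.Stm3
import Pool.Graph.R_pool_sql_team_seeded_47a924f7.T6.H3.FR.Conv

set_option autoImplicit false

/-!
Project PP (helper567), part PP-20 (helper996): the regular moduli up to `x ^ (4 / 5)`, where the
exceptional integers have a large radical. Adapted from project FR of the library.
-/

namespace Pool.Agent.H996.PP

open Finset
open Pool.Agent.H567.PP (rad S_GMB S_FRRAD)
open Pool.Agent.T6.H3.FR
open Pool.Agent.R460.GS (BdAt MajAt MinAt ShAt ApAt NcAt TiMaj2Stm cv bd_LA par_mono)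
open Pool.Agent.R460.GH (BilMaj3Stm bilMaj3 countK)
open Pool.Agent.R460.GR (RegAt)
open Pool.Agent.T6.H3.FF
open Pool.Agent.H807R2.Dav (ee)
open Pool.Agent.H373R2.T7 (lamz Vz pz lamz_ap lamI lamzI Vz_pos)
open Pool.Agent.Y883.T3 (lsh)
open Pool.Agent.Y883.GJ
open Pool.Agent.Y614.GJ.Core (ev_log)
open Pool.Agent.R460.GS (one_le_sing wn_nn_mono tiMaj2 mod_iff' gcd_toNat pow_range real_log)
open Pool.Agent.W93.PG (wn cnt lam_sub wn_le)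
open Pool.Agent.H560R3.GB (sing C₂)
open Pool.Agent.Y883.T4 (badc class_le)

/-- the radical of a quotient -/
lemma rad_div {e j : ℕ} (he : 1 ≤ e) (hj : 1 ≤ j) : rad e ≤ rad (e / Nat.gcd e j) * j := by
  obtain ⟨m, hm⟩ : ∃ m, m = e / Nat.gcd e j := ⟨_, rfl⟩
  have hg : 1 ≤ Nat.gcd e j := Nat.gcd_pos_of_pos_left _ he
  have hem : e = m * Nat.gcd e j := by
    rw [hm]
    exact (Nat.div_mul_cancel (Nat.gcd_dvd_left e j)).symm
  rw [← hm]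
  have hm0 : m ≠ 0 := by
    rintro rfl
    omega
  have h1 : e.primeFactors ⊆ m.primeFactors ∪ j.primeFactors := by
    intro p hp
    rw [mem_union]
    obtain ⟨hpp, hpe, -⟩ := Nat.mem_primeFactors.1 hp
    rw [hem] at hpe
    rcases (Nat.Prime.dvd_mul hpp).1 hpe with h | h
    · exact Or.inl (Nat.mem_primeFactors.2 ⟨hpp, h, hm0⟩)
    · exact Or.inr (Nat.mem_primeFactors.2 ⟨hpp, h.trans (Nat.gcd_dvd_right e j), by omega⟩)
  have h2 : rad e ≤ ∏ p ∈ m.primeFactors ∪ j.primeFactors, p := by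
    unfold rad
    exact Finset.prod_le_prod_of_subset_of_one_le' h1 fun p hp _ => by
      rw [mem_union] at hp
      rcases hp with h | h
      · exact (Nat.prime_of_mem_primeFactors h).pos
      · exact (Nat.prime_of_mem_primeFactors h).pos
  have h3 : (∏ p ∈ m.primeFactors ∪ j.primeFactors, p) * (∏ p ∈ m.primeFactors ∩ j.primeFactors, p) =
      (∏ p ∈ m.primeFactors, p) * ∏ p ∈ j.primeFactors, p := Finset.prod_union_inter
  have h4 : 1 ≤ ∏ p ∈ m.primeFactors ∩ j.primeFactors, p :=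
    Finset.prod_pos fun p hp => (Nat.prime_of_mem_primeFactors (mem_inter.1 hp).1).pos
  have h5 : ∏ p ∈ j.primeFactors, p ≤ j := Nat.le_of_dvd hj (Nat.prod_primeFactors_dvd j)
  calc rad e ≤ ∏ p ∈ m.primeFactors ∪ j.primeFactors, p := h2
    _ ≤ (∏ p ∈ m.primeFactors ∪ j.primeFactors, p) * (∏ p ∈ m.primeFactors ∩ j.primeFactors, p) :=
        Nat.le_mul_of_pos_right _ h4
    _ = rad m * ∏ p ∈ j.primeFactors, p := h3
    _ ≤ rad m * j := Nat.mul_le_mul_left _ h5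

/-- the exceptional integers have a large radical -/
lemma D2_rad {N U K C A₀ : ℕ} {ρ : ℝ} (hL : 8 ≤ Real.log N) (hK : K = (A₀ + 1) + C)
    (hgm : ∀ (d : ℕ) (ψ : DirichletCharacter ℂ d), ψ.IsPrimitive →
      (rad d : ℝ) ≤ Real.log N ^ (A₀ + C) → 8 * Real.log N ^ (A₀ + C) < d → d ≤ N → ∀ y : ℕ, y ≤ N →
      ‖∑ n ∈ Icc 1 y, GM N n * ψ (n : ZMod d)‖ ≤ N / Real.log N ^ U)
    {d : ℕ} (hd : d ∈ D2 N U K C ρ) : Real.log N ^ A₀ < (rad d : ℝ) := by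
  classical
  have hL0 : 0 < Real.log N := by linarith
  unfold D2 at hd
  rw [mem_image] at hd
  obtain ⟨⟨e, j⟩, he, rfl⟩ := hd
  rw [mem_product, mem_range] at he
  obtain ⟨he, hj⟩ := he
  simp only at he hj ⊢
  unfold D1 at he
  rw [mem_filter, mem_Icc] at he
  obtain ⟨⟨he1, heN⟩, he2, ψ, -, -, hψ, y, hy, hbad⟩ := he
  have hjr : ((j + 1 : ℕ) : ℝ) ≤ Real.log N ^ C := by
    have h1 : j + 1 ≤ ⌊Real.log N ^ C⌋₊ := hj
    refine le_trans ?_ (Nat.floor_le (show 0 ≤ Real.log N ^ C by positivity))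
    exact_mod_cast h1
  have hrad : Real.log N ^ (A₀ + C) < (rad e : ℝ) := by
    by_contra hcon
    rw [not_lt] at hcon
    have h1 : 8 * Real.log N ^ (A₀ + C) < (e : ℝ) := by
      refine lt_of_le_of_lt ?_ he2
      calc 8 * Real.log N ^ (A₀ + C) ≤ Real.log N * Real.log N ^ (A₀ + C) := by gcongr
        _ = Real.log N ^ K := by rw [hK]; ring
    exact absurd (hgm e ψ hψ hcon h1 heN y hy) (not_le.2 hbad)
  have h5 : (rad e : ℝ) ≤ (rad (e / Nat.gcd e (j + 1)) : ℝ) * ((j + 1 : ℕ) : ℝ) := by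
    exact_mod_cast rad_div he1 (by omega)
  have h6 : Real.log N ^ A₀ * Real.log N ^ C <
      (rad (e / Nat.gcd e (j + 1)) : ℝ) * Real.log N ^ C := by
    calc Real.log N ^ A₀ * Real.log N ^ C = Real.log N ^ (A₀ + C) := by ring
      _ < (rad e : ℝ) := hrad
      _ ≤ (rad (e / Nat.gcd e (j + 1)) : ℝ) * ((j + 1 : ℕ) : ℝ) := h5
      _ ≤ _ := by gcongr
  exact lt_of_mul_lt_mul_right h6 (by positivity)

/-- ERRR: the error term, for the moduli which are not divisible by one of few large integers -/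
def ErrR4StmR : Prop := ∀ (A U₀ : ℕ) (ρ : ℝ), 0 < ρ → ∃ c : ℕ, ∀ A₀ : ℕ, ∃ B : ℕ, ∀ E : ℕ, ∃ N₀ : ℕ, ∀ N : ℕ, N₀ ≤ N →
  ∃ D : Finset ℕ, (D.card : ℝ) ≤ Real.log N ^ c ∧ (∀ d ∈ D, Real.log N ^ A₀ < (rad d : ℝ)) ∧
  ∀ z : ℕ, Real.log N ^ B ≤ z → (z : ℝ) ≤ Real.log N ^ E → ∃ r : ℕ, Par U₀ N z r ∧
    ∑ n ∈ Icc 1 N, |lamz z n - lsh z r n| ≤ N / Real.log N ^ U₀ ∧
    ∀ (q : ℕ) [NeZero q], (q : ℝ) ≤ (N : ℝ) ^ (4 / 5 - ρ) → (∀ d ∈ D, ¬ d ∣ q) → ∀ a : ZMod q,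
    ∀ y₁ y₂ : ℕ, y₁ ≤ N → y₂ ≤ N →
      ∑ n ∈ (Icc 1 (2 * N)).filter (fun n : ℕ => (n : ZMod q) = a),
        ‖cv LA (fm N z r) y₁ y₂ n‖ ^ 2 ≤ (N : ℝ) ^ 3 / (q * Real.log N ^ A)

theorem errR4R (hGMB : S_GMB) (hCore : Core5Stm) (hL2 : L2Stm) (hB3 : BilMaj3Stm)
    (hBm : BilMinStm) (hTM : TiMaj2Stm) (hTm : TiMinStm) (hLsh : LshStm) (hModel : ModelStm) :
    ErrR4StmR := by
  intro A U₀ ρ hρ
  have hρ2 : 0 < ρ / 2 := by positivity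
  obtain ⟨ct, Nw, hWB⟩ := ws
  obtain ⟨A₁, hC1⟩ := hCore A (-(1 / 10) + ρ) (-(1 / 10) + ρ / 2) (by linarith) (by linarith)
  obtain ⟨Cg, Ng, hg⟩ := nGM hL2 hBm (A₁ + 2) hρ2
  obtain ⟨Ch, Nh, hh⟩ := nH hTm hLsh ct (A₁ + 2) (ρ / 2) hρ2
  obtain ⟨C, hC⟩ : ∃ C, C = max Cg Ch := ⟨_, rfl⟩
  obtain ⟨A₂, hC2⟩ := hC1 C
  obtain ⟨C₃, Nm1, hm1⟩ := mGM hL2 hB3 (A₂ + 2) C hρ2
  obtain ⟨Nm2, hm2⟩ := mH hTM hLsh ct (A₂ + 2) C (ρ / 2) hρ2
  obtain ⟨U₂, hC3⟩ := hC2 C₃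
  obtain ⟨Nm3, hm3⟩ := mH hTM hLsh ct (2 * (U₂ + C + 4)) C (ρ / 2) hρ2
  obtain ⟨C₄, Nd, hd⟩ := mG4 hL2 (U₂ + C + 4) (ρ / 2) hρ2
  refine ⟨C₄ + C, fun A₀ => ?_⟩
  obtain ⟨K, hK⟩ : ∃ K, K = (A₀ + 1) + C := ⟨_, rfl⟩
  obtain ⟨U, Nc, hC4⟩ := hC3 K
  obtain ⟨U₁, hU₁⟩ : ∃ U₁, U₁ = max U₀ (U + 2) := ⟨_, rfl⟩
  obtain ⟨Bm, hBm⟩ := hModel U₁
  refine ⟨max Bm K, fun E => ?_⟩
  obtain ⟨Nmo, hmo⟩ := hBm E
  obtain ⟨Ngm, hgm⟩ := hGMB (A₀ + C) (U₂ + C + 4)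
  obtain ⟨Nl, hl⟩ := lamz_ap E (U + 2)
  obtain ⟨Na, ha⟩ := apm K (U + 2)
  obtain ⟨Ne, hNe⟩ := Filter.eventually_atTop.1 (ev_log (U + U₂ + C + 8) (s := 1 / 5) (by norm_num) (16 + 4 * |ct|))
  obtain ⟨Nf, hNf⟩ := Filter.eventually_atTop.1 (ev_log C (s := ρ / 2) (by positivity) 1)
  refine ⟨Ng + Nh + Nm1 + Nm2 + Nm3 + Nd + Nc + Nw + Nmo + Nl + Na + Ne + Nf + Ngm + 1,
    fun N hN => ?_⟩
  have hN1 : 1 ≤ N := by omega
  have hN0 : (0 : ℝ) < N := by exact_mod_cast hN1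
  obtain ⟨hLe, hLp⟩ := hNe N (by omega)
  obtain ⟨-, hLC⟩ := hNf N (by omega)
  have hct := abs_nonneg ct
  have hctl := le_abs_self ct
  have hL1 : 1 ≤ Real.log N := by linarith
  have hL2' : 2 ≤ Real.log N := by linarith
  have eρ : (7 / 10 - (-(1 / 10) + ρ / 2) : ℝ) = 4 / 5 - ρ / 2 := by ring
  refine ⟨D2 N (U₂ + C + 4) K C (ρ / 2), ?_, ?_, ?_⟩
  · exact D2_card hL1 (D1_card K (fun Ψ hΨ => hd N (by omega) Ψ (fun ψ hψ => hΨ ψ hψ)))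
  · intro d hd
    exact D2_rad (by linarith) hK (hgm N (by omega)) hd
  intro z hz1 hz2
  have hzB : Real.log N ^ Bm ≤ z := (pow_le_pow_right₀ hL1 (le_max_left _ _)).trans hz1
  have hzK : Real.log N ^ K ≤ z := (pow_le_pow_right₀ hL1 (le_max_right _ _)).trans hz1
  have hz1' : 1 ≤ z := by
    have : (1 : ℝ) ≤ z := (one_le_pow₀ hL1).trans hz1
    exact_mod_cast this
  obtain ⟨r, hPar, hsum⟩ := hmo N (by omega) z hzB hz2
  have hW := hWB N (by omega)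
  have hct0 := hW.nn
  have hdiv : ∀ V : ℕ, V ≤ U₁ → (N : ℝ) / Real.log N ^ U₁ ≤ N / Real.log N ^ V := fun V hV =>
    div_le_div_of_nonneg_left (Nat.cast_nonneg _) (by positivity) (pow_le_pow_right₀ hL1 hV)
  have hU0 : U₀ ≤ U₁ := by rw [hU₁]; exact le_max_left _ _
  have hU2 : U + 2 ≤ U₁ := by rw [hU₁]; exact le_max_right _ _
  have hP0 := par_mono hL1 hU0 hPar
  have hP2 := par_mono hL1 hU2 hPar
  refine ⟨r, hP0, hsum.trans (hdiv _ hU0), ?_⟩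
  intro q _ hq hqD a y₁ y₂ hy₁ hy₂
  have hMin : MinAt N (-(1 / 10) + ρ / 2) A₁ C (fm N z r) := by
    rw [hC]
    exact min_fm hL2' (hg N (by omega)) (hh N (by omega) (Wm N) hW z r hPar.hD hPar.hV)
  have hMaj : MajAt N (-(1 / 10) + ρ / 2) A₂ C C₃ (fm N z r) :=
    maj_fm hL2' (hm1 N (by omega)) (fun q _ hq => hm2 N (by omega) (Wm N) hW q hq z r hPar.hD hPar.hV)
  have hAp : ApAt N K U (fm N z r) := by
    refine ap_fm hW (by linarith) ?_ (hsum.trans (hdiv _ hU2)) (ha N (by omega))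
    intro q hq hqK c y hy
    refine hl N (by omega) z hz1' hz2 q hq ?_ c y hy
    exact_mod_cast hqK.trans hzK
  have hLpow : Real.log N ^ (U + 4) ≤ (N : ℝ) ^ (1 / 5 : ℝ) :=
    (pow_le_pow_right₀ hL1 (by omega)).trans hLp
  have hNc : NcAt N U (fm N z r) := nc_fm hN1 hW hP2 (by linarith) hLpow
  have hq' : (q : ℝ) ≤ (N : ℝ) ^ (7 / 10 - (-(1 / 10) + ρ)) := by
    have e : (7 / 10 - (-(1 / 10) + ρ) : ℝ) = 4 / 5 - ρ := by ring
    rw [e]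
    exact hq
  have hqC : (q : ℝ) * Real.log N ^ C ≤ (N : ℝ) ^ (4 / 5 - ρ / 2) := by
    calc (q : ℝ) * Real.log N ^ C ≤ (N : ℝ) ^ (4 / 5 - ρ) * (N : ℝ) ^ (ρ / 2) := by gcongr
      _ = (N : ℝ) ^ (4 / 5 - ρ / 2) := by
          rw [← Real.rpow_add hN0]
          congr 1
          ring
  have hReg : RegAt N C K U₂ (fm N z r) q :=
    reg_fm hN1 (by linarith) hqC hρ2 (NeZero.pos q)
      (nc_GM hN1 (by linarith) ((pow_le_pow_right₀ hL1 (by omega)).trans hLp))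
      (fun q _ hq => hm3 N (by omega) (Wm N) hW q (by rw [eρ]; exact hq) z r hPar.hD hPar.hV) hqD
  exact hC4 N (by omega) LA (fm N z r) (bd_LA hL1) (bd_fm hW hPar (by linarith)) hMin hMaj hAp hNc q hq' hReg a
    y₁ y₂ hy₁ hy₂

theorem fr_mainR (hErr : ErrR4StmR) (ρ : ℝ) (hρ : 0 < ρ) (A : ℕ) :
    ∃ c : ℕ, ∀ A₀ : ℕ, ∃ N₀ : ℕ, ∀ N : ℕ, N₀ ≤ N → ∃ D : Finset ℕ, (D.card : ℝ) ≤ Real.log N ^ c ∧
      (∀ d ∈ D, Real.log N ^ A₀ < (rad d : ℝ)) ∧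
      ∀ q : ℕ, 1 ≤ q → (q : ℝ) ≤ (N : ℝ) ^ (4 / 5 - ρ) → (∀ d ∈ D, ¬ d ∣ q) → ∀ a : ℕ,
        ((badc (WinM A) N q a).card : ℝ) ≤ (N : ℝ) / (q * Real.log N ^ A) := by
  classical
  obtain ⟨V, hV⟩ : ∃ V, V = 2 * A + 4 := ⟨_, rfl⟩
  obtain ⟨c, hB⟩ := hErr (A + 3 * V + 8) (V + 6) ρ hρ
  refine ⟨c, fun A₀ => ?_⟩
  obtain ⟨B, hB⟩ := hB A₀
  obtain ⟨E1, hE1⟩ : ∃ E1, E1 = max B (V + 8) := ⟨_, rfl⟩
  obtain ⟨N₁, h1⟩ := hB (E1 + 1)
  obtain ⟨N₂, h2⟩ := grid_lower4 V E1 (by rw [hE1]; exact le_max_right _ _)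
  obtain ⟨N₃, h3⟩ := windows_of_grid4 A
  obtain ⟨N₄, h4⟩ := Filter.eventually_atTop.1 (ev_log (V + A + 4) (s := 1 / 5) (by norm_num) 100)
  refine ⟨N₁ + N₂ + N₃ + N₄ + 3, fun N hN => ?_⟩
  have hN1 : 1 ≤ N := by omega
  have hN0 : (0 : ℝ) < N := by exact_mod_cast hN1
  have hN1r : (1 : ℝ) ≤ N := by exact_mod_cast hN1
  obtain ⟨hL100, hLp⟩ := h4 N (by omega)
  obtain ⟨D, hDc, hDl, c1⟩ := h1 N (by omega)
  refine ⟨D, hDc, hDl, fun q hq1 hqN hqD a => ?_⟩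
  have : NeZero q := ⟨by omega⟩
  have c2 := h2 N (by omega)
  have c3 := h3 N (by omega)
  obtain ⟨L, hLd⟩ : ∃ L, L = Real.log (N : ℝ) := ⟨_, rfl⟩
  rw [← hLd] at c1 c2 c3 hL100 hLp ⊢
  have hL0 : 0 < L := by linarith
  have hL1 : 1 ≤ L := by linarith
  have hq0 : (0 : ℝ) < q := by exact_mod_cast hq1
  -- the parameter `z`
  obtain ⟨z, hz⟩ : ∃ z, z = ⌈L ^ E1⌉₊ := ⟨_, rfl⟩
  have hzlo : L ^ E1 ≤ z := by rw [hz]; exact Nat.le_ceil _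
  have hL1B : 1 ≤ L ^ E1 := one_le_pow₀ hL1
  have hzhi : (z : ℝ) ≤ L ^ (E1 + 1) := by
    have := Nat.ceil_lt_add_one (show 0 ≤ L ^ E1 by positivity)
    rw [← hz] at this
    calc (z : ℝ) ≤ L ^ E1 + 1 := this.le
      _ ≤ L ^ E1 + L ^ E1 := by linarith
      _ = 2 * L ^ E1 := by ring
      _ ≤ L * L ^ E1 := mul_le_mul_of_nonneg_right (by linarith) (by positivity)
      _ = L ^ (E1 + 1) := by ring
  have hzB : L ^ B ≤ z := (pow_le_pow_right₀ hL1 (by rw [hE1]; exact le_max_left _ _)).trans hzlo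
  obtain ⟨r, hPar, hsum, hms⟩ := c1 z hzB hzhi
  have c2' := c2 z r hzlo hzhi hsum
  -- the grid
  obtain ⟨Tg, hTg⟩ : ∃ Tg, Tg = ⌈L ^ V⌉₊ := ⟨_, rfl⟩
  have hT1 : L ^ V ≤ Tg := by rw [hTg]; exact Nat.le_ceil _
  have hLV : 1 ≤ L ^ V := one_le_pow₀ hL1
  have hT2 : (Tg : ℝ) ≤ L ^ V + 1 := by
    rw [hTg]
    exact (Nat.ceil_lt_add_one (by positivity)).le
  have hTpos : 0 < Tg := by
    have : (0 : ℝ) < Tg := by linarith
    exact_mod_cast this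
  obtain ⟨H, hH⟩ : ∃ H, H = N / Tg + 1 := ⟨_, rfl⟩
  have hH1 : 1 ≤ H := by rw [hH]; exact Nat.le_add_left 1 _
  have hpow1 : (N : ℝ) ^ (1 / 5 : ℝ) ≤ N := by
    calc (N : ℝ) ^ (1 / 5 : ℝ) ≤ (N : ℝ) ^ (1 : ℝ) := Real.rpow_le_rpow_of_exponent_le hN1r (by norm_num)
      _ = N := Real.rpow_one _
  have hHr : (H : ℝ) ≤ 2 * (N / L ^ V) := by
    rw [hH]
    push_cast
    have e1 : ((N / Tg : ℕ) : ℝ) ≤ N / L ^ V := by
      calc ((N / Tg : ℕ) : ℝ) ≤ (N : ℝ) / Tg := Nat.cast_div_le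
        _ ≤ N / L ^ V := div_le_div_of_nonneg_left hN0.le (by positivity) hT1
    have e2 : 1 ≤ (N : ℝ) / L ^ V := by
      rw [le_div_iff₀ (by positivity), one_mul]
      exact (pow_le_pow_right₀ hL1 (by omega)).trans (hLp.trans hpow1)
    linarith
  have hjT : ∀ j : ℕ, j * H ≤ N → j < Tg + 1 := by
    intro j hj
    by_contra hcon
    have e1 : (Tg + 1) * H ≤ j * H := Nat.mul_le_mul_right _ (by omega)
    have e2 : N < Tg * H := by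
      rw [hH]
      have := Nat.lt_mul_div_succ N hTpos
      exact this
    have e3 : Tg * H ≤ (Tg + 1) * H := Nat.mul_le_mul_right _ (by omega)
    omega
  -- the size of q
  have hqs : (q : ℝ) * L ^ (A + 1) ≤ N := by
    have e1 : (q : ℝ) ≤ (N : ℝ) ^ (4 / 5 : ℝ) :=
      hqN.trans (Real.rpow_le_rpow_of_exponent_le hN1r (by linarith))
    have e2 : L ^ (A + 1) ≤ (N : ℝ) ^ (1 / 5 : ℝ) := (pow_le_pow_right₀ hL1 (by omega)).trans hLp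
    calc (q : ℝ) * L ^ (A + 1) ≤ (N : ℝ) ^ (4 / 5 : ℝ) * (N : ℝ) ^ (1 / 5 : ℝ) := by gcongr
      _ = N := by rw [← Real.rpow_add hN0]; norm_num
  obtain ⟨Bd, hBd⟩ : ∃ Bd, Bd = badc (WinM A) N q a := ⟨_, rfl⟩
  rw [← hBd]
  have hmem : ∀ n ∈ Bd, 1 ≤ n ∧ n ≤ N ∧ 2 ∣ n ∧ n % q = a % q ∧ ¬ WinM A n := by
    intro n hn
    rw [hBd] at hn
    unfold badc at hn
    rw [mem_filter, mem_Icc] at hn
    exact ⟨hn.1.1, hn.1.2, hn.2.1, hn.2.2.1, hn.2.2.2⟩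
  obtain ⟨B1s, hB1s⟩ : ∃ B1s, B1s = Bd.filter (fun n : ℕ => (n : ℝ) < N / L ^ (A + 1)) := ⟨_, rfl⟩
  obtain ⟨B2s, hB2s⟩ : ∃ B2s, B2s = Bd.filter (fun n : ℕ => ¬ (n : ℝ) < N / L ^ (A + 1)) := ⟨_, rfl⟩
  have hcard : B1s.card + B2s.card = Bd.card := by
    rw [hB1s, hB2s]; exact card_filter_add_card_filter_not _
  have hone : (1 : ℝ) ≤ N / (q * L ^ (A + 1)) := by rw [_root_.one_le_div (by positivity)]; exact hqs
  have hB1c : (B1s.card : ℝ) ≤ 2 * (N / (q * L ^ (A + 1))) := by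
    have h3 := class_le N q a hq1 B1s (N / L ^ (A + 1)) (by positivity) (by
      intro n hn
      rw [hB1s, mem_filter] at hn
      obtain ⟨a1, a2, a3, a4, a5⟩ := hmem n hn.1
      exact ⟨a4, hn.2.le⟩)
    have e1 : (N : ℝ) / L ^ (A + 1) / q = N / (q * L ^ (A + 1)) := by rw [div_div, mul_comm]
    rw [e1] at h3
    linarith
  -- the second part
  obtain ⟨J, hJ⟩ : ∃ J, J = (range (Tg + 1)).filter (fun j => j * H ≤ N) := ⟨_, rfl⟩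
  have hterm : ∀ n ∈ B2s, ((N : ℝ) / L ^ (V + 2)) ^ 2 ≤ ∑ j ∈ J, Eq4 N z r n (j * H) := by
    intro n hn
    rw [hB2s, mem_filter, not_lt] at hn
    obtain ⟨a1, a2, a3, a4, a5⟩ := hmem n hn.1
    by_contra hcon
    rw [not_le] at hcon
    have hsm : ∀ j : ℕ, j * H < n → SmallE4 N z r n (j * H) (V + 2) := by
      intro j hj
      by_contra hns
      have k1 : ((N : ℝ) / L ^ (V + 2)) ^ 2 ≤ Eq4 N z r n (j * H) := by
        unfold SmallE4 at hns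
        rw [not_le, ← hLd] at hns
        unfold Eq4
        exact pow_le_pow_left₀ (by positivity) hns.le 2
      have k2 : Eq4 N z r n (j * H) ≤ ∑ j ∈ J, Eq4 N z r n (j * H) := by
        refine single_le_sum (f := fun j => Eq4 N z r n (j * H)) (fun _ _ => sq_nonneg _) ?_
        rw [hJ, mem_filter, mem_range]
        exact ⟨hjT j (by omega), by omega⟩
      linarith
    have hS2 := (c2' n a2 a3 (by omega) 0 0 le_rfl (by omega) (by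
      have := hsm 0 (by omega)
      rwa [zero_mul] at this) (by
      have := hsm 0 (by omega)
      rwa [zero_mul] at this)).2
    apply a5
    rw [hV] at hHr
    refine c3 H hH1 hHr n a2 hn.2 hS2 ?_
    intro i j hij hj
    have hle : i * H ≤ j * H := Nat.mul_le_mul_right _ hij
    have := (c2' n a2 a3 (by omega) (i * H) (j * H) hle hj (hsm i (by omega)) (hsm j hj)).1
    rw [hV] at this
    exact this
  have hcls : ∀ n ∈ B2s, n ∈ (Icc 1 (2 * N)).filter (fun n : ℕ => (n : ZMod q) = (a : ZMod q)) := by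
    intro n hn
    rw [hB2s, mem_filter] at hn
    obtain ⟨a1, a2, a3, a4, a5⟩ := hmem n hn.1
    rw [mem_filter, mem_Icc]
    exact ⟨⟨a1, by omega⟩, (ZMod.natCast_eq_natCast_iff' n a q).2 a4⟩
  obtain ⟨R, hR⟩ : ∃ R : ℝ, R = (N : ℝ) ^ 3 / (q * L ^ (A + 3 * V + 8)) := ⟨_, rfl⟩
  have hR0 : 0 < R := by rw [hR]; positivity
  have hEsum : ∀ j ∈ J, ∑ n ∈ (Icc 1 (2 * N)).filter (fun n : ℕ => (n : ZMod q) = (a : ZMod q)),
      Eq4 N z r n (j * H) ≤ 4 * R := by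
    intro j hj
    rw [hJ, mem_filter] at hj
    unfold Eq4
    have k1 := hms q hqN hqD (a : ZMod q) (j * H) N hj.2 le_rfl
    rw [← hR] at k1
    linarith
  have hJc : (J.card : ℝ) ≤ 3 * L ^ V := by
    have e1 : J.card ≤ Tg + 1 := by
      rw [hJ]
      exact (card_filter_le _ _).trans (card_range _).le
    have e2 : (J.card : ℝ) ≤ Tg + 1 := by exact_mod_cast e1
    linarith
  have hsum2 : (B2s.card : ℝ) * (N / L ^ (V + 2)) ^ 2 ≤ 12 * L ^ V * R := by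
    calc (B2s.card : ℝ) * (N / L ^ (V + 2)) ^ 2 = ∑ _n ∈ B2s, ((N : ℝ) / L ^ (V + 2)) ^ 2 := by
          rw [sum_const, nsmul_eq_mul]
      _ ≤ ∑ n ∈ B2s, ∑ j ∈ J, Eq4 N z r n (j * H) := sum_le_sum hterm
      _ ≤ ∑ n ∈ (Icc 1 (2 * N)).filter (fun n : ℕ => (n : ZMod q) = (a : ZMod q)),
          ∑ j ∈ J, Eq4 N z r n (j * H) :=
          sum_le_sum_of_subset_of_nonneg hcls fun n _ _ => sum_nonneg fun j _ => sq_nonneg _
      _ = ∑ j ∈ J, ∑ n ∈ (Icc 1 (2 * N)).filter (fun n : ℕ => (n : ZMod q) = (a : ZMod q)),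
          Eq4 N z r n (j * H) := sum_comm
      _ ≤ ∑ j ∈ J, 4 * R := sum_le_sum hEsum
      _ = (J.card : ℝ) * (4 * R) := by rw [sum_const, nsmul_eq_mul]
      _ ≤ (3 * L ^ V) * (4 * R) := by gcongr
      _ = _ := by ring
  have hB2c : (B2s.card : ℝ) ≤ N / (q * L ^ (A + 2)) := by
    have h4 : 12 * L ^ V * R ≤ (N / (q * L ^ (A + 2))) * (N / L ^ (V + 2)) ^ 2 := by
      have e1 : (N / (q * L ^ (A + 2))) * (N / L ^ (V + 2)) ^ 2 =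
          (N : ℝ) ^ 3 / (q * L ^ (A + 3 * V + 8)) * (L ^ V * L ^ 2) := by
        have e2 : L ^ (A + 3 * V + 8) = L ^ A * (L ^ V) ^ 3 * L ^ 8 := by
          rw [← pow_mul, ← pow_add, ← pow_add]
          congr 1
          ring
        rw [e2, pow_add, pow_add]
        have e0 : L ^ V ≠ 0 := by positivity
        have e3 : L ^ A ≠ 0 := by positivity
        generalize L ^ V = X at e0 ⊢
        generalize L ^ A = Y at e3 ⊢
        field_simp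
      rw [e1, ← hR]
      have e4 : (12 : ℝ) ≤ L ^ 2 := by nlinarith
      calc 12 * L ^ V * R = R * (L ^ V * 12) := by ring
        _ ≤ R * (L ^ V * L ^ 2) := by gcongr
    exact le_of_mul_le_mul_right (hsum2.trans h4) (by positivity)
  have h3 : (B1s.card : ℝ) + B2s.card = Bd.card := by exact_mod_cast hcard
  have h4 : (N : ℝ) / (q * L ^ (A + 1)) = N / (q * L ^ A) / L := by
    rw [pow_succ, ← mul_assoc, ← div_div]
  have h5 : (N : ℝ) / (q * L ^ (A + 2)) = N / (q * L ^ A) / L / L := by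
    rw [pow_succ, pow_succ, ← mul_assoc, ← mul_assoc, ← div_div, ← div_div]
  have h6 : 0 ≤ (N : ℝ) / (q * L ^ A) := by positivity
  have h7 : (N : ℝ) / (q * L ^ A) / L ≤ N / (q * L ^ A) / 100 := div_le_div_of_nonneg_left h6 (by norm_num) hL100
  have h8 : (N : ℝ) / (q * L ^ A) / L / L ≤ N / (q * L ^ A) / L := div_le_self (by positivity) hL1
  rw [h4] at hB1c
  rw [h5] at hB2c
  linarith

theorem errR4_allR (hGMB : S_GMB) : ErrR4StmR :=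
  errR4R hGMB (core5 Pool.Agent.Y708.GJ.lift Pool.Agent.Y872.GJ.pars Pool.Agent.Y297.GJ.orth Pool.Agent.Y812.GJ.nonU)
    Pool.Agent.Y812.GJ.l2
    (bilMaj3 Pool.Agent.Y812.GJ.l2 (countK Pool.Agent.Y812.GJ.l2))
    Pool.Agent.Y909.GJ.bilMin (tiMaj2 Pool.Agent.Y812.GJ.l2) Pool.Agent.Y412.GJ.tiMin
    Pool.Agent.Y812.GJ.lsh_le Pool.Agent.Y883.GJ.model_all

theorem fr_allR (hGMB : S_GMB) (ρ : ℝ) (hρ : 0 < ρ) (A : ℕ) :
    ∃ c : ℕ, ∀ A₀ : ℕ, ∃ N₀ : ℕ, ∀ N : ℕ, N₀ ≤ N → ∃ D : Finset ℕ, (D.card : ℝ) ≤ Real.log N ^ c ∧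
      (∀ d ∈ D, Real.log N ^ A₀ < (rad d : ℝ)) ∧
      ∀ q : ℕ, 1 ≤ q → (q : ℝ) ≤ (N : ℝ) ^ (4 / 5 - ρ) → (∀ d ∈ D, ¬ d ∣ q) → ∀ a : ℕ,
        ((badc (WinM A) N q a).card : ℝ) ≤ (N : ℝ) / (q * Real.log N ^ A) :=
  fr_mainR (errR4_allR hGMB) ρ hρ A

/-- the theorem of project FR for an arbitrary consequence of the property `WinM` -/
theorem class_few_reg4R (hGMB : S_GMB) (Q : ℕ → Prop) (W : ℕ) (hQ : ∃ n₀ : ℕ, ∀ n : ℕ, n₀ ≤ n → 2 ∣ n → WinM W n → Q n)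
    (ρ : ℝ) (hρ : 0 < ρ) (A : ℕ) :
    ∃ c : ℕ, ∀ A₀ : ℕ, ∃ x₀ : ℝ, ∀ x : ℝ, x₀ ≤ x → ∃ D : Finset ℕ, (D.card : ℝ) ≤ Real.log x ^ c ∧
      (∀ d ∈ D, Real.log x ^ A₀ < (rad d : ℝ)) ∧
      ∀ q : ℕ, 1 ≤ q → (q : ℝ) ≤ x ^ (4 / 5 - ρ) → (∀ d ∈ D, ¬ d ∣ q) → ∀ a : ℤ,
        ({n : ℕ | 0 < n ∧ (n : ℝ) ≤ x ∧ 2 ∣ n ∧ (n : ℤ) ≡ a [ZMOD q] ∧ ¬ Q n}).Finite ∧
        (({n : ℕ | 0 < n ∧ (n : ℝ) ≤ x ∧ 2 ∣ n ∧ (n : ℤ) ≡ a [ZMOD q] ∧ ¬ Q n}.ncard : ℕ) : ℝ) ≤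
          x / (q * Real.log x ^ A) := by
  classical
  obtain ⟨n₀', hn₀'⟩ := hQ
  obtain ⟨n₀, hn₀⟩ : ∃ n₀ : ℕ, n₀ = n₀' + 3 := ⟨_, rfl⟩
  obtain ⟨A', hA'⟩ : ∃ A', A' = A + 2 + W := ⟨_, rfl⟩
  obtain ⟨c, h0⟩ := fr_allR hGMB (ρ / 2) (by linarith) A'
  refine ⟨c, fun A₀ => ?_⟩
  obtain ⟨T, hT⟩ : ∃ T, T = A₀ := ⟨_, rfl⟩
  obtain ⟨N₀, h0⟩ := h0 (A₀ + 1)
  obtain ⟨x₁, hx₁⟩ : ∃ x₁ : ℝ, ∀ x : ℝ, x₁ ≤ x → 2 ^ (2 * A' + 6) + 2 * 2 ^ T ≤ Real.log x := by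
    have h := Real.tendsto_log_atTop.eventually_ge_atTop (2 ^ (2 * A' + 6) + 2 * 2 ^ T : ℝ)
    exact Filter.eventually_atTop.1 h
  obtain ⟨x₂, hx₂4, hx₂⟩ := pow_range (4 / 5) ρ hρ (by norm_num)
  obtain ⟨x₃, hx₃⟩ := Filter.eventually_atTop.1
    (real_log (A + 1) (s := 1 / 5) (by norm_num) (2 * (n₀ + 1)))
  refine ⟨max (max (max ((N₀ : ℝ) + 4) x₁) x₂) x₃, fun x hx => ?_⟩
  have hxN : (N₀ : ℝ) + 4 ≤ x :=
    (le_max_left _ _).trans ((le_max_left _ _).trans ((le_max_left _ _).trans hx))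
  have hlx' := hx₁ x ((le_max_right _ _).trans ((le_max_left _ _).trans ((le_max_left _ _).trans hx)))
  have hrange := hx₂ x ((le_max_right _ _).trans ((le_max_left _ _).trans hx))
  have h2T : (0 : ℝ) < 2 * 2 ^ T := by positivity
  have h2A : (0 : ℝ) < 2 ^ (2 * A' + 6) := by positivity
  have hlx : (2 : ℝ) ^ (2 * A' + 6) ≤ Real.log x := by linarith
  have hN₀r : (0 : ℝ) ≤ N₀ := Nat.cast_nonneg _
  have hx4 : 4 ≤ x := by linarith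
  have hx0 : 0 < x := by linarith
  obtain ⟨N, hN⟩ : ∃ N, N = ⌊x⌋₊ := ⟨_, rfl⟩
  rw [← hN] at hrange
  have hNx : (N : ℝ) ≤ x := by rw [hN]; exact Nat.floor_le hx0.le
  have hxN1 : x < N + 1 := by rw [hN]; exact Nat.lt_floor_add_one x
  have hN0 : (0 : ℝ) < N := by linarith
  have hNN₀ : N₀ ≤ N := by
    rw [hN]
    exact Nat.le_floor (by linarith)
  obtain ⟨l, hl⟩ : ∃ l, l = Real.log x := ⟨_, rfl⟩
  obtain ⟨L, hL⟩ : ∃ L, L = Real.log N := ⟨_, rfl⟩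
  have h64 : (64 : ℝ) ≤ 2 ^ (2 * A' + 6) := by
    calc (64 : ℝ) = 2 ^ 6 := by norm_num
      _ ≤ 2 ^ (2 * A' + 6) := pow_le_pow_right₀ (by norm_num) (by omega)
  rw [← hl] at hlx hlx'
  have hl64 : 64 ≤ l := by linarith
  have hLl : L ≤ l := by rw [hL, hl]; exact Real.log_le_log hN0 hNx
  have hlL : l / 2 ≤ L := by
    have h1 : x / 2 ≤ N := by linarith
    have h2 : Real.log (x / 2) ≤ L := by rw [hL]; exact Real.log_le_log (by linarith) h1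
    rw [Real.log_div hx0.ne' (by norm_num), ← hl] at h2
    have h3 := Real.log_two_lt_d9
    linarith
  have hL0 : 0 < L := by linarith
  have hl0 : 0 < l := by linarith
  have hpow : 8 * l ^ A ≤ L ^ A' := by
    have hL1 : 1 ≤ L := by linarith
    refine le_trans ?_ (pow_le_pow_right₀ hL1 (show A + 2 ≤ A' by omega))
    have h1 : (l / 2) ^ (A + 2) ≤ L ^ (A + 2) := pow_le_pow_left₀ (by linarith) hlL _
    refine le_trans ?_ h1
    rw [div_pow, le_div_iff₀ (by positivity), pow_add l A 2]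
    have h2 : (8 : ℝ) * 2 ^ (A + 2) ≤ l ^ 2 := by
      calc (8 : ℝ) * 2 ^ (A + 2) = 2 ^ (A + 5) := by rw [show A + 5 = 3 + (A + 2) by ring, pow_add 2 3]; norm_num
        _ ≤ 2 ^ (2 * A' + 6) := pow_le_pow_right₀ (by norm_num) (by omega)
        _ ≤ l := hlx
        _ ≤ l ^ 2 := by nlinarith
    calc 8 * l ^ A * 2 ^ (A + 2) = l ^ A * (8 * 2 ^ (A + 2)) := by ring
      _ ≤ l ^ A * l ^ 2 := mul_le_mul_of_nonneg_left h2 (by positivity)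
  have hTT : l ^ T ≤ L ^ (T + 1) := by
    have h1 : l ^ T ≤ (2 * L) ^ T := pow_le_pow_left₀ hl0.le (by linarith) T
    rw [mul_pow] at h1
    refine h1.trans ?_
    rw [pow_succ' L T]
    exact mul_le_mul_of_nonneg_right (by linarith) (by positivity)
  obtain ⟨D, hDc, hDl, h0⟩ := h0 N hNN₀
  rw [← hL] at hDc hDl
  refine ⟨D, ?_, ?_, ?_⟩
  · rw [← hl]
    exact hDc.trans (pow_le_pow_left₀ hL0.le hLl _)
  · intro d hd
    refine lt_of_le_of_lt ?_ (hDl d hd)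
    rw [← hl]
    rw [hT] at hTT
    exact hTT
  intro q hq hqx hqD a
  have hq0 : (0 : ℝ) < q := by exact_mod_cast hq
  obtain ⟨a', ha'⟩ : ∃ a', a' = (a % (q : ℤ)).toNat := ⟨_, rfl⟩
  have hcon := h0 q hq (hqx.trans hrange) hqD a'
  rw [← hL] at hcon
  obtain ⟨S, hS⟩ : ∃ S, S = badc (WinM A') N q a' := ⟨_, rfl⟩
  rw [← hS] at hcon
  obtain ⟨S', hS'⟩ : ∃ S' : Finset ℕ, S' = (Icc 1 n₀).filter (fun n => n % q = a' % q) := ⟨_, rfl⟩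
  have hS'c : (S'.card : ℝ) ≤ (n₀ : ℝ) / q + 1 := by
    apply class_le N q a' hq S' (n₀ : ℝ) (Nat.cast_nonneg _)
    intro n hn
    rw [hS', mem_filter, mem_Icc] at hn
    exact ⟨hn.2, by exact_mod_cast hn.1.2⟩
  have hsub : {n : ℕ | 0 < n ∧ (n : ℝ) ≤ x ∧ 2 ∣ n ∧ (n : ℤ) ≡ a [ZMOD q] ∧ ¬ Q n} ⊆
      ((S ∪ S' : Finset ℕ) : Set ℕ) := by
    rintro n ⟨a1, a2, a3, a4, a5⟩
    have hmod := mod_iff' n q a hq a4
    rw [← ha'] at hmod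
    rw [mem_coe, mem_union]
    by_cases hn : n ≤ n₀
    · right
      rw [hS', mem_filter, mem_Icc]
      exact ⟨⟨a1, hn⟩, hmod⟩
    · left
      rw [hS]
      refine mem_filter.2 ⟨mem_Icc.2 ⟨a1, ?_⟩, a3, hmod, ?_⟩
      · rw [hN]; exact Nat.le_floor a2
      · intro hw
        apply a5
        refine hn₀' n (by omega) a3 (winM_mono (show W ≤ A' by omega) ?_ hw)
        have h3 : (3 : ℝ) ≤ n := by exact_mod_cast (by omega : 3 ≤ n)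
        rw [Real.le_log_iff_exp_le (by linarith)]
        have := Real.exp_one_lt_d9
        linarith
  have hfin := (Finset.finite_toSet (S ∪ S')).subset hsub
  refine ⟨hfin, ?_⟩
  have h1 : (({n : ℕ | 0 < n ∧ (n : ℝ) ≤ x ∧ 2 ∣ n ∧ (n : ℤ) ≡ a [ZMOD q] ∧ ¬ Q n}.ncard : ℕ) : ℝ) ≤
      (S.card : ℝ) + S'.card := by
    have h2 := Set.ncard_le_ncard hsub (Finset.finite_toSet _)
    rw [Set.ncard_coe_finset] at h2
    have h3 := card_union_le S S'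
    exact_mod_cast h2.trans h3
  rw [← hl]
  have hlA : 0 < l ^ A := by positivity
  have hfirst : (N : ℝ) / (q * L ^ A') ≤ x / (q * l ^ A) / 8 := by
    rw [div_div, div_le_div_iff₀ (by positivity) (by positivity)]
    calc (N : ℝ) * (q * l ^ A * 8) ≤ x * (q * l ^ A * 8) :=
          mul_le_mul_of_nonneg_right hNx (by positivity)
      _ = (x * q) * (8 * l ^ A) := by ring
      _ ≤ (x * q) * L ^ A' := mul_le_mul_of_nonneg_left hpow (by positivity)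
      _ = x * (q * L ^ A') := by ring
  -- the small exceptions
  have hsecond : (n₀ : ℝ) / q + 1 ≤ x / (q * l ^ A) / 2 := by
    obtain ⟨e1, e2⟩ := hx₃ x ((le_max_right _ _).trans hx)
    rw [← hl] at e1 e2
    have e3 : (n₀ : ℝ) / q ≤ n₀ := div_le_self (Nat.cast_nonneg _) (by exact_mod_cast hq)
    have e4 : x ^ (1 / 5 : ℝ) * q ≤ x := by
      calc x ^ (1 / 5 : ℝ) * q ≤ x ^ (1 / 5 : ℝ) * x ^ (4 / 5 - ρ) :=
            mul_le_mul_of_nonneg_left hqx (by positivity)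
        _ = x ^ (1 - ρ) := by rw [← Real.rpow_add hx0]; congr 1; ring
        _ ≤ x ^ (1 : ℝ) := Real.rpow_le_rpow_of_exponent_le (by linarith) (by linarith)
        _ = x := Real.rpow_one x
    have e5 : ((n₀ : ℝ) + 1) * (2 * (q * l ^ A)) ≤ x := by
      calc ((n₀ : ℝ) + 1) * (2 * (q * l ^ A)) = (2 * (n₀ + 1)) * l ^ A * q := by ring
        _ ≤ l * l ^ A * q := by gcongr
        _ = l ^ (A + 1) * q := by rw [pow_succ']
        _ ≤ x ^ (1 / 5 : ℝ) * q := mul_le_mul_of_nonneg_right e2 hq0.le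
        _ ≤ x := e4
    rw [div_div, show (q : ℝ) * l ^ A * 2 = 2 * (q * l ^ A) by ring, le_div_iff₀ (by positivity)]
    refine le_trans ?_ e5
    exact mul_le_mul_of_nonneg_right (by linarith) (by positivity)
  have hpos : 0 ≤ x / (q * l ^ A) := by positivity
  linarith

/-- (20) regular moduli up to `x ^ (4 / 5)`; the exceptional integers have a large radical -/
theorem frrad : S_GMB → S_FRRAD := fun hGMB Q W hQ ρ hρ A => class_few_reg4R hGMB Q W hQ ρ hρ A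

end Pool.Agent.H996.PP
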