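import Pool.Agent.H567.PP.Stm

/-!
# Project PP: the choice of `D` (task PP-8, S_DSEL)
-/

set_option autoImplicit false

namespace Pool.Agent.H980.PP

open Finset
open Pool.Agent.H567.PP (S_DSEL rad)

/-- the exponent -/
def ee (q m p : ℕ) : ℕ := max ((q.factorization p + m - 1) / m) (if p = 2 then 2 else 1)

theorem ee_pos (q m p : ℕ) : 1 ≤ ee q m p := by
  unfold ee
  split_ifs
  · exact le_trans (by norm_num) (le_max_right _ _)
  · exact le_max_right _ _

theorem ee_two (q m : ℕ) : 2 ≤ ee q m 2 := by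
  unfold ee
  rw [if_pos rfl]
  exact le_max_right _ _

theorem le_m_ee (q m p : ℕ) (hm : 1 ≤ m) : q.factorization p ≤ m * ee q m p := by
  have h1 : (q.factorization p + m - 1) / m ≤ ee q m p := le_max_left _ _
  have h2 : q.factorization p ≤ m * ((q.factorization p + m - 1) / m) := by
    have h3 := Nat.div_add_mod (q.factorization p + m - 1) m
    have h4 := Nat.mod_lt (q.factorization p + m - 1) (show 0 < m by omega)
    omega
  exact h2.trans (Nat.mul_le_mul_left _ h1)

theorem ee_le (q m p : ℕ) (hm : 1 ≤ m) (hp : 1 ≤ q.factorization p)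
    (h2 : p = 2 → 2 ≤ q.factorization p) : ee q m p ≤ q.factorization p := by
  unfold ee
  apply max_le
  · rw [← Nat.lt_add_one_iff, Nat.div_lt_iff_lt_mul (by omega)]
    obtain ⟨a, ha⟩ := Nat.exists_eq_add_of_le hp
    obtain ⟨b, hb⟩ := Nat.exists_eq_add_of_le hm
    rw [ha, hb]
    have : (1 + a + 1) * (1 + b) = 2 + a + 2 * b + a * b := by ring
    rw [this]
    have := Nat.zero_le (a * b)
    omega
  · split_ifs with h
    · exact h2 h
    · exact hp

theorem ee_real (q m p : ℕ) (hm : 1 ≤ m) :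
    (ee q m p : ℝ) ≤ q.factorization p / m + 1 + (if p = 2 then 1 else 0) := by
  have hm0 : (0 : ℝ) < m := by exact_mod_cast hm
  have h1 : (((q.factorization p + m - 1) / m : ℕ) : ℝ) ≤ q.factorization p / m + 1 := by
    refine Nat.cast_div_le.trans ?_
    rw [div_le_iff₀ hm0, add_mul, div_mul_cancel₀ _ hm0.ne', one_mul]
    rw [Nat.cast_sub (by omega)]
    push_cast
    linarith
  have h0 : (0 : ℝ) ≤ q.factorization p / m := by positivity
  unfold ee
  rw [Nat.cast_max]
  apply max_le
  · refine h1.trans ?_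
    split_ifs <;> linarith
  · split_ifs
    · push_cast
      linarith
    · push_cast
      linarith

theorem dsel : S_DSEL := by
  intro q m hq hq4 hm
  have hq0 : q ≠ 0 := by omega
  have hm0 : (0 : ℝ) < m := by exact_mod_cast hm
  obtain ⟨D, hD⟩ : ∃ D : ℕ, D = ∏ p ∈ q.primeFactors, p ^ ee q m p := ⟨_, rfl⟩
  have hfac : ∏ p ∈ q.primeFactors, p ^ q.factorization p = q :=
    Nat.prod_factorization_pow_eq_self hq0
  have hpr : ∀ p ∈ q.primeFactors, p.Prime := fun p hp => Nat.prime_of_mem_primeFactors hp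
  have hf1 : ∀ p ∈ q.primeFactors, 1 ≤ q.factorization p := by
    intro p hp
    exact (hpr p hp).factorization_pos_of_dvd hq0 (Nat.dvd_of_mem_primeFactors hp)
  have hf2 : 2 ∣ q → 2 ≤ q.factorization 2 := by
    intro h
    rw [← Nat.prime_two.pow_dvd_iff_le_factorization hq0]
    omega
  have hD0 : D ≠ 0 := by
    rw [hD]
    exact Finset.prod_ne_zero_iff.2 fun p hp => pow_ne_zero _ (hpr p hp).ne_zero
  have hDq : D ∣ q := by
    rw [hD]
    conv_rhs => rw [← hfac]
    refine Finset.prod_dvd_prod_of_dvd _ _ fun p hp => pow_dvd_pow _ ?_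
    refine ee_le q m p hm (hf1 p hp) ?_
    rintro rfl
    exact hf2 (Nat.dvd_of_mem_primeFactors hp)
  have hpD : ∀ p ∈ q.primeFactors, p ^ ee q m p ∣ D := by
    intro p hp
    rw [hD]
    exact Finset.dvd_prod_of_mem (fun p => p ^ ee q m p) hp
  have heD : ∀ p ∈ q.primeFactors, ee q m p ≤ D.factorization p := by
    intro p hp
    exact ((hpr p hp).pow_dvd_iff_le_factorization hD0).1 (hpD p hp)
  have hmem : ∀ p : ℕ, p.Prime → p ∣ q → p ∈ q.primeFactors := fun p hp h =>
    Nat.mem_primeFactors.2 ⟨hp, h, hq0⟩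
  have hgcd : ∀ i : ℕ, i ≤ m → (q : ℝ) ^ (i / m : ℝ) ≤ Nat.gcd q (D ^ i) := by
    intro i hi
    have h1 : ∏ p ∈ q.primeFactors, p ^ min (q.factorization p) (i * ee q m p) ∣ Nat.gcd q (D ^ i) := by
      apply Nat.dvd_gcd
      · conv_rhs => rw [← hfac]
        exact Finset.prod_dvd_prod_of_dvd _ _ fun p hp => pow_dvd_pow _ (min_le_left _ _)
      · rw [hD, ← Finset.prod_pow]
        refine Finset.prod_dvd_prod_of_dvd _ _ fun p hp => ?_
        rw [← pow_mul, mul_comm]
        exact pow_dvd_pow _ (by rw [mul_comm]; exact min_le_right _ _)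
    have h2 := Nat.le_of_dvd (Nat.gcd_pos_of_pos_left _ (by omega)) h1
    have h3 : (q : ℝ) ^ (i / m : ℝ) ≤
        ((∏ p ∈ q.primeFactors, p ^ min (q.factorization p) (i * ee q m p) : ℕ) : ℝ) := by
      have h4 : (q : ℝ) ^ (i / m : ℝ) =
          ∏ p ∈ q.primeFactors, ((p : ℝ) ^ q.factorization p) ^ (i / m : ℝ) := by
        rw [Real.finset_prod_rpow _ _ (fun p _ => by positivity)]
        congr 1
        conv_lhs => rw [← hfac]
        push_cast
        rfl
      rw [h4]
      push_cast
      refine Finset.prod_le_prod (fun p _ => by positivity) fun p hp => ?_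
      have hp1 : (1 : ℝ) ≤ p := by exact_mod_cast (hpr p hp).one_lt.le
      rw [← Real.rpow_natCast, ← Real.rpow_natCast, ← Real.rpow_mul (by positivity)]
      apply Real.rpow_le_rpow_of_exponent_le hp1
      rw [Nat.cast_min]
      apply le_min
      · have : (i : ℝ) / m ≤ 1 := by
          rw [div_le_one hm0]
          exact_mod_cast hi
        have h5 : (0 : ℝ) ≤ q.factorization p := Nat.cast_nonneg _
        nlinarith
      · have h5 : (q.factorization p : ℝ) ≤ m * ee q m p := by exact_mod_cast le_m_ee q m p hm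
        push_cast
        rw [mul_div_assoc', div_le_iff₀ hm0]
        have hi0 : (0 : ℝ) ≤ i := Nat.cast_nonneg _
        calc (q.factorization p : ℝ) * i ≤ (m * ee q m p) * i := by gcongr
          _ = i * ee q m p * m := by ring
    exact h3.trans (by exact_mod_cast h2)
  refine ⟨D, by omega, hDq, ?_, ?_, ?_, ?_, ?_, hgcd, ?_⟩
  · intro p hp hpq
    exact (dvd_pow_self p (by have := ee_pos q m p; omega)).trans (hpD p (hmem p hp hpq))
  · intro h
    refine dvd_trans ?_ (hpD 2 (hmem 2 Nat.prime_two h))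
    exact (show (4 : ℕ) = 2 ^ 2 by norm_num) ▸ pow_dvd_pow 2 (ee_two q m)
  · have h1 := hgcd 1 hm
    rw [pow_one, Nat.gcd_eq_right hDq] at h1
    exact_mod_cast h1
  · have h4 : (q : ℝ) ^ (1 / m : ℝ) =
        ∏ p ∈ q.primeFactors, ((p : ℝ) ^ q.factorization p) ^ (1 / m : ℝ) := by
      rw [Real.finset_prod_rpow _ _ (fun p _ => by positivity)]
      congr 1
      conv_lhs => rw [← hfac]
      push_cast
      rfl
    have h5 : (D : ℝ) ≤ ∏ p ∈ q.primeFactors,
        ((((p : ℝ) ^ q.factorization p) ^ (1 / m : ℝ)) * p * (if p = 2 then 2 else 1)) := by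
      rw [hD]
      push_cast
      refine Finset.prod_le_prod (fun p _ => by positivity) fun p hp => ?_
      have hp1 : (1 : ℝ) ≤ p := by exact_mod_cast (hpr p hp).one_lt.le
      have hp0 : (0 : ℝ) < p := by linarith
      have h6 : ((((p : ℝ) ^ q.factorization p) ^ (1 / m : ℝ)) * p * (if p = 2 then 2 else 1)) =
          (p : ℝ) ^ ((q.factorization p / m + 1 + (if p = 2 then 1 else 0) : ℝ)) := by
        rw [Real.rpow_add hp0, Real.rpow_add hp0, Real.rpow_one, ← Real.rpow_natCast,
          ← Real.rpow_mul hp0.le, mul_one_div]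
        congr 1
        split_ifs with h
        · rw [h]
          norm_num
        · simp
      rw [h6, ← Real.rpow_natCast]
      exact Real.rpow_le_rpow_of_exponent_le hp1 (ee_real q m p hm)
    refine h5.trans ?_
    rw [Finset.prod_mul_distrib, Finset.prod_mul_distrib, ← h4]
    have h7 : ∏ p ∈ q.primeFactors, (if p = 2 then (2 : ℝ) else 1) ≤ 2 := by
      rw [Finset.prod_ite_eq']
      split_ifs <;> norm_num
    have h8 : ((∏ p ∈ q.primeFactors, (p : ℝ))) = (rad q : ℝ) := by
      unfold rad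
      push_cast
      rfl
    rw [h8]
    push_cast
    have h9 : (0 : ℝ) ≤ (q : ℝ) ^ (1 / m : ℝ) * rad q := by positivity
    calc (q : ℝ) ^ (1 / m : ℝ) * rad q * ∏ p ∈ q.primeFactors, (if p = 2 then (2 : ℝ) else 1)
        ≤ (q : ℝ) ^ (1 / m : ℝ) * rad q * 2 := by gcongr
      _ = 2 * rad q * (q : ℝ) ^ (1 / m : ℝ) := by ring
  · intro r p hr hp hpq
    have hpm := hmem p hp hpq
    have h1 := heD p hpm
    have h2 := le_m_ee q m p hm
    have h3 := ee_pos q m p
    haveI : Fact p.Prime := ⟨hp⟩
    have h4 := sub_one_mul_padicValNat_factorial (p := p) r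
    have h5 : r.factorial.factorization p = padicValNat p r.factorial :=
      Nat.factorization_def _ hp
    rw [h5]
    obtain ⟨v, hv⟩ : ∃ v : ℕ, v = padicValNat p r.factorial := ⟨_, rfl⟩
    obtain ⟨E, hE⟩ : ∃ E : ℕ, E = ee q m p := ⟨_, rfl⟩
    rw [← hv] at h4 ⊢
    rw [← hE] at h1 h2 h3
    have h6 : (r + 1) * E ≤ (r + 1) * D.factorization p := Nat.mul_le_mul_left _ h1
    have h7 : 2 * m * E ≤ (r + 1) * E := Nat.mul_le_mul_right _ hr
    have h8 : 2 * v ≤ (r + 1) * E := by
      rcases eq_or_ne p 2 with h | h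
      · have h9 : 2 ≤ E := by
          rw [hE, h]
          exact ee_two q m
        subst h
        have h10 : v ≤ r := by omega
        nlinarith
      · have h9 : 3 ≤ p := by
          have := hp.two_le
          omega
        have h10 : 2 * v ≤ (p - 1) * v := Nat.mul_le_mul_right _ (by omega)
        have h11 : 2 * v ≤ r := by omega
        nlinarith
    have h9 : 2 * m * E = 2 * (m * E) := by ring
    omega
  · conv_lhs => rw [← hfac]
    rw [hD, ← Finset.prod_pow]
    refine Finset.prod_dvd_prod_of_dvd _ _ fun p hp => ?_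
    rw [← pow_mul]
    exact pow_dvd_pow _ (by rw [mul_comm]; exact le_m_ee q m p hm)

end Pool.Agent.H980.PP
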