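import Pool.Agent.H567.PP.Stm

/-!
# Spaced points (task PP-5 of helper567)
-/

set_option autoImplicit false

namespace Pool.Agent.H79.PP

open Finset
open Pool.Agent.Y957.VK (TT WJ dz mn)
open Pool.Agent.H567.PP (S_WGAP)

/-- the distance to the nearest integer is minimal -/
lemma dz_le_abs (θ : ℝ) (n : ℤ) : dz θ ≤ |θ - n| := round_le θ n

lemma dz_le_half (θ : ℝ) : dz θ ≤ 1 / 2 := abs_sub_round θ

/-- the bound for `mn` -/
lemma mn_le_F {V k : ℕ} {θ δ : ℝ} (hδ : 0 < δ) (hk : k * δ ≤ dz θ) :
    mn V θ ≤ if k = 0 then 2 * (V : ℝ) + 1 else 1 / (2 * δ) * ((k : ℝ))⁻¹ := by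
  split_ifs with h
  · rw [mn]
    split_ifs
    · exact le_rfl
    · exact min_le_left _ _
  · have hk0 : 0 < (k : ℝ) := by
      have : 0 < k := Nat.pos_of_ne_zero h
      exact_mod_cast this
    have h1 : 0 < k * δ := mul_pos hk0 hδ
    have h2 : dz θ ≠ 0 := by
      intro h0
      rw [h0] at hk
      linarith
    rw [mn, if_neg h2]
    refine (min_le_right _ _).trans ?_
    rw [← one_div, one_div_mul_one_div_rev]
    apply one_div_le_one_div_of_le (by positivity)
    nlinarith

/-- one side of the integers -/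
lemma side {S : Finset ℤ} {a δ : ℝ} {V : ℕ} (hδ : 0 < δ) (hδ2 : δ ≤ 1 / 2) (e : ℤ → ℝ)
    (h0 : ∀ u ∈ S, 0 ≤ e u) (h1 : ∀ u ∈ S, e u = dz (a * u))
    (h2 : ∀ u ∈ S, ∀ v ∈ S, u < v → δ ≤ |e v - e u|) :
    ∑ u ∈ S, mn V (a * u) ≤ 2 * (V : ℝ) + 1 + 1 / (2 * δ) * (1 + Real.log (1 / δ)) := by
  classical
  set K : ℕ := ⌊1 / (2 * δ)⌋₊ with hK
  set κ : ℤ → ℕ := fun u => ⌊e u / δ⌋₊ with hκ
  have hκle : ∀ u ∈ S, (κ u : ℝ) * δ ≤ e u := by
    intro u hu
    have := Nat.floor_le (div_nonneg (h0 u hu) hδ.le)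
    rwa [le_div_iff₀ hδ] at this
  have hκlt : ∀ u ∈ S, e u < ((κ u : ℝ) + 1) * δ := by
    intro u hu
    have := Nat.lt_floor_add_one (e u / δ)
    rwa [div_lt_iff₀ hδ] at this
  have hinj : Set.InjOn κ S := by
    intro u hu v hv huv
    by_contra hne
    have key : ∀ x ∈ S, ∀ y ∈ S, κ x = κ y → x < y → False := by
      intro x hx y hy hxy hlt
      have h3 := h2 x hx y hy hlt
      have h4 := hκle x hx
      have h5 := hκle y hy
      have h6 := hκlt x hx
      have h7 := hκlt y hy
      rw [hxy] at h4 h6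
      have h8 : |e y - e x| < δ := by
        rw [abs_lt]
        constructor <;> nlinarith
      linarith
    rcases lt_or_gt_of_ne hne with h | h
    · exact key u hu v hv huv h
    · exact key v hv u hu huv.symm h
  have hmaps : ∀ u ∈ S, κ u ∈ range (K + 1) := by
    intro u hu
    rw [mem_range, Nat.lt_succ_iff, hK]
    apply Nat.floor_le_floor
    rw [div_le_div_iff₀ hδ (by positivity)]
    have := dz_le_half (a * u)
    rw [← h1 u hu] at this
    nlinarith
  have hF0 : ∀ k : ℕ, 0 ≤ (if k = 0 then 2 * (V : ℝ) + 1 else 1 / (2 * δ) * ((k : ℝ))⁻¹) := by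
    intro k
    split_ifs <;> positivity
  calc ∑ u ∈ S, mn V (a * u)
      ≤ ∑ u ∈ S, (if κ u = 0 then 2 * (V : ℝ) + 1 else 1 / (2 * δ) * ((κ u : ℝ))⁻¹) := by
        apply Finset.sum_le_sum
        intro u hu
        apply mn_le_F hδ
        rw [← h1 u hu]
        exact hκle u hu
    _ = ∑ k ∈ S.image κ, (if k = 0 then 2 * (V : ℝ) + 1 else 1 / (2 * δ) * ((k : ℝ))⁻¹) := by
        rw [Finset.sum_image hinj]
    _ ≤ ∑ k ∈ range (K + 1), (if k = 0 then 2 * (V : ℝ) + 1 else 1 / (2 * δ) * ((k : ℝ))⁻¹) := by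
        apply Finset.sum_le_sum_of_subset_of_nonneg
        · intro k hk
          rw [Finset.mem_image] at hk
          obtain ⟨u, hu, rfl⟩ := hk
          exact hmaps u hu
        · intro k _ _
          exact hF0 k
    _ = 2 * (V : ℝ) + 1 + 1 / (2 * δ) * (harmonic K : ℝ) := by
        rw [Finset.sum_range_succ', harmonic]
        simp only [Nat.add_eq_zero_iff, one_ne_zero, and_false, if_false, if_true]
        rw [← Finset.mul_sum, add_comm]
        push_cast
        rfl
    _ ≤ 2 * (V : ℝ) + 1 + 1 / (2 * δ) * (1 + Real.log (1 / δ)) := by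
        have hK1 : 1 ≤ K := by
          rw [hK, Nat.one_le_floor_iff, le_div_iff₀ (by positivity)]
          linarith
        have h3 := harmonic_le_one_add_log K
        have h4 : Real.log K ≤ Real.log (1 / δ) := by
          apply Real.log_le_log
          · exact_mod_cast hK1
          · have h5 : (K : ℝ) ≤ 1 / (2 * δ) := Nat.floor_le (by positivity)
            refine h5.trans ?_
            apply one_div_le_one_div_of_le hδ
            linarith
        have h6 : (harmonic K : ℝ) ≤ 1 + Real.log (1 / δ) := by linarith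
        have h7 := mul_le_mul_of_nonneg_left h6 (by positivity : 0 ≤ 1 / (2 * δ))
        linarith

/-- a spaced family -/
lemma spaced {S : Finset ℤ} {a δ : ℝ} {V : ℕ} (hδ : 0 < δ) (hδ2 : δ ≤ 1 / 2)
    (h : ∀ u ∈ S, ∀ v ∈ S, u < v → δ ≤ dz (a * (v - u))) :
    ∑ u ∈ S, mn V (a * u) ≤ 2 * (2 * (V : ℝ) + 1) + 1 / δ * (1 + Real.log (1 / δ)) := by
  classical
  set e : ℤ → ℝ := fun u => a * u - round (a * u) with he
  have hsep : ∀ u ∈ S, ∀ v ∈ S, u < v → δ ≤ |e v - e u| := by
    intro u hu v hv huv
    refine (h u hu v hv huv).trans ?_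
    refine (dz_le_abs (a * (v - u)) (round (a * v) - round (a * u))).trans (le_of_eq ?_)
    rw [he]
    push_cast
    congr 1
    ring
  have h1 := side (S := S.filter fun u => 0 ≤ e u) (a := a) (V := V) hδ hδ2 e
    (fun u hu => (mem_filter.1 hu).2)
    (fun u hu => by
      have := (mem_filter.1 hu).2
      rw [dz, ← abs_of_nonneg this])
    (fun u hu v hv huv => hsep u (mem_filter.1 hu).1 v (mem_filter.1 hv).1 huv)
  have h2 := side (S := S.filter fun u => ¬ 0 ≤ e u) (a := a) (V := V) hδ hδ2 (fun u => - e u)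
    (fun u hu => by
      have := (mem_filter.1 hu).2
      show 0 ≤ - e u
      linarith)
    (fun u hu => by
      have h3 := (mem_filter.1 hu).2
      show - e u = dz (a * u)
      rw [dz, ← abs_of_neg (not_le.1 h3)])
    (fun u hu v hv huv => by
      show δ ≤ |- e v - - e u|
      have := hsep u (mem_filter.1 hu).1 v (mem_filter.1 hv).1 huv
      rw [← abs_neg]
      refine this.trans (le_of_eq ?_)
      congr 1
      ring)
  rw [← Finset.sum_filter_add_sum_filter_not S (fun u => 0 ≤ e u)]
  have h3 : 1 / (2 * δ) * (1 + Real.log (1 / δ)) + 1 / (2 * δ) * (1 + Real.log (1 / δ)) =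
      1 / δ * (1 + Real.log (1 / δ)) := by
    field_simp
    ring
  linarith

theorem wgap : S_WGAP := by
  intro s M j Q P a δ hs hM hQ hP hδ hsp
  classical
  have hδ2 : δ ≤ 1 / 2 := (hsp 1 (by rw [mem_Icc]; exact ⟨le_rfl, hP⟩)).trans (dz_le_half _)
  set V : ℕ := s * M ^ j with hV
  have hVr : (s : ℝ) * (M : ℝ) ^ j = (V : ℝ) := by
    rw [hV]
    push_cast
    ring
  rw [hVr, WJ, ← hV]
  set T : ℝ := 2 * (2 * (V : ℝ) + 1) + 1 / δ * (1 + Real.log (1 / δ)) with hT
  have hlog : 0 ≤ Real.log (1 / δ) := by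
    apply Real.log_nonneg
    rw [le_div_iff₀ hδ]
    linarith
  have hT0 : 0 ≤ T := by
    rw [hT]
    positivity
  -- the block of an integer
  set n : ℤ → ℕ := fun u => (u + V).toNat with hn
  set bl : ℤ → ℕ × ℕ := fun u => (n u % Q, n u / Q / P) with hbl
  set I : Finset ℤ := Icc (-(V : ℤ)) (V : ℤ) with hI
  set B : Finset (ℕ × ℕ) := range Q ×ˢ range (2 * V / Q / P + 1) with hB
  have hmap : ∀ u ∈ I, bl u ∈ B := by
    intro u hu
    rw [hI, mem_Icc] at hu
    rw [hB, mem_product, mem_range, mem_range, Nat.lt_succ_iff]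
    refine ⟨Nat.mod_lt _ hQ, ?_⟩
    apply Nat.div_le_div_right
    apply Nat.div_le_div_right
    show (u + V).toNat ≤ 2 * V
    omega
  have hcard : (B.card : ℝ) ≤ 2 * V / P + 2 * Q := by
    rw [hB, card_product, card_range, card_range]
    push_cast
    have hQ0 : (0 : ℝ) < Q := by exact_mod_cast hQ
    have hP0 : (0 : ℝ) < P := by exact_mod_cast hP
    have h1 : ((2 * V / Q / P : ℕ) : ℝ) ≤ 2 * V / Q / P := by
      refine Nat.cast_div_le.trans ?_
      apply div_le_div_of_nonneg_right _ hP0.le
      refine Nat.cast_div_le.trans ?_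
      push_cast
      exact le_rfl
    calc (Q : ℝ) * (((2 * V / Q / P : ℕ) : ℝ) + 1) ≤ Q * (2 * V / Q / P + 1) := by
          apply mul_le_mul_of_nonneg_left _ hQ0.le
          linarith
      _ = 2 * V / P + Q := by
          field_simp
      _ ≤ 2 * V / P + 2 * Q := by linarith
  rw [← Finset.sum_fiberwise_of_maps_to hmap]
  calc ∑ b ∈ B, ∑ u ∈ I with bl u = b, mn V (a * u)
      ≤ ∑ b ∈ B, T := by
        apply Finset.sum_le_sum
        intro b _
        apply spaced hδ hδ2
        intro u hu v hv huv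
        rw [mem_filter, hI, mem_Icc] at hu hv
        have hnu : (n u : ℤ) = u + V := by
          show ((u + V).toNat : ℤ) = u + V
          omega
        have hnv : (n v : ℤ) = v + V := by
          show ((v + V).toNat : ℤ) = v + V
          omega
        have hb : bl u = bl v := hu.2.trans hv.2.symm
        have hb1 : n u % Q = n v % Q := congrArg Prod.fst hb
        have hb2 : n u / Q / P = n v / Q / P := congrArg Prod.snd hb
        have hlt : n u < n v := by omega
        have hdu := Nat.div_add_mod (n u) Q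
        have hdv := Nat.div_add_mod (n v) Q
        set mu := n u / Q with hmu
        set mv := n v / Q with hmv
        have hm : mu < mv := by
          by_contra hcon
          have : Q * mv ≤ Q * mu := Nat.mul_le_mul_left _ (not_lt.1 hcon)
          omega
        have hmP : mv - mu ≤ P := by
          have h3 := Nat.div_add_mod mu P
          have h4 := Nat.div_add_mod mv P
          have h5 := Nat.mod_lt mu hP
          have h6 := Nat.mod_lt mv hP
          rw [hb2] at h3
          omega
        have hl := hsp (mv - mu) (by rw [mem_Icc]; omega)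
        have heq : (v : ℝ) - u = Q * ((mv - mu : ℕ) : ℝ) := by
          have h7 : (n v : ℝ) - n u = Q * ((mv - mu : ℕ) : ℝ) := by
            rw [Nat.cast_sub hm.le, ← hdu, ← hdv, hb1]
            push_cast
            ring
          have h8 : (n v : ℝ) = v + V := by exact_mod_cast hnv
          have h9 : (n u : ℝ) = u + V := by exact_mod_cast hnu
          rw [h8, h9] at h7
          linarith
        rw [heq, ← mul_assoc]
        exact hl
    _ = B.card * T := by rw [sum_const, nsmul_eq_mul]
    _ ≤ (2 * V / P + 2 * Q) * T := mul_le_mul_of_nonneg_right hcard hT0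

end Pool.Agent.H79.PP
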