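import Pool.Agent.H567.PP.Stm

/-!
PP-6: one of the coefficients is good.
-/

set_option autoImplicit false

namespace Pool.Agent.H707.PP

open Finset
open Pool.Agent.Y957.VK (WJ dz)
open Pool.Agent.H567.PP

theorem dz_frac {b : ℤ} {Q l : ℕ} (hQ : 1 ≤ Q) (hb : IsCoprime b (Q : ℤ)) (hl : 1 ≤ l)
    (hlQ : l < Q) (x : ℝ) : 1 / (Q : ℝ) - |x| ≤ dz ((b : ℝ) * l / Q + x) := by
  unfold dz
  generalize round ((b : ℝ) * l / Q + x) = k
  have hQ0 : (0 : ℝ) < Q := by exact_mod_cast (by omega : 0 < Q)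
  have h1 : b * l - k * Q ≠ 0 := by
    intro h
    have h2 : (Q : ℤ) ∣ b * l := ⟨k, by linarith [mul_comm (Q : ℤ) k]⟩
    have h3 : (Q : ℤ) ∣ (l : ℤ) := hb.symm.dvd_of_dvd_mul_left h2
    have h4 := Int.natCast_dvd_natCast.1 h3
    exact absurd (Nat.le_of_dvd hl h4) (not_le.2 hlQ)
  have h2 : (1 : ℝ) ≤ |((b * l - k * Q : ℤ) : ℝ)| := by
    rw [← Int.cast_abs]
    exact_mod_cast Int.one_le_abs h1
  have h3 : |(b : ℝ) * l / Q - k| = |((b * l - k * Q : ℤ) : ℝ)| / Q := by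
    rw [← abs_of_pos hQ0, ← abs_div, abs_of_pos hQ0]
    congr 1
    push_cast
    field_simp
  have h4 : 1 / (Q : ℝ) ≤ |(b : ℝ) * l / Q - k| := by
    rw [h3]
    exact div_le_div_of_nonneg_right h2 hQ0.le
  have h5 : |(b : ℝ) * l / Q - k| ≤ |(b : ℝ) * l / Q + x - k| + |x| := by
    have h6 : (b : ℝ) * l / Q - k = ((b : ℝ) * l / Q + x - k) - x := by ring
    rw [h6]
    exact abs_sub _ _
  linarith

theorem dz_small (k : ℤ) {x : ℝ} (hx : |x| ≤ 1 / 2) : |x| ≤ dz (k + x) := by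
  unfold dz
  generalize round ((k : ℝ) + x) = j
  by_cases h : j = k
  · rw [h, add_sub_cancel_left]
  · have h1 : (1 : ℝ) ≤ |((j - k : ℤ) : ℝ)| := by
      rw [← Int.cast_abs]
      exact_mod_cast Int.one_le_abs (sub_ne_zero.2 h)
    have h2 : |((j - k : ℤ) : ℝ)| ≤ |(k : ℝ) + x - j| + |x| := by
      have h3 : ((j - k : ℤ) : ℝ) = -((k : ℝ) + x - j) + x := by
        push_cast
        ring
      rw [h3]
      refine (abs_add_le _ _).trans ?_
      rw [abs_neg]
    linarith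

/-- a floor is at least half of the number -/
theorem half_le_floor {x : ℝ} (hx : 1 ≤ x) : x / 2 ≤ (⌊x⌋₊ : ℝ) := by
  have h1 := Nat.lt_floor_add_one x
  have h2 : (1 : ℝ) ≤ (⌊x⌋₊ : ℝ) := by
    exact_mod_cast Nat.one_le_floor_iff x |>.2 hx
  linarith

theorem final_step {L s Mi r w A B : ℝ} (hL0 : 0 < L) (hs : 0 ≤ s) (hMi : 0 ≤ Mi) (hr : 0 ≤ r)
    (hsr : 100 * s ^ 2 * r * (1 + L) ≤ Real.exp (L * (1 / 1000))) (hw : w ≤ A * B) (hA : 0 ≤ A)
    (hA' : A ≤ 6 * (s * Mi) * Real.exp (-(L * (1 / 100))))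
    (hB' : B ≤ 8 * (s * Mi) * (r * (1 + L))) : w ≤ Mi * Mi * Real.exp (L * -(1 / 200)) := by
  have hB0 : 0 ≤ 8 * (s * Mi) * (r * (1 + L)) := by positivity
  have h1 : A * B ≤ 6 * (s * Mi) * Real.exp (-(L * (1 / 100))) *
      (8 * (s * Mi) * (r * (1 + L))) :=
    (mul_le_mul_of_nonneg_left hB' hA).trans (mul_le_mul_of_nonneg_right hA' hB0)
  refine hw.trans (h1.trans ?_)
  have h2 : 48 * (s ^ 2 * r * (1 + L)) ≤ 100 * s ^ 2 * r * (1 + L) := by
    have h3 : 0 ≤ s ^ 2 * r * (1 + L) := by positivity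
    linarith
  calc 6 * (s * Mi) * Real.exp (-(L * (1 / 100))) * (8 * (s * Mi) * (r * (1 + L)))
      = Mi * Mi * (48 * (s ^ 2 * r * (1 + L)) * Real.exp (-(L * (1 / 100)))) := by ring
    _ ≤ Mi * Mi * (Real.exp (L * (1 / 1000)) * Real.exp (-(L * (1 / 100)))) := by
        refine mul_le_mul_of_nonneg_left ?_ (by positivity)
        exact mul_le_mul_of_nonneg_right (h2.trans hsr) (Real.exp_pos _).le
    _ ≤ Mi * Mi * Real.exp (L * -(1 / 200)) := by
        refine mul_le_mul_of_nonneg_left ?_ (by positivity)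
        rw [← Real.exp_add, Real.exp_le_exp]
        linarith

theorem first_factor {L s Mi r P q' i : ℝ} (hL0 : 0 < L) (hs : 1 ≤ s) (hi : 1 ≤ i)
    (hMi : Real.exp (L * (2 / 5 * i - 1 / 1000)) ≤ Mi) (hP0 : 0 < P)
    (hP2 : Real.exp (L * (1 / 100)) / 2 ≤ P) (hrN : 100 * r ≤ Real.exp (L * (1 / 1000)))
    (hr : 0 ≤ r) (hq' : q' ≤ r) :
    2 * (s * Mi) / P + 2 * q' ≤ 6 * (s * Mi) * Real.exp (-(L * (1 / 100))) := by
  have hMi0 : 0 < Mi := (Real.exp_pos _).trans_le hMi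
  have hH : Mi ≤ s * Mi := by nlinarith
  have h1 : 2 * (s * Mi) / P ≤ 4 * (s * Mi) * Real.exp (-(L * (1 / 100))) := by
    rw [div_le_iff₀ hP0]
    have h2 : 4 * (s * Mi) * Real.exp (-(L * (1 / 100))) *
        (Real.exp (L * (1 / 100)) / 2) ≤
        4 * (s * Mi) * Real.exp (-(L * (1 / 100))) * P :=
      mul_le_mul_of_nonneg_left hP2 (by positivity)
    have h3 : 4 * (s * Mi) * Real.exp (-(L * (1 / 100))) *
        (Real.exp (L * (1 / 100)) / 2) = 2 * (s * Mi) := by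
      have h4 : Real.exp (-(L * (1 / 100))) * Real.exp (L * (1 / 100)) = 1 := by
        rw [← Real.exp_add, neg_add_cancel, Real.exp_zero]
      linear_combination 2 * (s * Mi) * h4
    linarith
  have h2 : 2 * q' ≤ 2 * (s * Mi) * Real.exp (-(L * (1 / 100))) := by
    have h3 : 2 * q' ≤ 2 * Real.exp (L * (1 / 1000)) := by linarith
    have h4 : Real.exp (L * (1 / 1000)) ≤
        Real.exp (L * (2 / 5 * i - 1 / 1000)) * Real.exp (-(L * (1 / 100))) := by
      rw [← Real.exp_add, Real.exp_le_exp]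
      have h5 : L * 1 ≤ L * i := mul_le_mul_of_nonneg_left hi hL0.le
      nlinarith
    have h5 : Real.exp (L * (2 / 5 * i - 1 / 1000)) * Real.exp (-(L * (1 / 100))) ≤
        s * Mi * Real.exp (-(L * (1 / 100))) :=
      mul_le_mul_of_nonneg_right (hMi.trans hH) (Real.exp_pos _).le
    linarith
  linarith

theorem second_factor {L s Mi r x : ℝ} (hL0 : 0 < L) (hs : 1 ≤ s) (hMi : 1 ≤ Mi) (hr : 1 ≤ r)
    (hx : x ≤ 2 * Mi * (r * (1 + L))) :
    2 * (2 * (s * Mi) + 1) + x ≤ 8 * (s * Mi) * (r * (1 + L)) := by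
  have hH : Mi ≤ s * Mi := by nlinarith
  have hH1 : 1 ≤ s * Mi := hMi.trans hH
  have hrL : 1 ≤ r * (1 + L) := by nlinarith
  have h0 : s * Mi * 1 ≤ s * Mi * (r * (1 + L)) := mul_le_mul_of_nonneg_left hrL (by linarith)
  have h1 : 2 * (2 * (s * Mi) + 1) ≤ 6 * (s * Mi) * (r * (1 + L)) := by linarith
  have h2 : 2 * Mi * (r * (1 + L)) ≤ 2 * (s * Mi) * (r * (1 + L)) := by
    refine mul_le_mul_of_nonneg_right ?_ (by linarith)
    linarith
  linarith

theorem delta_factor {L Mi r i δ : ℝ} (hL0 : 0 < L) (hδ : 0 < δ) (hMi : 1 ≤ Mi) (hir : i ≤ r)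
    (hr : 125 ≤ r) (hlog : Real.log Mi ≤ 2 / 5 * (i * L)) (h : 1 / δ ≤ 2 * Mi) :
    1 / δ * (1 + Real.log (1 / δ)) ≤ 2 * Mi * (r * (1 + L)) := by
  have hpos : 0 < 1 / δ := one_div_pos.2 hδ
  have h1 : Real.log (1 / δ) ≤ Real.log 2 + Real.log Mi := by
    rw [← Real.log_mul (by norm_num) (by linarith)]
    exact Real.log_le_log hpos h
  have h2 : Real.log 2 < 1 := by
    have := Real.log_two_lt_d9
    linarith
  have h3 : i * L ≤ r * L := mul_le_mul_of_nonneg_right hir hL0.le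
  have h4 : 0 ≤ r * L := by positivity
  have h5 : 1 + Real.log (1 / δ) ≤ r * (1 + L) := by linarith
  calc 1 / δ * (1 + Real.log (1 / δ)) ≤ 1 / δ * (r * (1 + L)) :=
        mul_le_mul_of_nonneg_left h5 hpos.le
    _ ≤ 2 * Mi * (r * (1 + L)) := mul_le_mul_of_nonneg_right h (by positivity)

/-- the size of the coefficient, upper bound -/
theorem beta_le {L c a m T : ℝ} {N n D i : ℕ} {t : ℝ} (hi : 1 ≤ i) (hNe : (N : ℝ) = Real.exp L)
    (hn : (N : ℝ) ≤ n) (htT : |t| ≤ T) (hTe : T = Real.exp (L * c))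
    (hD : (D : ℝ) ^ i ≤ Real.exp (L * (1 / 1000) + L * a * (i / m))) :
    |(-1) ^ i * t * (D : ℝ) ^ i / (2 * Real.pi * i * (n : ℝ) ^ i)| * (2 * Real.pi * i) ≤
      Real.exp (L * (c + 1 / 1000 + a * (i / m) - i)) := by
  have hi0 : (0 : ℝ) < i := by exact_mod_cast hi
  have hpi := Real.pi_pos
  have hN0 : (0 : ℝ) < N := hNe ▸ Real.exp_pos L
  have hn0 : (0 : ℝ) < n := hN0.trans_le hn
  have h1 : |(-1) ^ i * t * (D : ℝ) ^ i / (2 * Real.pi * i * (n : ℝ) ^ i)| * (2 * Real.pi * i) =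
      |t| * (D : ℝ) ^ i / (n : ℝ) ^ i := by
    rw [abs_div, abs_mul, abs_mul, abs_pow, abs_neg, abs_one, one_pow, one_mul,
      abs_of_nonneg (by positivity : (0 : ℝ) ≤ (D : ℝ) ^ i),
      abs_of_pos (by positivity : (0 : ℝ) < 2 * Real.pi * i * (n : ℝ) ^ i)]
    field_simp
  rw [h1]
  have h2 : |t| * (D : ℝ) ^ i ≤ Real.exp (L * c) * Real.exp (L * (1 / 1000) + L * a * (i / m)) :=
    mul_le_mul (hTe ▸ htT) hD (by positivity) (Real.exp_pos _).le
  have h3 : Real.exp (L * i) ≤ (n : ℝ) ^ i := by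
    have h4 : Real.exp (L * i) = (N : ℝ) ^ i := by
      rw [hNe, ← Real.exp_nat_mul, mul_comm]
    rw [h4]
    exact pow_le_pow_left₀ hN0.le hn i
  calc |t| * (D : ℝ) ^ i / (n : ℝ) ^ i
      ≤ Real.exp (L * c) * Real.exp (L * (1 / 1000) + L * a * (i / m)) / Real.exp (L * i) :=
        div_le_div₀ (by positivity) h2 (Real.exp_pos _) h3
    _ = Real.exp (L * (c + 1 / 1000 + a * (i / m) - i)) := by
        rw [← Real.exp_add, ← Real.exp_sub]
        congr 1
        ring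

/-- the size of the coefficient, lower bound -/
theorem beta_ge {L c r : ℝ} {N n D i : ℕ} {t : ℝ} (hi : 1 ≤ i) (hir : (i : ℝ) ≤ r)
    (hNe : (N : ℝ) = Real.exp L) (hn0 : (0 : ℝ) < n) (hn : (n : ℝ) ≤ 2 * N)
    (htT : |t| = Real.exp (L * c)) (hD : (1 : ℝ) ≤ D)
    (h2 : (2 : ℝ) ^ i ≤ Real.exp (L * (1 / 1000)))
    (hrN : 100 * r ≤ Real.exp (L * (1 / 1000))) :
    0 < |(-1) ^ i * t * (D : ℝ) ^ i / (2 * Real.pi * i * (n : ℝ) ^ i)| ∧
    1 / |(-1) ^ i * t * (D : ℝ) ^ i / (2 * Real.pi * i * (n : ℝ) ^ i)| ≤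
      Real.exp (L * (i - c + 2 / 1000)) := by
  have hi0 : (0 : ℝ) < i := by exact_mod_cast hi
  have hpi := Real.pi_pos
  have hpi4 := Real.pi_le_four
  have hDi : (1 : ℝ) ≤ (D : ℝ) ^ i := one_le_pow₀ hD
  have htp : 0 < |t| := htT ▸ Real.exp_pos _
  have h1 : |(-1) ^ i * t * (D : ℝ) ^ i / (2 * Real.pi * i * (n : ℝ) ^ i)| =
      |t| * (D : ℝ) ^ i / (2 * Real.pi * i * (n : ℝ) ^ i) := by
    rw [abs_div, abs_mul, abs_mul, abs_pow, abs_neg, abs_one, one_pow, one_mul,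
      abs_of_nonneg (by positivity : (0 : ℝ) ≤ (D : ℝ) ^ i),
      abs_of_pos (by positivity : (0 : ℝ) < 2 * Real.pi * i * (n : ℝ) ^ i)]
  rw [h1]
  refine ⟨by positivity, ?_⟩
  rw [one_div_div]
  have h3 : (n : ℝ) ^ i ≤ Real.exp (L * (1 / 1000)) * Real.exp (L * i) := by
    have h4 : Real.exp (L * i) = (N : ℝ) ^ i := by
      rw [hNe, ← Real.exp_nat_mul, mul_comm]
    rw [h4]
    calc (n : ℝ) ^ i ≤ (2 * (N : ℝ)) ^ i := pow_le_pow_left₀ hn0.le hn i
      _ = 2 ^ i * (N : ℝ) ^ i := mul_pow _ _ _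
      _ ≤ Real.exp (L * (1 / 1000)) * (N : ℝ) ^ i :=
          mul_le_mul_of_nonneg_right h2 (by positivity)
  have h5 : 2 * Real.pi * i ≤ Real.exp (L * (1 / 1000)) := by
    have h6 : 2 * Real.pi * i ≤ 2 * 4 * i :=
      mul_le_mul_of_nonneg_right (by linarith) hi0.le
    linarith
  have h7 : 2 * Real.pi * i * (n : ℝ) ^ i ≤
      Real.exp (L * (1 / 1000)) * (Real.exp (L * (1 / 1000)) * Real.exp (L * i)) :=
    mul_le_mul h5 h3 (by positivity) (Real.exp_pos _).le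
  have h8 : Real.exp (L * c) ≤ |t| * (D : ℝ) ^ i := by
    rw [htT]
    exact le_mul_of_one_le_right (Real.exp_pos _).le hDi
  calc 2 * Real.pi * i * (n : ℝ) ^ i / (|t| * (D : ℝ) ^ i)
      ≤ Real.exp (L * (1 / 1000)) * (Real.exp (L * (1 / 1000)) * Real.exp (L * i)) /
          Real.exp (L * c) := div_le_div₀ (by positivity) h7 (Real.exp_pos _) h8
    _ = Real.exp (L * (i - c + 2 / 1000)) := by
        rw [← Real.exp_add, ← Real.exp_add, ← Real.exp_sub]
        congr 1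
        ring

/-- the choice of the index if `t` is small -/
theorem index_small {a c m r : ℝ} (ha : 1 / 4 ≤ a) (hc0 : 0 ≤ c) (hc : c ≤ 30 * a)
    (hm : 40 * a ≤ m) (hr : 100 * (a + c + 1) ≤ r) : ∃ i : ℕ, 1 ≤ i ∧ (i : ℝ) ≤ r ∧ (i : ℝ) ≤ m ∧
      c + a + 11 / 1000 ≤ i ∧ 3 * a ≤ i ∧ 12 / 1000 ≤ a * (1 - i / m) := by
  have hlo : 0 ≤ max (c + a + 11 / 1000) (3 * a) := le_max_of_le_right (by linarith)
  have h1 := Nat.le_ceil (max (c + a + 11 / 1000) (3 * a))
  have h2 := Nat.ceil_lt_add_one hlo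
  have h3 : max (c + a + 11 / 1000) (3 * a) ≤ 31 * a + 11 / 1000 :=
    max_le (by linarith) (by linarith)
  have h4 := (le_max_left (c + a + 11 / 1000) (3 * a)).trans h1
  have h5 := (le_max_right (c + a + 11 / 1000) (3 * a)).trans h1
  generalize ⌈max (c + a + 11 / 1000) (3 * a)⌉₊ = i at *
  have hm0 : 0 < m := by linarith
  have hi1 : 1 ≤ i := by
    rcases Nat.eq_zero_or_pos i with h0 | h0
    · rw [h0] at h5
      push_cast at h5
      linarith
    · exact h0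
  have hi : (i : ℝ) ≤ 31 * a + 1011 / 1000 := by linarith
  refine ⟨i, hi1, by linarith, by linarith, h4, h5, ?_⟩
  have h6 : a * (1 - i / m) = a * (m - i) / m := by
    field_simp
  rw [h6, le_div_iff₀ hm0]
  nlinarith [mul_le_mul_of_nonneg_left hm (by linarith : (0 : ℝ) ≤ a - 12 / 1000),
    mul_le_mul_of_nonneg_left hi (by linarith : (0 : ℝ) ≤ a)]

/-- the choice of the index if `t` is large -/
theorem index_large {a c m r : ℝ} (ha : 1 / 4 ≤ a) (hc : 30 * a < c)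
    (hm : 40 * a ≤ m) (hm' : m < 40 * a + 1) (hr : 100 * (a + c + 1) ≤ r) :
    ∃ i : ℕ, 1 ≤ i ∧ (i : ℝ) ≤ r ∧ m ≤ (i : ℝ) ∧
      40 / 39 * (c + 11 / 1000) ≤ i ∧ 601 / 1000 * (i : ℝ) ≤ c := by
  have hlo : 0 ≤ max m (40 / 39 * (c + 11 / 1000)) := le_max_of_le_left (by linarith)
  have h1 := Nat.le_ceil (max m (40 / 39 * (c + 11 / 1000)))
  have h2 := Nat.ceil_lt_add_one hlo
  have h3 : 601 / 1000 * (max m (40 / 39 * (c + 11 / 1000)) + 1) ≤ c := by
    rcases max_choice m (40 / 39 * (c + 11 / 1000)) with h | h <;> rw [h] <;> linarith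
  have h4 := (le_max_left m (40 / 39 * (c + 11 / 1000))).trans h1
  have h5 := (le_max_right m (40 / 39 * (c + 11 / 1000))).trans h1
  generalize ⌈max m (40 / 39 * (c + 11 / 1000))⌉₊ = i at *
  have hi1 : 1 ≤ i := by
    rcases Nat.eq_zero_or_pos i with h0 | h0
    · rw [h0] at h4
      push_cast at h4
      linarith
    · exact h0
  have hi : 601 / 1000 * (i : ℝ) ≤ c := by linarith
  exact ⟨i, hi1, by linarith, h4, h5, hi⟩

theorem idx (hW : S_WGAP) : S_IDX := by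
  intro N n s r m M D q R t b Q hN hn hs hq hm hr hM hD1 hD2 hR hRr hsr hQ
  rw [Finset.mem_Icc] at hn
  have hN2 : (2 : ℝ) ≤ N := by exact_mod_cast hN
  have hN0 : (0 : ℝ) < N := by linarith
  have hnN : (N : ℝ) ≤ n := by exact_mod_cast hn.1
  have hn2 : (n : ℝ) ≤ 2 * N := by exact_mod_cast hn.2
  have hn0 : (0 : ℝ) < n := by linarith
  have hs1 : (1 : ℝ) ≤ s := by exact_mod_cast hs
  obtain ⟨L, hL⟩ : ∃ L, L = Real.log N := ⟨_, rfl⟩
  have hL0 : 0 < L := by
    rw [hL]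
    exact Real.log_pos (by linarith)
  have hNe : (N : ℝ) = Real.exp L := by rw [hL, Real.exp_log hN0]
  have hNp : ∀ x : ℝ, (N : ℝ) ^ x = Real.exp (L * x) := fun x => by
    rw [Real.rpow_def_of_pos hN0, hL]
  rw [← hL] at hm hr hsr
  rw [hNp] at hq hM hRr hsr
  have hq0 : (0 : ℝ) < q := (Real.exp_pos _).trans_le hq
  obtain ⟨a, ha⟩ : ∃ a, a = Real.log q / L := ⟨_, rfl⟩
  have haL : Real.log q = L * a := by
    rw [ha, mul_div_cancel₀ _ hL0.ne']
  have hqp : ∀ x : ℝ, (q : ℝ) ^ x = Real.exp (L * a * x) := fun x => by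
    rw [Real.rpow_def_of_pos hq0, haL]
  have hqe : (q : ℝ) = Real.exp (L * a) := by rw [← haL, Real.exp_log hq0]
  have ha4 : 1 / 4 ≤ a := by
    rw [hqe, Real.exp_le_exp] at hq
    exact le_of_mul_le_mul_left hq hL0
  obtain ⟨T, hT⟩ : ∃ T, T = max |t| 1 := ⟨_, rfl⟩
  have hT1 : 1 ≤ T := hT ▸ le_max_right _ _
  have htT : |t| ≤ T := hT ▸ le_max_left _ _
  obtain ⟨c, hc⟩ : ∃ c, c = Real.log T / L := ⟨_, rfl⟩
  have hcL : Real.log T = L * c := by
    rw [hc, mul_div_cancel₀ _ hL0.ne']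
  have hTe : T = Real.exp (L * c) := by rw [← hcL, Real.exp_log (by linarith)]
  have hc0 : 0 ≤ c := by
    rw [hc]
    exact div_nonneg (Real.log_nonneg hT1) hL0.le
  -- the parameters `m` and `r`
  have hm40 : 40 * a ≤ m := by
    rw [hm, ha]
    have h1 := Nat.le_ceil (40 * Real.log q / L)
    rw [mul_div_assoc] at h1 ⊢
    exact h1
  have hm41 : (m : ℝ) < 40 * a + 1 := by
    have h2 : (0 : ℝ) ≤ 40 * Real.log q / L := by
      rw [mul_div_assoc, ← ha]
      linarith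
    have h1 := Nat.ceil_lt_add_one h2
    rw [← hm, mul_div_assoc, ← ha] at h1
    exact h1
  have hm10 : (10 : ℝ) ≤ m := by linarith
  have hm0 : (0 : ℝ) < m := by linarith
  have hr1 : 100 * (a + c + 1) ≤ r := by
    have h1 := Nat.le_ceil (100 * ((Real.log q + Real.log T) / L + 1))
    rw [hT, ← hr, ← hT, haL, hcL, ← mul_add, mul_div_cancel_left₀ _ hL0.ne'] at h1
    exact h1
  have hr125 : (125 : ℝ) ≤ r := by linarith
  -- the size of `N`
  have hr0 : (0 : ℝ) ≤ r := by linarith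
  have hrN : 100 * (r : ℝ) ≤ Real.exp (L * (1 / 1000)) := by
    refine le_trans ?_ hsr
    have h1 : (1 : ℝ) ≤ (s : ℝ) ^ 2 := one_le_pow₀ hs1
    have h2 : 100 * (r : ℝ) * 1 ≤ 100 * r * ((s : ℝ) ^ 2 * (1 + L)) := by
      refine mul_le_mul_of_nonneg_left ?_ (by positivity)
      nlinarith
    calc 100 * (r : ℝ) = 100 * r * 1 := by ring
      _ ≤ 100 * r * ((s : ℝ) ^ 2 * (1 + L)) := h2
      _ = _ := by ring
  -- floors
  have hM1 : (M : ℝ) ≤ Real.exp (L * (2 / 5)) := by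
    rw [hM]
    exact Nat.floor_le (Real.exp_pos _).le
  have hM2 : Real.exp (L * (2 / 5)) / 2 ≤ M := by
    rw [hM]
    exact half_le_floor (Real.one_le_exp (by positivity))
  have hMn : 1 ≤ M := by
    rw [hM]
    exact (Nat.one_le_floor_iff _).2 (Real.one_le_exp (by positivity))
  have hM0 : (1 : ℝ) ≤ M := by exact_mod_cast hMn
  obtain ⟨P, hP⟩ : ∃ P : ℕ, P = ⌊Real.exp (L * (1 / 100))⌋₊ := ⟨_, rfl⟩
  have hP1 : (P : ℝ) ≤ Real.exp (L * (1 / 100)) := by
    rw [hP]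
    exact Nat.floor_le (Real.exp_pos _).le
  have hP2 : Real.exp (L * (1 / 100)) / 2 ≤ P := by
    rw [hP]
    exact half_le_floor (Real.one_le_exp (by positivity))
  have hPn : 1 ≤ P := by
    rw [hP]
    exact (Nat.one_le_floor_iff _).2 (Real.one_le_exp (by positivity))
  have hP0 : (0 : ℝ) < P := by exact_mod_cast (by omega : 0 < P)
  -- powers
  have hRi : ∀ i : ℕ, i ≤ r → (R : ℝ) ^ i ≤ Real.exp (L * (1 / 1000)) := by
    intro i hi
    refine le_trans ?_ hRr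
    exact pow_le_pow_right₀ (by exact_mod_cast (by omega : 1 ≤ R)) hi
  have h2i : ∀ i : ℕ, i ≤ r → (2 : ℝ) ^ i ≤ Real.exp (L * (1 / 1000)) := by
    intro i hi
    refine le_trans ?_ (hRi i hi)
    exact pow_le_pow_left₀ (by norm_num) (by exact_mod_cast hR) i
  have hDq : ∀ i : ℕ, i ≤ r → (D : ℝ) ^ i ≤ Real.exp (L * (1 / 1000) + L * a * (i / m)) := by
    intro i hi
    rw [hqp] at hD2
    have h1 : (D : ℝ) ^ i ≤ (R * Real.exp (L * a * (1 / m))) ^ i :=
      pow_le_pow_left₀ (Nat.cast_nonneg _) hD2 i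
    refine h1.trans ?_
    rw [mul_pow, Real.exp_add, ← Real.exp_nat_mul]
    have h2 : (i : ℝ) * (L * a * (1 / m)) = L * a * (i / m) := by ring
    rw [h2]
    exact mul_le_mul_of_nonneg_right (hRi i hi) (Real.exp_pos _).le
  have hD0 : (1 : ℝ) ≤ D := by
    refine le_trans ?_ hD1
    rw [hqp]
    exact Real.one_le_exp (by positivity)
  have hMi : ∀ i : ℕ, i ≤ r → Real.exp (L * (2 / 5 * i - 1 / 1000)) ≤ (M : ℝ) ^ i := by
    intro i hi
    have h1 : (Real.exp (L * (2 / 5)) / 2) ^ i ≤ (M : ℝ) ^ i :=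
      pow_le_pow_left₀ (by positivity) hM2 i
    refine le_trans ?_ h1
    rw [div_pow, ← Real.exp_nat_mul, le_div_iff₀ (by positivity)]
    calc Real.exp (L * (2 / 5 * i - 1 / 1000)) * 2 ^ i
        ≤ Real.exp (L * (2 / 5 * i - 1 / 1000)) * Real.exp (L * (1 / 1000)) :=
          mul_le_mul_of_nonneg_left (h2i i hi) (Real.exp_pos _).le
      _ = Real.exp (i * (L * (2 / 5))) := by
          rw [← Real.exp_add]
          congr 1
          ring
  have hMi2 : ∀ i : ℕ, Real.log ((M : ℝ) ^ i) ≤ 2 / 5 * (i * L) := by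
    intro i
    rw [Real.log_pow]
    have h1 : Real.log M ≤ L * (2 / 5) := by
      rw [← Real.log_exp (L * (2 / 5))]
      exact Real.log_le_log (by linarith) hM1
    have h2 : (i : ℝ) * Real.log M ≤ i * (L * (2 / 5)) :=
      mul_le_mul_of_nonneg_left h1 (Nat.cast_nonneg _)
    linarith
  have hQr : ∀ i : ℕ, i ≤ r → (i : ℝ) ≤ Real.exp (L * (1 / 1000)) := by
    intro i hi
    have h1 : (i : ℝ) ≤ r := by exact_mod_cast hi
    linarith
  -- the last step
  have hend : ∀ (i q' : ℕ) (δ x : ℝ), 1 ≤ i → i ≤ r → (q' : ℝ) ≤ r → 0 < δ →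
      1 / δ ≤ 2 * (M : ℝ) ^ i →
      WJ s M i x ≤ (2 * (s * (M : ℝ) ^ i) / P + 2 * q') *
        (2 * (2 * (s * (M : ℝ) ^ i) + 1) + 1 / δ * (1 + Real.log (1 / δ))) →
      WJ s M i x ≤ (M : ℝ) ^ (2 * i) * (N : ℝ) ^ (-(1 / 200) : ℝ) := by
    intro i q' δ x hi1 hi hq' hδ hδM hWx
    have hi' : (i : ℝ) ≤ r := by exact_mod_cast hi
    have hi1' : (1 : ℝ) ≤ i := by exact_mod_cast hi1
    have hMi1 : (1 : ℝ) ≤ (M : ℝ) ^ i := one_le_pow₀ hM0
    rw [hNp, pow_mul', sq]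
    exact final_step hL0 (by linarith) (by linarith) hr0 hsr hWx (by positivity)
      (first_factor hL0 hs1 hi1' (hMi i hi) hP0 hP2 hrN hr0 hq')
      (second_factor hL0 hs1 hMi1 (by linarith)
        (delta_factor hL0 hδ hMi1 hi' hr125 (hMi2 i) hδM))
  rcases le_or_gt c (30 * a) with hca | hca
  · -- small `t`
    obtain ⟨i, hi1, hir, him, hic, hi3, hi12⟩ := index_small ha4 hc0 hca hm40 hr1
    have hir' : i ≤ r := by exact_mod_cast hir
    have him' : i ≤ m := by exact_mod_cast him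
    obtain ⟨hQ1, hcop, hqQ, hQm, -⟩ := hQ i (Finset.mem_Icc.2 ⟨hi1, hir'⟩)
    have hQm' := hQm him'
    rw [hqp] at hQm'
    have hi0 : (0 : ℝ) < i := by exact_mod_cast hi1
    have hQ0 : (0 : ℝ) < Q i := by exact_mod_cast (by omega : 0 < Q i)
    have hDi0 : (0 : ℝ) < (D : ℝ) ^ i := by positivity
    -- `P < Q i`
    have hPQ : P < Q i := by
      have h1 : (q : ℝ) ≤ Q i * (D : ℝ) ^ i := by exact_mod_cast hqQ
      have h2 : Real.exp (L * a) ≤ Q i * Real.exp (L * (1 / 1000) + L * a * (i / m)) := by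
        rw [← hqe]
        exact h1.trans (mul_le_mul_of_nonneg_left (hDq i hir') hQ0.le)
      have h3 : Real.exp (L * a) / Real.exp (L * (1 / 1000) + L * a * (i / m)) ≤ Q i := by
        rwa [div_le_iff₀ (Real.exp_pos _)]
      rw [← Real.exp_sub] at h3
      have h4 : (P : ℝ) < Q i := by
        refine lt_of_lt_of_le (hP1.trans_lt ?_) h3
        rw [Real.exp_lt_exp]
        have h5 : L * (12 / 1000) ≤ L * (a * (1 - i / m)) :=
          mul_le_mul_of_nonneg_left hi12 hL0.le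
        have h6 : L * (a * (1 - i / m)) = L * a - L * a * (i / m) := by ring
        linarith
      exact_mod_cast h4
    -- the size of `Q i`
    have hQM : (Q i : ℝ) ≤ (M : ℝ) ^ i := by
      refine le_trans ?_ (hMi i hir')
      have h1 : (i : ℝ) * Real.exp (L * a * (1 - i / m)) ≤
          Real.exp (L * (1 / 1000)) * Real.exp (L * a * (1 - i / m)) :=
        mul_le_mul_of_nonneg_right (hQr i hir') (Real.exp_pos _).le
      refine hQm'.trans (h1.trans ?_)
      rw [← Real.exp_add, Real.exp_le_exp]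
      have h2 : (0 : ℝ) ≤ (i : ℝ) / m := by positivity
      have h3 : L * a * (1 - i / m) ≤ L * a * 1 :=
        mul_le_mul_of_nonneg_left (by linarith) (by positivity)
      have h4 : L * (3 * a) ≤ L * i := mul_le_mul_of_nonneg_left hi3 hL0.le
      have h5 : L * 1 ≤ L * i :=
        mul_le_mul_of_nonneg_left (by exact_mod_cast hi1) hL0.le
      have h6 : L * (2 / 5 * i - 1 / 1000) = 2 / 5 * (L * i) - 1 / 1000 * L := by ring
      rw [h6]
      have h7 : L * (3 * a) = 3 * (L * a) := by ring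
      linarith
    -- the size of the second part
    have hβ := beta_le (t := t) (n := n) hi1 hNe hnN htT hTe (hDq i hir')
    set β : ℝ := (-1) ^ i * t * (D : ℝ) ^ i / (2 * Real.pi * i * (n : ℝ) ^ i) with hβd
    have hβP : |β| * P ≤ 1 / (2 * (Q i : ℝ)) := by
      rw [le_div_iff₀ (by positivity)]
      have hpi := Real.pi_gt_three
      have h1 : |β| * P * (2 * (Q i : ℝ)) ≤
          |β| * Real.exp (L * (1 / 100)) * (2 * (i * Real.exp (L * a * (1 - i / m)))) := by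
        refine mul_le_mul (mul_le_mul_of_nonneg_left hP1 (abs_nonneg _)) (by linarith)
          (by positivity) (by positivity)
      have h2 : |β| * Real.exp (L * (1 / 100)) * (2 * (i * Real.exp (L * a * (1 - i / m)))) =
          (|β| * (2 * Real.pi * i)) * (Real.exp (L * (1 / 100)) *
            Real.exp (L * a * (1 - i / m))) / Real.pi := by
        field_simp
      rw [h2] at h1
      refine h1.trans ?_
      rw [div_le_one (by linarith)]
      have h3 : |β| * (2 * Real.pi * i) * (Real.exp (L * (1 / 100)) *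
          Real.exp (L * a * (1 - i / m))) ≤ Real.exp (L * (c + 1 / 1000 + a * (i / m) - i)) *
          (Real.exp (L * (1 / 100)) * Real.exp (L * a * (1 - i / m))) :=
        mul_le_mul_of_nonneg_right hβ (by positivity)
      refine h3.trans ?_
      rw [← Real.exp_add, ← Real.exp_add]
      have h4 : L * (c + 1 / 1000 + a * (i / m) - i) + (L * (1 / 100) + L * a * (1 - i / m)) =
          L * (c + a + 11 / 1000 - i) := by ring
      rw [h4]
      have h5 : L * (c + a + 11 / 1000 - i) ≤ 0 :=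
        mul_nonpos_of_nonneg_of_nonpos hL0.le (by linarith)
      have h6 : Real.exp (L * (c + a + 11 / 1000 - i)) ≤ 1 := Real.exp_le_one_iff.2 h5
      linarith
    refine ⟨i, Finset.mem_Icc.2 ⟨hi1, hir'⟩, ?_⟩
    have hδ : (0 : ℝ) < 1 / (2 * (Q i : ℝ)) := by positivity
    refine hend i 1 (1 / (2 * (Q i : ℝ))) _ hi1 hir' (by push_cast; linarith) hδ ?_ ?_
    · rw [one_div_one_div]
      linarith
    · refine hW s M i 1 P _ _ hs hMn le_rfl hPn hδ fun l hl => ?_
      rw [Finset.mem_Icc] at hl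
      have h1 := dz_frac hQ1 hcop hl.1 (lt_of_le_of_lt hl.2 hPQ) (β * l)
      have h2 : ((b i : ℝ) / (Q i : ℝ) + β) * ((1 : ℕ) : ℝ) * (l : ℝ) =
          (b i : ℝ) * l / Q i + β * l := by
        push_cast
        ring
      rw [h2]
      refine le_trans ?_ h1
      have h3 : |β * l| ≤ |β| * P := by
        rw [abs_mul, abs_of_nonneg (Nat.cast_nonneg l : (0 : ℝ) ≤ l)]
        exact mul_le_mul_of_nonneg_left (by exact_mod_cast hl.2) (abs_nonneg _)
      have h4 : 1 / (Q i : ℝ) = 1 / (2 * (Q i : ℝ)) + 1 / (2 * (Q i : ℝ)) := by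
        field_simp
        norm_num
      linarith
  · -- large `t`
    obtain ⟨i, hi1, hir, hmi, hi39, hi601⟩ := index_large ha4 hca hm40 hm41 hr1
    have hir' : i ≤ r := by exact_mod_cast hir
    have hmi' : m ≤ i := by exact_mod_cast hmi
    obtain ⟨hQ1, hcop, -, -, hQm⟩ := hQ i (Finset.mem_Icc.2 ⟨hi1, hir'⟩)
    have hQi : (Q i : ℝ) ≤ i := by exact_mod_cast hQm hmi'
    have hi0 : (0 : ℝ) < i := by exact_mod_cast hi1
    have hQ0 : (0 : ℝ) < Q i := by exact_mod_cast (by omega : 0 < Q i)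
    have hQ1' : (1 : ℝ) ≤ Q i := by exact_mod_cast hQ1
    have ht : |t| = Real.exp (L * c) := by
      have h1 : 1 < T := by
        rw [hTe]
        exact Real.one_lt_exp_iff.2 (mul_pos hL0 (by linarith))
      rw [← hTe, hT]
      rcases le_total |t| 1 with h2 | h2
      · rw [hT, max_eq_right h2] at h1
        exact absurd h1 (lt_irrefl _)
      · rw [max_eq_left h2]
    have hβ := beta_le (t := t) (n := n) hi1 hNe hnN htT hTe (hDq i hir')
    obtain ⟨hβ0, hβ1⟩ := beta_ge (t := t) (n := n) (D := D) hi1 hir hNe hn0 hn2 ht hD0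
      (h2i i hir') hrN
    set β : ℝ := (-1) ^ i * t * (D : ℝ) ^ i / (2 * Real.pi * i * (n : ℝ) ^ i) with hβd
    have hβP : |β| * Q i * P ≤ 1 / 2 := by
      have hpi := Real.pi_gt_three
      have h1 : |β| * Q i * P ≤ |β| * i * Real.exp (L * (1 / 100)) :=
        mul_le_mul (mul_le_mul_of_nonneg_left hQi (abs_nonneg _)) hP1 hP0.le (by positivity)
      have h2 : |β| * i * Real.exp (L * (1 / 100)) =
          (|β| * (2 * Real.pi * i)) * Real.exp (L * (1 / 100)) / (2 * Real.pi) := by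
        field_simp
      rw [h2] at h1
      refine h1.trans ?_
      rw [div_le_iff₀ (by linarith)]
      have h3 : |β| * (2 * Real.pi * i) * Real.exp (L * (1 / 100)) ≤
          Real.exp (L * (c + 1 / 1000 + a * (i / m) - i)) * Real.exp (L * (1 / 100)) :=
        mul_le_mul_of_nonneg_right hβ (Real.exp_pos _).le
      refine h3.trans ?_
      rw [← Real.exp_add]
      have h4 : a * (i / m) ≤ i / 40 := by
        rw [← mul_div_assoc, div_le_div_iff₀ hm0 (by norm_num)]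
        have h5 : (i : ℝ) * (40 * a) ≤ i * m := mul_le_mul_of_nonneg_left hm40 hi0.le
        linarith
      have h5 : L * (c + 1 / 1000 + a * (i / m) - i) + L * (1 / 100) ≤ 0 := by
        have h6 : L * (c + 1 / 1000 + a * (i / m) - i) + L * (1 / 100) =
            L * (c + 11 / 1000 + a * (i / m) - i) := by ring
        rw [h6]
        exact mul_nonpos_of_nonneg_of_nonpos hL0.le (by linarith)
      have h6 := Real.exp_le_one_iff.2 h5
      linarith
    refine ⟨i, Finset.mem_Icc.2 ⟨hi1, hir'⟩, ?_⟩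
    have hδ : (0 : ℝ) < |β| * Q i := mul_pos hβ0 hQ0
    have hδM : 1 / (|β| * Q i) ≤ (M : ℝ) ^ i := by
      have h1 : 1 / (|β| * Q i) ≤ 1 / |β| :=
        one_div_le_one_div_of_le hβ0 (le_mul_of_one_le_right hβ0.le hQ1')
      refine h1.trans (hβ1.trans (le_trans ?_ (hMi i hir')))
      rw [Real.exp_le_exp]
      refine mul_le_mul_of_nonneg_left ?_ hL0.le
      have h2 : (10 : ℝ) ≤ i := hm10.trans hmi
      linarith
    have hMi0 : 0 ≤ (M : ℝ) ^ i := by positivity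
    refine hend i (Q i) (|β| * Q i) _ hi1 hir' (hQi.trans hir) hδ (by linarith) ?_
    refine hW s M i (Q i) P _ _ hs hMn hQ1 hPn hδ fun l hl => ?_
    rw [Finset.mem_Icc] at hl
    have hl1 : (1 : ℝ) ≤ l := by exact_mod_cast hl.1
    have hlP : (l : ℝ) ≤ P := by exact_mod_cast hl.2
    have h2 : ((b i : ℝ) / (Q i : ℝ) + β) * (Q i : ℝ) * (l : ℝ) =
        ((b i * l : ℤ) : ℝ) + β * Q i * l := by
      push_cast
      field_simp
    rw [h2]
    have h3 : |β * Q i * l| = |β| * Q i * l := by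
      rw [abs_mul, abs_mul, abs_of_pos hQ0, abs_of_nonneg (by linarith : (0 : ℝ) ≤ l)]
    have h4 : |β * Q i * l| ≤ 1 / 2 := by
      rw [h3]
      exact (mul_le_mul_of_nonneg_left hlP hδ.le).trans hβP
    refine le_trans ?_ (dz_small (b i * l) h4)
    rw [h3]
    exact le_mul_of_one_le_right hδ.le hl1

end Pool.Agent.H707.PP
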