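import Pool.Agent.H567.PP.Stm

/-!
# Conductors are not `2` modulo `4`, and squares of primitive characters (`S_MOD4`, `S_SQNE`)
-/

set_option autoImplicit false

namespace Pool.Agent.H127.PP

open Finset
open Pool.Agent.H567.PP

/-- a primitive character is not trivial on the kernel of the reduction to a smaller modulus -/
theorem exists_w {q : ℕ} [NeZero q] {χ : DirichletCharacter ℂ q} (hχ : χ.IsPrimitive) {d : ℕ} (hd : d ∣ q)
    (hlt : d < q) : ∃ w : ZMod q, IsUnit (1 + (d : ZMod q) * w) ∧ χ (1 + (d : ZMod q) * w) ≠ 1 := by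
  by_contra hcon
  push Not at hcon
  have h1 : DirichletCharacter.FactorsThrough χ d := by
    rw [DirichletCharacter.factorsThrough_iff_ker_unitsMap hd]
    intro u hu
    rw [MonoidHom.mem_ker] at hu ⊢
    have h2 : ZMod.castHom hd (ZMod d) ((u : ZMod q) - 1) = 0 := by
      have h3 := congrArg (Units.val) hu
      rw [ZMod.unitsMap_val] at h3
      rw [map_sub, map_one, ZMod.castHom_apply, h3, Units.val_one, sub_self]
    rw [ZMod.castHom_apply, ← ZMod.natCast_val, ZMod.natCast_eq_zero_iff] at h2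
    obtain ⟨k, hk⟩ := h2
    have h4 : (u : ZMod q) = 1 + (d : ZMod q) * (k : ZMod q) := by
      have h5 : (((u : ZMod q) - 1).val : ZMod q) = (u : ZMod q) - 1 := ZMod.natCast_zmod_val _
      rw [hk] at h5
      push_cast at h5
      rw [h5]
      ring
    have h6 := hcon (k : ZMod q) (by rw [← h4]; exact u.isUnit)
    rw [← h4] at h6
    apply Units.ext
    rw [MulChar.coe_toUnitHom, h6, Units.val_one]
  have h2 : χ.conductor ≤ d := Nat.sInf_le h1
  have h3 : χ.conductor = q := hχ
  omega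

theorem mod4 : S_MOD4 := by
  intro q χ hχ h4
  have hq : q ≠ 0 := by rintro rfl; simp at h4
  have : NeZero q := ⟨hq⟩
  have hk : q = 2 * (q / 2) := by omega
  have hkd : q / 2 ∣ q := ⟨2, by omega⟩
  obtain ⟨w, hw, hχw⟩ := exists_w hχ hkd (by omega)
  apply hχw
  have h1 : (1 + ((q / 2 : ℕ) : ZMod q) * w) = 1 := by
    obtain ⟨m, rfl⟩ : ∃ m : ℕ, (m : ZMod q) = w := ⟨w.val, ZMod.natCast_zmod_val w⟩
    have h2 : Even m := by
      by_contra hodd
      rw [Nat.not_even_iff_odd] at hodd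
      have h3 : IsUnit ((1 + (q / 2) * m : ℕ) : ZMod q) := by exact_mod_cast hw
      rw [ZMod.isUnit_iff_coprime] at h3
      have h4' : Odd (q / 2) := by
        rw [Nat.odd_iff]
        omega
      have h5 : Even (1 + q / 2 * m) := by
        have := h4'.mul hodd
        exact Odd.add_odd odd_one this
      have h6 : 2 ∣ Nat.gcd (1 + q / 2 * m) q := Nat.dvd_gcd h5.two_dvd ⟨q / 2, hk⟩
      rw [h3] at h6
      omega
    obtain ⟨j, hj⟩ := h2
    have h7 : ((q / 2 * m : ℕ) : ZMod q) = 0 := by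
      rw [ZMod.natCast_eq_zero_iff]
      refine ⟨j, ?_⟩
      rw [hj]
      conv_rhs => rw [hk]
      ring
    push_cast at h7
    rw [h7, add_zero]
  rw [h1, map_one]

/-- if `8 rad q < q` then `q` is divisible by the square of an odd prime or by `16` -/
theorem cases_q {q : ℕ} (h : 8 * rad q < q) : (∃ p : ℕ, p.Prime ∧ Odd p ∧ p * p ∣ q) ∨ 16 ∣ q := by
  by_contra hcon
  push Not at hcon
  obtain ⟨h1, h2⟩ := hcon
  have hq : q ≠ 0 := by rintro rfl; simp at h
  obtain ⟨a, m, hm, rfl⟩ := Nat.exists_eq_two_pow_mul_odd hq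
  have hm0 : m ≠ 0 := by rintro rfl; simp at hq
  have ha : a ≤ 3 := by
    by_contra ha
    apply h2
    have : 2 ^ 4 ∣ 2 ^ a := pow_dvd_pow 2 (by omega)
    exact (by norm_num : (16 : ℕ) = 2 ^ 4) ▸ this.trans (dvd_mul_right _ _)
  have hsf : Squarefree m := by
    rw [Nat.squarefree_iff_prime_squarefree]
    intro p hp hpm
    refine h1 p hp ?_ (hpm.trans (dvd_mul_left _ _))
    exact hm.of_dvd_nat ((dvd_mul_right p p).trans hpm)
  have h3 : m ≤ rad (2 ^ a * m) := by
    calc m = ∏ p ∈ m.primeFactors, p := (Nat.prod_primeFactors_of_squarefree hsf).symm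
      _ ≤ ∏ p ∈ (2 ^ a * m).primeFactors, p := by
        apply Finset.prod_le_prod_of_subset_of_one_le'
        · exact Nat.primeFactors_mono (dvd_mul_left _ _) hq
        · intro p hp _
          exact (Nat.prime_of_mem_primeFactors hp).one_lt.le
  have h4 : 2 ^ a ≤ 2 ^ 3 := Nat.pow_le_pow_right (by norm_num) ha
  have h5 : 2 ^ a * m ≤ 2 ^ 3 * m := Nat.mul_le_mul_right _ h4
  omega

theorem sqne : S_SQNE := by
  intro q χ hχ h8 hsq
  have hq : q ≠ 0 := by rintro rfl; simp at h8
  have : NeZero q := ⟨hq⟩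
  -- a square is mapped to one
  have hkey : ∀ u v : ZMod q, IsUnit u → v ^ 2 = u → χ u = 1 := by
    intro u v hu hv
    have hvu : IsUnit v := by
      rw [← hv] at hu
      exact isUnit_of_mul_isUnit_left (by rwa [pow_two] at hu)
    have h1 : (χ ^ 2) v = (1 : DirichletCharacter ℂ q) v := by rw [hsq]
    rw [MulChar.one_apply hvu, MulChar.pow_apply' χ two_ne_zero] at h1
    rw [← hv, map_pow, h1]
  rcases cases_q h8 with ⟨p, hp, hpo, hpq⟩ | h16
  · obtain ⟨e, he⟩ := hpq
    have he0 : 0 < e := by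
      rcases Nat.eq_zero_or_pos e with h0 | h0
      · rw [h0, mul_zero] at he
        exact absurd he hq
      · exact h0
    have hpp := hp.pos
    obtain ⟨w, hw, hχw⟩ := exists_w hχ (d := p * e) ⟨p, by rw [he]; ring⟩ (by
      rw [he]
      have h2 : 1 < p := hp.one_lt
      have h3 : 0 < p * e := Nat.mul_pos hpp he0
      nlinarith)
    obtain ⟨k, hk⟩ := hpo
    apply hχw
    apply hkey _ (1 + ((p * e : ℕ) : ZMod q) * (((k + 1 : ℕ) : ZMod q) * w)) hw
    have h1 : ((p * (p * e) : ℕ) : ZMod q) = 0 := by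
      rw [ZMod.natCast_eq_zero_iff, he]
      exact ⟨1, by ring⟩
    have h2 : (p : ZMod q) = 2 * (k : ZMod q) + 1 := by rw [hk]; push_cast; ring
    push_cast at h1 ⊢
    linear_combination (w + (e : ZMod q) * ((k + 1) * w) ^ 2) * h1 - (p * e * w : ZMod q) * h2
  · obtain ⟨e, he⟩ := h16
    obtain ⟨w, hw, hχw⟩ := exists_w hχ (d := 8 * e) ⟨2, by rw [he]; ring⟩ (by omega)
    apply hχw
    apply hkey _ (1 + ((4 * e : ℕ) : ZMod q) * w) hw
    have h1 : ((16 * e : ℕ) : ZMod q) = 0 := by
      rw [ZMod.natCast_eq_zero_iff, he]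
    push_cast at h1 ⊢
    linear_combination (e * w ^ 2 : ZMod q) * h1

end Pool.Agent.H127.PP
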