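import Pool.Agent.H567.PP.Stm

/-!
# PP-11: complete sums (by helper894, for helper567)
-/

set_option autoImplicit false

namespace Pool.Agent.H894.PP

open Finset
open Pool.Agent.H567.PP
open Pool.Agent.helper24_UT (tw)
open Pool.Agent.H376R2.MR (er)

lemma norm_tw (t x : ℝ) : ‖tw t x‖ = 1 := by
  unfold tw er
  rw [Complex.norm_exp]
  simp

lemma norm_term {q : ℕ} (χ : DirichletCharacter ℂ q) (t : ℝ) (m : ℕ) :
    ‖χ (m : ZMod q) * tw t m‖ ≤ 1 := by
  rw [norm_mul, norm_tw, mul_one]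
  exact DirichletCharacter.norm_le_one χ _

/-- the sum over dyadic intervals -/
lemma dyadic {q : ℕ} (χ : DirichletCharacter ℂ q) (t : ℝ) (X c : ℝ) (hc : 0 ≤ c) (hX : 3 ≤ X)
    (h : ∀ N N' : ℕ, X ≤ N → N ≤ N' → N' ≤ 2 * N →
      ‖∑ n ∈ Ioc N N', χ (n : ZMod q) * tw t n‖ ≤ N * c) (M : ℕ) :
    ‖∑ m ∈ Icc 1 M, χ (m : ZMod q) * tw t m‖ ≤ 2 * X + 2 * M * c := by
  induction M using Nat.strong_induction_on with
  | _ M ih =>
    by_cases hM : ((((M + 1) / 2 : ℕ) : ℝ) < X)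
    · have h1 : ‖∑ m ∈ Icc 1 M, χ (m : ZMod q) * tw t m‖ ≤ M := by
        refine (norm_sum_le _ _).trans ?_
        refine (Finset.sum_le_sum fun m _ => norm_term χ t m).trans ?_
        simp
      have h2 : (M : ℝ) ≤ 2 * (((M + 1) / 2 : ℕ) : ℝ) := by
        exact_mod_cast (by omega : M ≤ 2 * ((M + 1) / 2))
      have h3 : 0 ≤ 2 * (M : ℝ) * c := by positivity
      linarith
    · push Not at hM
      obtain ⟨N, hN⟩ : ∃ N, N = (M + 1) / 2 := ⟨_, rfl⟩
      rw [← hN] at hM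
      have hN3 : 3 ≤ N := by
        have : (3 : ℝ) ≤ N := hX.trans hM
        exact_mod_cast this
      have h1 := ih N (by omega)
      have h2 := h N M hM (by omega) (by omega)
      have h3 : ∑ m ∈ Icc 1 M, χ (m : ZMod q) * tw t m =
          ∑ m ∈ Icc 1 N, χ (m : ZMod q) * tw t m + ∑ m ∈ Ioc N M, χ (m : ZMod q) * tw t m := by
        rw [← Finset.sum_union]
        · congr 1
          ext m
          simp only [Finset.mem_union, Finset.mem_Icc, Finset.mem_Ioc]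
          omega
        · rw [Finset.disjoint_left]
          intro m hm hm'
          rw [Finset.mem_Icc] at hm
          rw [Finset.mem_Ioc] at hm'
          omega
      rw [h3]
      refine (norm_add_le _ _).trans ?_
      have h4 : 3 * (N : ℝ) ≤ 2 * M := by exact_mod_cast (by omega : 3 * N ≤ 2 * M)
      have h5 : 3 * (N : ℝ) * c ≤ 2 * M * c := mul_le_mul_of_nonneg_right h4 hc
      linarith

/-- the comparison of the exponentials -/
lemma ev_exp (η : ℝ) (hη : 0 < η) (hη1 : η ≤ 1 / 10) (K : ℕ) : ∃ L₀ : ℝ, ∀ L : ℝ, L₀ ≤ L →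
    4 * Real.exp (L ^ (1 - η)) * L ^ K ≤ Real.exp (L ^ (1 - η / 2)) := by
  have h1 : ∀ᶠ L : ℝ in Filter.atTop, ‖Real.log L‖ ≤ (1 / (2 * ((K : ℝ) + 1))) * ‖L ^ (1 - η)‖ := by
    have h := isLittleO_log_rpow_atTop (r := 1 - η) (by linarith)
    exact h.bound (by positivity)
  have h2 : ∀ᶠ L : ℝ in Filter.atTop, 2 ≤ L ^ (η / 2) :=
    (tendsto_rpow_atTop (by linarith)).eventually_ge_atTop 2
  have h3 : ∀ᶠ L : ℝ in Filter.atTop, 4 ≤ L ^ (1 - η) :=
    (tendsto_rpow_atTop (by linarith)).eventually_ge_atTop 4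
  have h4 : ∀ᶠ L : ℝ in Filter.atTop,
      4 * Real.exp (L ^ (1 - η)) * L ^ K ≤ Real.exp (L ^ (1 - η / 2)) := by
    filter_upwards [h1, h2, h3, Filter.eventually_ge_atTop (1 : ℝ)] with L h1 h2 h3 hL
    have hL0 : 0 < L := by linarith
    have e1 : L ^ (1 - η / 2) = L ^ (1 - η) * L ^ (η / 2) := by
      rw [← Real.rpow_add hL0]
      congr 1
      ring
    have hu : 0 < L ^ (1 - η) := Real.rpow_pos_of_pos hL0 _
    rw [Real.norm_of_nonneg (Real.log_nonneg hL), Real.norm_of_nonneg hu.le] at h1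
    have e2 : L ^ K = Real.exp (K * Real.log L) := by
      rw [mul_comm, Real.exp_mul, Real.exp_log hL0, Real.rpow_natCast]
    have e3 : (4 : ℝ) ≤ Real.exp 2 := by
      have := Real.add_one_le_exp (1 : ℝ)
      have e4 : Real.exp 2 = Real.exp 1 * Real.exp 1 := by
        rw [← Real.exp_add]
        norm_num
      rw [e4]
      nlinarith
    have e5 : (K : ℝ) * Real.log L ≤ L ^ (1 - η) / 2 := by
      have hK : (K : ℝ) * (1 / (2 * ((K : ℝ) + 1))) ≤ 1 / 2 := by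
        rw [mul_one_div, div_le_div_iff₀ (by positivity) (by norm_num)]
        linarith
      calc (K : ℝ) * Real.log L ≤ K * (1 / (2 * ((K : ℝ) + 1)) * L ^ (1 - η)) :=
            mul_le_mul_of_nonneg_left h1 (Nat.cast_nonneg K)
        _ = K * (1 / (2 * ((K : ℝ) + 1))) * L ^ (1 - η) := by ring
        _ ≤ 1 / 2 * L ^ (1 - η) := mul_le_mul_of_nonneg_right hK hu.le
        _ = _ := by ring
    calc 4 * Real.exp (L ^ (1 - η)) * L ^ K
        ≤ Real.exp 2 * Real.exp (L ^ (1 - η)) * Real.exp (K * Real.log L) := by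
          rw [e2]
          gcongr
      _ = Real.exp (2 + L ^ (1 - η) + K * Real.log L) := by
          rw [Real.exp_add, Real.exp_add]
      _ ≤ Real.exp (L ^ (1 - η / 2)) := by
          rw [Real.exp_le_exp, e1]
          nlinarith
  obtain ⟨L₀, hL₀⟩ := Filter.eventually_atTop.1 h4
  exact ⟨L₀, hL₀⟩

theorem tball : S_TBBIG → S_TBSMALL → S_TBALL := by
  rintro ⟨η₁, hη₁, hη₁', H1⟩ ⟨η₂, hη₂, hη₂', H2⟩
  obtain ⟨η, hη⟩ : ∃ η, η = min η₁ η₂ := ⟨_, rfl⟩
  have hη0 : 0 < η := by rw [hη]; exact lt_min hη₁ hη₂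
  have hηa : η ≤ η₁ := by rw [hη]; exact min_le_left _ _
  have hηb : η ≤ η₂ := by rw [hη]; exact min_le_right _ _
  refine ⟨η / 2, by linarith, by linarith, fun A B K => ?_⟩
  obtain ⟨L₁, hL₁, H1⟩ := H1 A B (K + 3)
  obtain ⟨L₂, hL₂, H2⟩ := H2 A (K + 3)
  obtain ⟨L₃, H3⟩ := ev_exp η hη0 (by linarith) K
  refine ⟨max L₁ (max L₂ (max L₃ 16)), le_max_of_le_left hL₁, fun L hL q χ t hq hχ hrad hqL htL
    M hM => ?_⟩
  simp only [max_le_iff] at hL
  obtain ⟨hLa, hLb, hLc, hLd⟩ := hL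
  have hL1 : 1 ≤ L := by linarith
  have hL0 : 0 < L := by linarith
  obtain ⟨X, hX⟩ : ∃ X, X = Real.exp (L ^ (1 - η)) := ⟨_, rfl⟩
  have hX3 : 3 ≤ X := by
    rw [hX]
    have e1 : (2 : ℝ) ≤ L ^ (1 - η) := by
      calc (2 : ℝ) ≤ (16 : ℝ) ^ (1 / 2 : ℝ) := by
            rw [show (16 : ℝ) = 4 ^ (2 : ℝ) by norm_num, ← Real.rpow_mul (by norm_num)]
            norm_num
        _ ≤ L ^ (1 / 2 : ℝ) := Real.rpow_le_rpow (by norm_num) hLd (by norm_num)
        _ ≤ L ^ (1 - η) := Real.rpow_le_rpow_of_exponent_le hL1 (by linarith)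
    have e2 := Real.add_one_le_exp (L ^ (1 - η))
    linarith
  have hXa : Real.exp (L ^ (1 - η₁)) ≤ X := by
    rw [hX, Real.exp_le_exp]
    exact Real.rpow_le_rpow_of_exponent_le hL1 (by linarith)
  have hXb : Real.exp (L ^ (1 - η₂)) ≤ X := by
    rw [hX, Real.exp_le_exp]
    exact Real.rpow_le_rpow_of_exponent_le hL1 (by linarith)
  have hχ1 : χ ≠ 1 := by
    rintro rfl
    have : NeZero q := ⟨by omega⟩
    rw [DirichletCharacter.IsPrimitive, DirichletCharacter.conductor_one] at hχ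
    omega
  have hc : (0 : ℝ) ≤ 1 / L ^ (K + 3) := by positivity
  have h1 := dyadic χ t X (1 / L ^ (K + 3)) hc hX3 (by
    intro N N' hN hN1 hN2
    rw [mul_one_div]
    rcases le_total ((N : ℝ) ^ (1 / 4 : ℝ)) (q : ℝ) with h | h
    · exact H1 L hLa q χ t hq hχ hrad hqL htL N N' (hXa.trans hN) h hN1 hN2
    · exact H2 L hLb q χ t (by omega) hχ1 htL N N' (hXb.trans hN) h hN1 hN2) M
  refine h1.trans ?_
  have h2 := (H3 L hLc).trans hM
  rw [← hX] at h2
  have hLK : 0 < L ^ K := by positivity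
  have h3 : 2 * X ≤ (M : ℝ) / L ^ K / 2 := by
    rw [div_div, le_div_iff₀ (by positivity)]
    linarith
  have h4 : 2 * (M : ℝ) * (1 / L ^ (K + 3)) ≤ (M : ℝ) / L ^ K / 2 := by
    have e1 : (4 : ℝ) ≤ L ^ 3 := by
      have e2 : (2 : ℝ) ^ 3 ≤ L ^ 3 := pow_le_pow_left₀ (by norm_num) (by linarith) 3
      norm_num at e2
      linarith
    have e3 : (0 : ℝ) ≤ M := Nat.cast_nonneg M
    rw [pow_add, mul_one_div, div_div, div_le_div_iff₀ (by positivity) (by positivity)]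
    nlinarith [mul_nonneg (mul_nonneg e3 hLK.le) (sub_nonneg.2 e1)]
  linarith

end Pool.Agent.H894.PP
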