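import Pool.Agent.H567.PP.Stm
import Pool.Graph.R_pool_sql_team_seeded_620a6dc7.helper24_UT_.T1

/-!
# Project PP, part (10): small moduli (helper588 for helper567)
-/

set_option autoImplicit false

namespace Pool.Agent.H588.PP

open Finset
open Pool.Agent.helper24_UT (tw S_ZSX)
open Pool.Agent.helper24_UT.T1 (norm_tw tw_mul tw_sub)
open Pool.Agent.H567.PP

section chi

variable {q : ℕ} (χ : DirichletCharacter ℂ q)

lemma norm_chi_le (x : ZMod q) : ‖χ x‖ ≤ 1 := χ.norm_le_one x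

/-- the sum over a complete period -/
lemma sum_period (hq : 1 ≤ q) (hχ : χ ≠ 1) (a : ℕ) :
    ∑ n ∈ Ioc a (a + q), χ (n : ZMod q) = 0 := by
  have : NeZero q := ⟨by omega⟩
  have hinj : Set.InjOn (fun n : ℕ => (n : ZMod q)) (Ioc a (a + q)) := by
    intro x hx y hy hxy
    simp only [coe_Ioc, Set.mem_Ioc] at hx hy
    have h1 : x ≡ y [MOD q] := (ZMod.natCast_eq_natCast_iff x y q).1 hxy
    rcases le_total x y with h | h
    · have h2 : q ∣ y - x := (Nat.modEq_iff_dvd' h).1 h1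
      by_contra hne
      have := Nat.le_of_dvd (by omega) h2
      omega
    · have h2 : q ∣ x - y := (Nat.modEq_iff_dvd' h).1 h1.symm
      by_contra hne
      have := Nat.le_of_dvd (by omega) h2
      omega
  have himg : (Ioc a (a + q)).image (fun n : ℕ => (n : ZMod q)) = univ := by
    apply Finset.eq_univ_of_card
    rw [card_image_of_injOn hinj, Nat.card_Ioc, ZMod.card]
    omega
  rw [← Finset.sum_image (f := fun x : ZMod q => χ x) hinj, himg]
  exact MulChar.sum_eq_zero_of_ne_one hχ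

/-- partial sums of characters -/
lemma partial_chi (hq : 1 ≤ q) (hχ : χ ≠ 1) (N : ℕ) : ∀ M : ℕ, N ≤ M →
    ‖∑ n ∈ Ioc N M, χ (n : ZMod q)‖ ≤ q := by
  intro M
  induction M using Nat.strong_induction_on with
  | _ M ih =>
    intro hM
    by_cases h : M ≤ N + q
    · refine (norm_sum_le _ _).trans ?_
      refine (Finset.sum_le_sum fun (n : ℕ) _ => norm_chi_le χ (n : ZMod q)).trans ?_
      rw [sum_const, Nat.card_Ioc, nsmul_eq_mul, mul_one]
      exact_mod_cast (by omega : M - N ≤ q)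
    · have h1 : N ≤ M - q := by omega
      have h2 : M - q ≤ M := by omega
      rw [← Finset.sum_Ioc_consecutive _ h1 h2]
      have h3 : ∑ n ∈ Ioc (M - q) M, χ (n : ZMod q) = 0 := by
        have h4 := sum_period χ hq hχ (M - q)
        rwa [show M - q + q = M by omega] at h4
      rw [h3, add_zero]
      exact ih (M - q) (by omega) h1

/-- small frequencies -/
lemma small_freq (hq : 1 ≤ q) (hχ : χ ≠ 1) (t : ℝ) (N N' : ℕ) (hN : 1 ≤ N) (h1 : N ≤ N')
    (h2 : N' ≤ 2 * N) : ‖∑ n ∈ Ioc N N', χ (n : ZMod q) * tw t n‖ ≤ q * (1 + |t|) := by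
  have hNr : (1 : ℝ) ≤ N := by exact_mod_cast hN
  have hq0 : (0 : ℝ) ≤ q := Nat.cast_nonneg _
  have key : ∀ M : ℕ, N ≤ M → ‖∑ n ∈ Ioc N M, χ (n : ZMod q) * tw t n -
      (∑ n ∈ Ioc N M, χ (n : ZMod q)) * tw t M‖ ≤ ((M : ℝ) - N) * (q * (|t| / N)) := by
    intro M hM
    induction M, hM using Nat.le_induction with
    | base => simp
    | succ M hM ih =>
      rw [Finset.sum_Ioc_succ_top (by omega), Finset.sum_Ioc_succ_top (by omega)]
      have e : ∑ n ∈ Ioc N M, χ (n : ZMod q) * tw t n + χ ((M + 1 : ℕ) : ZMod q) *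
          tw t ((M + 1 : ℕ) : ℝ) - (∑ n ∈ Ioc N M, χ (n : ZMod q) + χ ((M + 1 : ℕ) : ZMod q)) *
          tw t ((M + 1 : ℕ) : ℝ) =
          (∑ n ∈ Ioc N M, χ (n : ZMod q) * tw t n - (∑ n ∈ Ioc N M, χ (n : ZMod q)) * tw t M) +
          (∑ n ∈ Ioc N M, χ (n : ZMod q)) * (tw t M - tw t ((M + 1 : ℕ) : ℝ)) := by ring
      rw [e]
      refine (norm_add_le _ _).trans ?_
      have hMr : (N : ℝ) ≤ M := by exact_mod_cast hM
      have h3 : ‖tw t (M : ℝ) - tw t ((M + 1 : ℕ) : ℝ)‖ ≤ |t| / N := by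
        refine (tw_sub _ _ _).trans ?_
        rw [div_eq_mul_inv]
        refine mul_le_mul_of_nonneg_left ?_ (abs_nonneg _)
        have hM0 : (0 : ℝ) < M := by linarith
        push_cast
        rw [abs_sub_comm, abs_of_nonneg (sub_nonneg.2 (Real.log_le_log hM0 (by linarith))),
          ← Real.log_div (by linarith) hM0.ne']
        refine (Real.log_le_sub_one_of_pos (div_pos (by linarith) hM0)).trans ?_
        have h6 : ((M : ℝ) + 1) / M - 1 = (M : ℝ)⁻¹ := by
          field_simp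
          ring
        rw [h6]
        exact inv_anti₀ (by linarith) hMr
      have h4 : ‖(∑ n ∈ Ioc N M, χ (n : ZMod q)) * (tw t M - tw t ((M + 1 : ℕ) : ℝ))‖ ≤
          q * (|t| / N) := by
        rw [norm_mul]
        exact mul_le_mul (partial_chi χ hq hχ N M hM) h3 (norm_nonneg _) hq0
      have h6 : (((M + 1 : ℕ) : ℝ) - N) * (q * (|t| / N)) =
          ((M : ℝ) - N) * (q * (|t| / N)) + q * (|t| / N) := by
        push_cast
        ring
      rw [h6]
      exact add_le_add ih h4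
  have h3 := key N' h1
  have h4 : ∑ n ∈ Ioc N N', χ (n : ZMod q) * tw t n = (∑ n ∈ Ioc N N', χ (n : ZMod q) * tw t n -
      (∑ n ∈ Ioc N N', χ (n : ZMod q)) * tw t N') +
      (∑ n ∈ Ioc N N', χ (n : ZMod q)) * tw t N' := by ring
  rw [h4]
  refine (norm_add_le _ _).trans ?_
  have h5 : ‖(∑ n ∈ Ioc N N', χ (n : ZMod q)) * tw t N'‖ ≤ q := by
    rw [norm_mul, norm_tw, mul_one]
    exact partial_chi χ hq hχ N N' h1
  have h1' : (N : ℝ) ≤ N' := by exact_mod_cast h1
  have h2' : (N' : ℝ) ≤ 2 * N := by exact_mod_cast h2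
  have h6 : ((N' : ℝ) - N) * (q * (|t| / N)) ≤ q * |t| := by
    have e : ((N' : ℝ) - N) * (q * (|t| / N)) = q * |t| * (((N' : ℝ) - N) / N) := by
      field_simp
    rw [e]
    refine mul_le_of_le_one_right (by positivity) ?_
    rw [div_le_one (by linarith)]
    linarith
  linarith

/-- one residue class -/
lemma one_class (hq : 1 ≤ q) (t : ℝ) (N N' r : ℕ) (hr : r < q) (hqN : q ≤ N) (h1 : N ≤ N') :
    ‖∑ n ∈ (Ioc N N').filter (fun n => n % q = r), χ (n : ZMod q) * tw t n‖ ≤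
      ‖∑ k ∈ Ioc ((N - r) / q) ((N' - r) / q), tw t (k + (r : ℝ) / q)‖ := by
  have hq0 : (0 : ℝ) < q := by exact_mod_cast hq
  have h2 : ∑ n ∈ (Ioc N N').filter (fun n => n % q = r), χ (n : ZMod q) * tw t n =
      ∑ k ∈ Ioc ((N - r) / q) ((N' - r) / q),
        (χ (r : ZMod q) * tw t q) * tw t (k + (r : ℝ) / q) := by
    refine Finset.sum_bij' (fun m _ => m / q) (fun n _ => q * n + r) ?_ ?_ ?_ ?_ ?_
    · intro m hm
      simp only [mem_filter, mem_Ioc] at hm
      have h3 := Nat.div_add_mod m q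
      rw [hm.2] at h3
      rw [mem_Ioc, Nat.div_lt_iff_lt_mul (by omega), Nat.le_div_iff_mul_le (by omega)]
      rw [mul_comm] at h3
      omega
    · intro n hn
      rw [mem_Ioc, Nat.div_lt_iff_lt_mul (by omega), Nat.le_div_iff_mul_le (by omega)] at hn
      rw [mul_comm] at hn
      simp only [mem_filter, mem_Ioc]
      have h4 : (q * n + r) % q = r := by
        rw [Nat.mul_add_mod, Nat.mod_eq_of_lt hr]
      have h5 := hn.2
      rw [mul_comm] at h5
      exact ⟨⟨by omega, by omega⟩, h4⟩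
    · intro m hm
      simp only [mem_filter, mem_Ioc] at hm
      have h3 := Nat.div_add_mod m q
      rw [hm.2] at h3
      exact h3
    · intro n hn
      rw [Nat.mul_add_div (by omega), Nat.div_eq_of_lt hr, add_zero]
    · intro m hm
      simp only [mem_filter, mem_Ioc] at hm
      have h3 := Nat.div_add_mod m q
      rw [hm.2] at h3
      have h4 : 0 < m / q := Nat.div_pos (by omega) (by omega)
      have h5 : (0 : ℝ) < ((m / q : ℕ) : ℝ) + (r : ℝ) / q := by
        have : (0 : ℝ) < ((m / q : ℕ) : ℝ) := by exact_mod_cast h4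
        positivity
      have h6 : (m : ZMod q) = (r : ZMod q) := by
        rw [← h3]
        push_cast
        rw [ZMod.natCast_self, zero_mul, zero_add]
      rw [h6, mul_assoc, ← tw_mul t hq0 h5]
      congr 2
      rw [mul_add, mul_div_cancel₀ _ hq0.ne']
      exact_mod_cast h3.symm
  rw [h2, ← Finset.mul_sum, norm_mul, norm_mul, norm_tw, mul_one]
  exact mul_le_of_le_one_left (norm_nonneg _) (norm_chi_le χ _)

end chi

/-- Vinogradov's bound in the range needed here -/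
lemma blk {C : ℕ} {c : ℝ} (hc : 0 < c) (hZ : ∀ (N N' : ℕ) (θ t κ : ℝ), 2 ≤ N → N ≤ N' →
    N' ≤ 2 * N → 0 ≤ θ → θ ≤ 1 → 1 / 2 ≤ κ → |t| = (N : ℝ) ^ κ →
    ‖∑ n ∈ Ioc N N', tw t (n + θ)‖ ≤ Real.exp (C * (1 + κ) ^ C) *
      (N : ℝ) ^ (1 - c / (1 + κ) ^ 2 : ℝ)) (η : ℝ) (hη : η = 1 / (10 + C)) (A K : ℕ) :
    ∃ L₀ : ℝ, 16 ≤ L₀ ∧ ∀ L : ℝ, L₀ ≤ L → (K + 3) * Real.log L ≤ L ^ (1 - η) / 24 ∧
      ∀ t : ℝ, |t| ≤ Real.exp (A * L) → ∀ θ : ℝ, 0 ≤ θ → θ ≤ 1 → ∀ N N' : ℕ,
      Real.exp (L ^ (1 - η) / 3) ≤ N → N ≤ N' → N' ≤ 2 * N → (N : ℝ) ^ (1 / 2 : ℝ) ≤ |t| →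
      ‖∑ n ∈ Ioc N N', tw t (n + θ)‖ ≤ N / L ^ (K + 2) := by
  have hC0 : (0 : ℝ) ≤ C := Nat.cast_nonneg C
  have hη0 : 0 < η := by rw [hη]; positivity
  have hη1 : η ≤ 1 / 10 := by
    rw [hη]
    exact one_div_le_one_div_of_le (by norm_num) (by linarith)
  have hηC : η * C + 3 * η < 1 := by
    have : η * (10 + C) = 1 := by rw [hη]; field_simp
    nlinarith
  obtain ⟨c', hc'⟩ : ∃ c' : ℝ, c' = c / (3 * (1 + 3 * (A : ℝ)) ^ 2) := ⟨_, rfl⟩
  have hA0 : (0 : ℝ) ≤ A := Nat.cast_nonneg A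
  have hc'0 : 0 < c' := by rw [hc']; positivity
  have e1 : ∀ᶠ L : ℝ in Filter.atTop, 2 * (C * (1 + 3 * (A : ℝ)) ^ C) / c' ≤
      L ^ (1 - 3 * η - η * C) :=
    (tendsto_rpow_atTop (by linarith)).eventually_ge_atTop _
  have e2 : ∀ᶠ L : ℝ in Filter.atTop, ‖Real.log L‖ ≤ (c' / (2 * (K + 2))) * ‖L ^ (1 - 3 * η)‖ :=
    (isLittleO_log_rpow_atTop (by nlinarith : (0 : ℝ) < 1 - 3 * η)).def (by positivity)
  have e3 : ∀ᶠ L : ℝ in Filter.atTop, ‖Real.log L‖ ≤ (1 / (24 * (K + 3))) * ‖L ^ (1 - η)‖ :=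
    (isLittleO_log_rpow_atTop (by linarith : (0 : ℝ) < 1 - η)).def (by positivity)
  obtain ⟨L₁, hL₁⟩ := Filter.eventually_atTop.1 (e1.and (e2.and e3))
  refine ⟨max L₁ 16, le_max_right _ _, ?_⟩
  intro L hL
  obtain ⟨a1, a2, a3⟩ := hL₁ L ((le_max_left _ _).trans hL)
  have hL16 : 16 ≤ L := (le_max_right _ _).trans hL
  have hLpos : 0 < L := by linarith
  have hL1 : 1 ≤ L := by linarith
  have hlogL : 0 ≤ Real.log L := Real.log_nonneg hL1
  rw [Real.norm_of_nonneg hlogL, Real.norm_of_nonneg (Real.rpow_nonneg hLpos.le _)] at a2 a3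
  -- the exponent
  obtain ⟨P, hP⟩ : ∃ P : ℝ, P = L ^ (1 - η) := ⟨_, rfl⟩
  rw [← hP] at a3 ⊢
  have hPpos : 0 < P := by rw [hP]; exact Real.rpow_pos_of_pos hLpos _
  have b3 : (K + 3) * Real.log L ≤ P / 24 := by
    have h := mul_le_mul_of_nonneg_left a3 (by positivity : (0 : ℝ) ≤ K + 3)
    calc (K + 3) * Real.log L ≤ _ := h
      _ = P / 24 := by field_simp
  refine ⟨b3, ?_⟩
  intro t ht2 θ hθ0 hθ1 N N' hNr hN1 hN2 hcase
  have b2 : (K + 2) * Real.log L ≤ c' / 2 * L ^ (1 - 3 * η) := by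
    have h := mul_le_mul_of_nonneg_left a2 (by positivity : (0 : ℝ) ≤ K + 2)
    calc (K + 2) * Real.log L ≤ _ := h
      _ = c' / 2 * L ^ (1 - 3 * η) := by field_simp
  have b1 : C * (1 + 3 * (A : ℝ)) ^ C * L ^ (η * C) ≤ c' / 2 * L ^ (1 - 3 * η) := by
    have h1 : L ^ (1 - 3 * η) = L ^ (1 - 3 * η - η * C) * L ^ (η * C) := by
      rw [← Real.rpow_add hLpos]
      congr 1
      ring
    rw [h1, ← mul_assoc]
    refine mul_le_mul_of_nonneg_right ?_ (Real.rpow_nonneg hLpos.le _)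
    rw [div_le_iff₀ hc'0] at a1
    linarith
  have hLK : ∀ k : ℕ, L ^ k = Real.exp (k * Real.log L) := by
    intro k
    rw [mul_comm, Real.exp_mul, Real.exp_log hLpos, Real.rpow_natCast]
  have hex1 : 1 < Real.exp (P / 3) := Real.one_lt_exp_iff.2 (by positivity)
  have hNpos : (0 : ℝ) < N := lt_of_lt_of_le (Real.exp_pos _) hNr
  have hN2' : 2 ≤ N := by
    have h1 : (1 : ℝ) < N := by linarith
    have h2 : 1 < N := by exact_mod_cast h1
    omega
  have ht0 : 0 < |t| := lt_of_lt_of_le (Real.rpow_pos_of_pos hNpos _) hcase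
  have hlogN : P / 3 ≤ Real.log N := by
    rw [Real.le_log_iff_exp_le hNpos]
    exact hNr
  have hlogN0 : 0 < Real.log N := by linarith
  obtain ⟨κ, hκ⟩ : ∃ κ : ℝ, κ = Real.log |t| / Real.log N := ⟨_, rfl⟩
  have hκlog : κ * Real.log N = Real.log |t| := by rw [hκ]; field_simp
  have hκ1 : 1 / 2 ≤ κ := by
    rw [hκ, le_div_iff₀ hlogN0, Real.le_log_iff_exp_le ht0]
    rw [Real.rpow_def_of_pos hNpos] at hcase
    rw [mul_comm]
    exact hcase
  have htN : |t| = (N : ℝ) ^ κ := by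
    rw [Real.rpow_def_of_pos hNpos, mul_comm, hκlog, Real.exp_log ht0]
  refine (hZ N N' θ t κ hN2' hN1 hN2 hθ0 hθ1 hκ1 htN).trans ?_
  -- the size of kappa
  have hlogt : Real.log |t| ≤ A * L := by
    rw [Real.log_le_iff_le_exp ht0]
    exact ht2
  have hLη : 1 ≤ L ^ η := Real.one_le_rpow hL1 hη0.le
  have hPL : P * L ^ η = L := by
    rw [hP, ← Real.rpow_add hLpos]
    have : 1 - η + η = 1 := by ring
    rw [this, Real.rpow_one]
  have hκ2 : κ ≤ 3 * A * L ^ η := by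
    rw [hκ, div_le_iff₀ hlogN0]
    refine hlogt.trans ?_
    calc (A : ℝ) * L = 3 * A * L ^ η * (P / 3) := by
          have : (A : ℝ) * L = A * (P * L ^ η) := by rw [hPL]
          rw [this]; ring
      _ ≤ 3 * A * L ^ η * Real.log N := by
          refine mul_le_mul_of_nonneg_left hlogN (by positivity)
  have hκ3 : 1 + κ ≤ (1 + 3 * A) * L ^ η := by
    have e : (1 + 3 * (A : ℝ)) * L ^ η = L ^ η + 3 * A * L ^ η := by ring
    rw [e]
    linarith
  have hκ0 : 0 < 1 + κ := by linarith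
  have hf1 : C * (1 + κ) ^ C ≤ C * (1 + 3 * (A : ℝ)) ^ C * L ^ (η * C) := by
    have h1 : (1 + κ) ^ C ≤ ((1 + 3 * A) * L ^ η) ^ C := pow_le_pow_left₀ hκ0.le hκ3 C
    have h2 : ((1 + 3 * (A : ℝ)) * L ^ η) ^ C = (1 + 3 * (A : ℝ)) ^ C * L ^ (η * C) := by
      rw [mul_pow, ← Real.rpow_natCast (L ^ η) C, ← Real.rpow_mul hLpos.le]
    rw [h2] at h1
    rw [mul_assoc]
    exact mul_le_mul_of_nonneg_left h1 hC0
  have hf2 : c' * L ^ (1 - 3 * η) ≤ c / (1 + κ) ^ 2 * Real.log N := by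
    have h1 : (1 + κ) ^ 2 ≤ ((1 + 3 * A) * L ^ η) ^ 2 := pow_le_pow_left₀ hκ0.le hκ3 2
    have h2 : c / ((1 + 3 * A) * L ^ η) ^ 2 ≤ c / (1 + κ) ^ 2 :=
      div_le_div_of_nonneg_left hc.le (by positivity) h1
    have h3 : c' * L ^ (1 - 3 * η) = c / ((1 + 3 * A) * L ^ η) ^ 2 * (P / 3) := by
      have h4 : L ^ (1 - 3 * η) * (L ^ η) ^ 2 = P := by
        rw [← Real.rpow_natCast (L ^ η) 2, ← Real.rpow_mul hLpos.le, ← Real.rpow_add hLpos, hP]
        congr 1
        push_cast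
        ring
      rw [hc', ← h4]
      have h5 : L ^ η ≠ 0 := (Real.rpow_pos_of_pos hLpos _).ne'
      have h6 : (1 + 3 * (A : ℝ)) ≠ 0 := by positivity
      field_simp
    rw [h3]
    exact mul_le_mul h2 hlogN (by positivity) (by positivity)
  rw [Real.rpow_def_of_pos hNpos, ← Real.exp_add]
  have h7 : (N : ℝ) / L ^ (K + 2) = Real.exp (Real.log N - (K + 2) * Real.log L) := by
    rw [Real.exp_sub, Real.exp_log hNpos, hLK]
    push_cast
    ring
  rw [h7, Real.exp_le_exp]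
  have h8 : Real.log N * (1 - c / (1 + κ) ^ 2) = Real.log N - c / (1 + κ) ^ 2 * Real.log N := by
    ring
  rw [h8]
  linarith

/-- (10) moduli which are small compared with the length of the sum -/
theorem tbsmall : S_ZSX → S_TBSMALL := by
  rintro ⟨C, c, hc, -, hZ⟩
  have hC0 : (0 : ℝ) ≤ C := Nat.cast_nonneg C
  obtain ⟨η, hη⟩ : ∃ η : ℝ, η = 1 / (10 + C) := ⟨_, rfl⟩
  have hη0 : 0 < η := by rw [hη]; positivity
  have hη1 : η ≤ 1 / 10 := by
    rw [hη]
    exact one_div_le_one_div_of_le (by norm_num) (by linarith)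
  refine ⟨η, hη0, hη1, ?_⟩
  intro A K
  obtain ⟨L₀, hL₀, hblk⟩ := blk hc hZ η hη A K
  refine ⟨L₀, by linarith, ?_⟩
  intro L hL q χ t hq hχ ht N N' hNP hqN hN1 hN2
  obtain ⟨b3, hb⟩ := hblk L hL
  obtain ⟨P, hP⟩ : ∃ P : ℝ, P = L ^ (1 - η) := ⟨_, rfl⟩
  rw [← hP] at b3 hNP hb
  have hL16 : 16 ≤ L := hL₀.trans hL
  have hLpos : 0 < L := by linarith
  have hPpos : 0 < P := by rw [hP]; exact Real.rpow_pos_of_pos hLpos _
  have hlogL : 0 ≤ Real.log L := Real.log_nonneg (by linarith)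
  have hNpos : (0 : ℝ) < N := lt_of_lt_of_le (Real.exp_pos _) hNP
  have hNn : 1 ≤ N := by exact_mod_cast hNpos
  have hLK : ∀ k : ℕ, L ^ k = Real.exp (k * Real.log L) := by
    intro k
    rw [mul_comm, Real.exp_mul, Real.exp_log hLpos, Real.rpow_natCast]
  -- the fourth root of `N`
  obtain ⟨y, hy⟩ : ∃ y : ℝ, y = (N : ℝ) ^ (1 / 4 : ℝ) := ⟨_, rfl⟩
  have hy0 : 0 < y := by rw [hy]; exact Real.rpow_pos_of_pos hNpos _
  have hy4 : y ^ 4 = N := by
    rw [hy, ← Real.rpow_natCast, ← Real.rpow_mul hNpos.le]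
    norm_num
  have hyP : Real.exp (P / 4) ≤ y := by
    have h1 : Real.exp (P / 4) = (Real.exp P) ^ (1 / 4 : ℝ) := by
      rw [← Real.exp_mul]
      congr 1
      ring
    rw [h1, hy]
    exact Real.rpow_le_rpow (Real.exp_pos _).le hNP (by norm_num)
  have hyL : 16 * L ^ K ≤ y := by
    refine le_trans ?_ hyP
    calc 16 * L ^ K ≤ L * L ^ K := mul_le_mul_of_nonneg_right hL16 (by positivity)
      _ = L ^ (K + 1) := by ring
      _ = Real.exp ((K + 1 : ℕ) * Real.log L) := hLK _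
      _ ≤ Real.exp (P / 4) := by
          rw [Real.exp_le_exp]
          push_cast
          nlinarith
  have hLK1 : 1 ≤ L ^ K := one_le_pow₀ (by linarith)
  have hy16 : 16 ≤ y := by linarith
  rw [← hy] at hqN
  have hq0 : (0 : ℝ) < q := by exact_mod_cast hq
  -- small frequencies
  by_cases hcase : |t| ≤ y ^ 2
  · refine (small_freq χ hq hχ t N N' hNn hN1 hN2).trans ?_
    rw [← hy4, le_div_iff₀ (by positivity)]
    have h1 : (q : ℝ) * (1 + |t|) ≤ y * (1 + y ^ 2) :=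
      mul_le_mul hqN (by linarith) (by positivity) hy0.le
    have h2 : y * (1 + y ^ 2) ≤ 2 * y ^ 3 := by nlinarith
    calc (q : ℝ) * (1 + |t|) * L ^ K ≤ 2 * y ^ 3 * (y / 16) := by
          refine mul_le_mul (h1.trans h2) (by linarith) (by positivity) (by positivity)
      _ ≤ y ^ 4 := by
          have : 0 ≤ y ^ 4 := by positivity
          nlinarith
  push Not at hcase
  have hqNn : q ≤ N := by
    have h1 : (q : ℝ) ≤ N := by
      refine hqN.trans ?_
      rw [← hy4]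
      exact le_self_pow₀ (by linarith) (by norm_num)
    exact_mod_cast h1
  -- the residue classes
  have hcls : ∀ r ∈ range q, ‖∑ n ∈ (Ioc N N').filter (fun n => n % q = r),
      χ (n : ZMod q) * tw t n‖ ≤ N / q / L ^ (K + 2) + 2 := by
    intro r hr
    rw [mem_range] at hr
    refine (one_class χ hq t N N' r hr hqNn hN1).trans ?_
    obtain ⟨N1, hN1'⟩ : ∃ N1 : ℕ, N1 = (N - r) / q := ⟨_, rfl⟩
    obtain ⟨N2, hN2'⟩ : ∃ N2 : ℕ, N2 = (N' - r) / q := ⟨_, rfl⟩
    rw [← hN1', ← hN2']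
    have hθ1 : (r : ℝ) / q ≤ 1 := by
      rw [div_le_one hq0]
      exact_mod_cast hr.le
    have d1 := Nat.div_add_mod (N - r) q
    have d1' := Nat.mod_lt (N - r) (by omega : 0 < q)
    rw [← hN1'] at d1
    have hle : N1 ≤ N2 := by
      rw [hN1', hN2']
      exact Nat.div_le_div_right (by omega)
    have hle2 : N2 ≤ 2 * N1 + 2 := by
      have d2 : N2 * q ≤ N' - r := by
        rw [hN2']
        exact Nat.div_mul_le_self _ _
      have d3 : N2 * q < (2 * N1 + 3) * q := by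
        have e : (2 * N1 + 3) * q = 2 * (q * N1) + 3 * q := by ring
        omega
      have := Nat.lt_of_mul_lt_mul_right d3
      omega
    have hN1N : (N1 : ℝ) ≤ N / q := by
      rw [le_div_iff₀ hq0]
      have : N1 * q ≤ N := by
        rw [mul_comm]
        omega
      exact_mod_cast this
    have hN1y : y ^ 2 ≤ N1 := by
      have e1 : (N : ℝ) ≤ q * (N1 + 2) := by
        have : N ≤ q * (N1 + 2) := by
          have e : q * (N1 + 2) = q * N1 + 2 * q := by ring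
          omega
        exact_mod_cast this
      have e2 : y ^ 4 ≤ y * (N1 + 2) := by
        rw [hy4]
        exact e1.trans (mul_le_mul_of_nonneg_right hqN (by positivity))
      have e3 : y ^ 3 ≤ N1 + 2 := by
        have : y * y ^ 3 ≤ y * (N1 + 2) := by
          calc y * y ^ 3 = y ^ 4 := by ring
            _ ≤ _ := e2
        exact le_of_mul_le_mul_left this hy0
      nlinarith
    have hN1P : Real.exp (P / 3) ≤ N1 := by
      refine le_trans ?_ hN1y
      calc Real.exp (P / 3) ≤ Real.exp (P / 4) ^ 2 := by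
            rw [← Real.exp_nat_mul, Real.exp_le_exp]
            push_cast
            linarith
        _ ≤ y ^ 2 := pow_le_pow_left₀ (Real.exp_pos _).le hyP 2
    have hN1t : (N1 : ℝ) ^ (1 / 2 : ℝ) ≤ |t| := by
      refine le_trans ?_ hcase.le
      have e1 : (N1 : ℝ) ≤ y ^ 4 := by
        rw [hy4]
        exact hN1N.trans (div_le_self hNpos.le (by exact_mod_cast hq))
      calc (N1 : ℝ) ^ (1 / 2 : ℝ) ≤ (y ^ 4) ^ (1 / 2 : ℝ) :=
            Real.rpow_le_rpow (Nat.cast_nonneg _) e1 (by norm_num)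
        _ = y ^ 2 := by
            rw [← Real.rpow_natCast, ← Real.rpow_mul hy0.le, ← Real.rpow_natCast]
            norm_num
    -- the sum over the class
    have hmid : ‖∑ k ∈ Ioc N1 (min N2 (2 * N1)), tw t (k + (r : ℝ) / q)‖ ≤
        N1 / L ^ (K + 2) :=
      hb t ht _ (by positivity) hθ1 N1 _ hN1P (by omega) (by omega) hN1t
    rw [← Finset.sum_Ioc_consecutive _ (show N1 ≤ min N2 (2 * N1) by omega)
      (show min N2 (2 * N1) ≤ N2 by omega)]
    refine (norm_add_le _ _).trans (add_le_add ?_ ?_)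
    · refine hmid.trans ?_
      exact div_le_div_of_nonneg_right hN1N (by positivity)
    · refine (norm_sum_le _ _).trans ?_
      rw [Finset.sum_congr rfl (fun (m : ℕ) _ => norm_tw t ((m : ℝ) + (r : ℝ) / q)),
        Finset.sum_const, nsmul_eq_mul, mul_one, Nat.card_Ioc]
      exact_mod_cast (by omega : N2 - min N2 (2 * N1) ≤ 2)
  rw [← Finset.sum_fiberwise_of_maps_to (s := Ioc N N') (t := range q) (g := fun n => n % q)
    (fun n _ => mem_range.2 (Nat.mod_lt _ (by omega)))]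
  refine (norm_sum_le _ _).trans ((Finset.sum_le_sum hcls).trans ?_)
  rw [Finset.sum_const, card_range, nsmul_eq_mul]
  have f1 : (q : ℝ) * (N / q / L ^ (K + 2) + 2) = N / L ^ (K + 2) + 2 * q := by
    field_simp
  rw [f1]
  have f2 : (N : ℝ) / L ^ (K + 2) ≤ N / L ^ K / 2 := by
    rw [div_div]
    refine div_le_div_of_nonneg_left hNpos.le (by positivity) ?_
    have e : L ^ (K + 2) = L ^ K * L ^ 2 := by ring
    rw [e]
    refine mul_le_mul_of_nonneg_left (by nlinarith) (by positivity)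
  have f3 : 2 * (q : ℝ) ≤ N / L ^ K / 2 := by
    rw [div_div, le_div_iff₀ (by positivity), ← hy4]
    have e1 : 2 * (q : ℝ) * (L ^ K * 2) ≤ 2 * y * (y / 16 * 2) := by
      refine mul_le_mul (by linarith) (by linarith) (by positivity) (by positivity)
    refine e1.trans ?_
    have e2 : y ^ 2 ≤ y ^ 4 := pow_le_pow_right₀ (by linarith) (by norm_num)
    nlinarith
  linarith

end Pool.Agent.H588.PP
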