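import Pool.Agent.H567.PP.Stm
import Pool.Graph.R_seed8.Y70.VK.Tn

/-!
# Project PP: bilinear sums with one good coefficient (task PP-7, S_TNQ)
-/

set_option autoImplicit false

namespace Pool.Agent.H980.PP

open Finset
open Pool.Agent.Y957.VK
open Pool.Agent.H567.PP (S_TNQ)

theorem pow_le_exp' {r : ℕ} (hr : 1 ≤ r) : (1 - 1 / (r : ℝ)) ^ (r ^ 2) ≤ Real.exp (-r) := by
  have hr0 : (0 : ℝ) < r := by exact_mod_cast hr
  have hr1 : (1 : ℝ) ≤ r := by exact_mod_cast hr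
  have h0 : (0 : ℝ) ≤ 1 - 1 / r := by
    rw [sub_nonneg, div_le_one hr0]
    exact hr1
  have h1 : 1 - 1 / (r : ℝ) ≤ Real.exp (-(1 / r)) := by
    have := Real.add_one_le_exp (-(1 / (r : ℝ)))
    linarith
  have h2 : (1 - 1 / (r : ℝ)) ^ (r ^ 2) ≤ Real.exp (-(1 / r)) ^ (r ^ 2) :=
    pow_le_pow_left₀ h0 h1 _
  have h3 : Real.exp (-(1 / (r : ℝ))) ^ (r ^ 2) = Real.exp (-r) := by
    rw [← Real.exp_nat_mul]
    congr 1
    push_cast
    field_simp
  rw [h3] at h2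
  exact h2

theorem small {r : ℕ} (hr : 20 ≤ r) : (r : ℝ) * (r + 1) * Real.exp (-r) ≤ 1 / 100000 := by
  obtain ⟨k, rfl⟩ := Nat.exists_eq_add_of_le hr
  have hk : (0 : ℝ) ≤ k := Nat.cast_nonneg _
  push_cast
  have h1 : (1 + (k : ℝ) / 2) ^ 2 ≤ Real.exp k := by
    have h2 : 1 + (k : ℝ) / 2 ≤ Real.exp (k / 2) := by
      have := Real.add_one_le_exp ((k : ℝ) / 2)
      linarith
    calc (1 + (k : ℝ) / 2) ^ 2 ≤ Real.exp (k / 2) ^ 2 := pow_le_pow_left₀ (by positivity) h2 _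
      _ = Real.exp k := by
          rw [← Real.exp_nat_mul]
          congr 1
          push_cast
          ring
  have h2 : (42000000 : ℝ) ≤ Real.exp 20 := by
    have h5 : Real.exp 20 = Real.exp 1 ^ 20 := by
      rw [← Real.exp_nat_mul]
      norm_num
    have h6 : (2.7182818283 : ℝ) < Real.exp 1 := Real.exp_one_gt_d9
    rw [h5]
    calc (42000000 : ℝ) ≤ 2.7182818283 ^ 20 := by norm_num
      _ ≤ Real.exp 1 ^ 20 := pow_le_pow_left₀ (by norm_num) h6.le _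
  rw [Real.exp_neg, ← div_eq_mul_inv, div_le_iff₀ (Real.exp_pos _), Real.exp_add]
  calc (20 + (k : ℝ)) * (20 + k + 1) ≤ 420 * (1 + (k : ℝ) / 2) ^ 2 := by nlinarith
    _ ≤ 420 * Real.exp k := by gcongr
    _ = 1 / 100000 * (42000000 * Real.exp k) := by ring
    _ ≤ 1 / 100000 * (Real.exp 20 * Real.exp k) := by gcongr

theorem tnq' (h1 : S_VMVT) (h2 : S_DBL) (h3 : S_WB) : S_TNQ := by
  obtain ⟨C1, hV⟩ := h1
  refine ⟨2 * C1 * 2 ^ C1 + 2 * C1 + 2, ?_⟩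
  intro r s M i α Δ hr hs hM1 hi hΔ hWi
  obtain ⟨C, hC⟩ : ∃ C : ℕ, C = 2 * C1 * 2 ^ C1 + 2 * C1 + 2 := ⟨_, rfl⟩
  rw [← hC]
  have hM1r : (1 : ℝ) ≤ M := by exact_mod_cast hM1
  have hM0 : (0 : ℝ) < M := by linarith
  have hr20 : (20 : ℝ) ≤ r := by exact_mod_cast hr
  have hrs : r ≤ s := by
    rw [hs]
    nlinarith [Nat.zero_le (r ^ 3), Nat.zero_le (r ^ 2)]
  have hs1 : 1 ≤ s := by omega
  have hrsr : (r : ℝ) ≤ s := by exact_mod_cast hrs
  have hs0 : (0 : ℝ) < s := by linarith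
  have hs1r : (1 : ℝ) ≤ s := by exact_mod_cast hs1
  have hΔ0 : 0 < Δ := by linarith
  obtain ⟨l, hl⟩ : ∃ l : ℝ, l = Real.log M := ⟨_, rfl⟩
  have hl0 : 0 ≤ l := by rw [hl]; exact Real.log_nonneg hM1r
  rcases (norm_nonneg (TT r M α)).eq_or_lt with hT | hT
  · rw [← hT]
    positivity
  suffices hmain : Real.log ‖TT r M α‖ ≤
      2 * l + C * (r : ℝ) ^ C + (1 / 100000 * l - Real.log Δ) * (1 / (4 * (s : ℝ) ^ 2)) by
    rw [← Real.log_le_log_iff hT (by positivity), Real.log_mul (by positivity) (by positivity),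
      Real.log_mul (by positivity) (by positivity), Real.log_exp, Real.log_pow,
      Real.log_rpow (by positivity), Real.log_div (by positivity) (by positivity),
      Real.log_rpow hM0, ← hl]
    push_cast
    linarith
  have hJ := hV r (r ^ 2) M (by omega) hM1
  have hD := h2 s r M α hs1 (by omega) hM1
  have hrs' : r ^ 2 + r * r ^ 2 = s := by rw [hs]; ring
  rw [hrs'] at hJ
  obtain ⟨e, he⟩ : ∃ e : ℝ, e = 2 * (s : ℝ) - r * (r + 1) / 2 +
    r * (r + 1) / 2 * (1 - 1 / (r : ℝ)) ^ (r ^ 2) := ⟨_, rfl⟩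
  have hJ' : (J s r M : ℝ) ≤ Real.exp (C1 * ((r : ℝ) + r ^ 2) ^ C1) * (M : ℝ) ^ e := by
    rw [he]
    refine hJ.trans (le_of_eq ?_)
    rw [hs]
    push_cast
    congr 2
    ring
  have hTpow : 0 < ‖TT r M α‖ ^ (4 * s ^ 2) := pow_pos hT _
  have hprod : 0 < (M : ℝ) ^ (8 * s ^ 2 - 4 * s) *
      (J s r M : ℝ) ^ 2 * ∏ j ∈ Finset.Icc 1 r, WJ s M j (α j) :=
    hTpow.trans_le hD
  have hJpos : (0 : ℝ) < J s r M := by
    rcases (Nat.cast_nonneg (α := ℝ) (J s r M)).eq_or_lt with h | h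
    · rw [← h] at hprod
      simp at hprod
    · exact h
  have hWnn : ∀ j, 0 ≤ WJ s M j (α j) := by
    intro j
    unfold WJ
    refine Finset.sum_nonneg fun u _ => ?_
    unfold mn dz
    split_ifs
    · positivity
    · refine le_min (by positivity) ?_
      have := abs_nonneg (α j * u - round (α j * u))
      positivity
  have hWpos : ∀ j ∈ Finset.Icc 1 r, 0 < WJ s M j (α j) := by
    intro j hj
    rcases (hWnn j).eq_or_lt with h | h
    · rw [Finset.prod_eq_zero hj h.symm, mul_zero] at hprod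
      exact absurd hprod (lt_irrefl _)
    · exact h
  have hlogJ : Real.log (J s r M : ℝ) ≤ C1 * ((r : ℝ) + r ^ 2) ^ C1 + e * l := by
    refine (Real.log_le_log hJpos hJ').trans (le_of_eq ?_)
    rw [Real.log_mul (Real.exp_pos _).ne' (Real.rpow_pos_of_pos (by linarith) _).ne',
      Real.log_exp, Real.log_rpow (by linarith), hl]
  have hl3 : 0 ≤ Real.log (3 * s) := Real.log_nonneg (by linarith)
  have hlogW : ∀ j ∈ Finset.Icc 1 r, Real.log (WJ s M j (α j)) ≤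
      2 * (j : ℝ) * l + 2 * Real.log (3 * s) - (if j = i then Real.log Δ else 0) := by
    intro j hj
    have hM2j : Real.log ((M : ℝ) ^ (2 * j)) = 2 * (j : ℝ) * l := by
      rw [Real.log_pow, hl]
      push_cast
      ring
    have hMp : (0 : ℝ) < (M : ℝ) ^ (2 * j) := by positivity
    split_ifs with hg
    · subst hg
      refine (Real.log_le_log (hWpos j hj) hWi).trans ?_
      rw [Real.log_div (by positivity) (by positivity), hM2j]
      linarith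
    · have k1 := (h3 s M j (α j) hs1 hM1).1
      have k2 : (2 * (s * M ^ j : ℕ) + 1 : ℝ) ≤ 3 * s * (M : ℝ) ^ j := by
        have k3 : (1 : ℝ) ≤ s * (M : ℝ) ^ j := by
          have := one_le_pow₀ (n := j) hM1r
          nlinarith
        push_cast
        linarith
      have k3 : WJ s M j (α j) ≤ (3 * s * (M : ℝ) ^ j) ^ 2 :=
        k1.trans (pow_le_pow_left₀ (by positivity) k2 _)
      refine (Real.log_le_log (hWpos j hj) k3).trans ?_
      rw [Real.log_pow, Real.log_mul (by positivity) (by positivity), Real.log_pow, ← hl]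
      push_cast
      linarith
  have hsum : ∑ j ∈ Finset.Icc 1 r, Real.log (WJ s M j (α j)) ≤
      r * (r + 1) * l + r * (2 * Real.log (3 * s)) - Real.log Δ := by
    refine (Finset.sum_le_sum hlogW).trans (le_of_eq ?_)
    rw [Finset.sum_sub_distrib, Finset.sum_add_distrib, ← Finset.sum_mul,
      Pool.Agent.Y70.VK.sum_two_mul, Finset.sum_const, Nat.card_Icc, Finset.sum_ite_eq',
      if_pos hi]
    simp only [Nat.add_sub_cancel, nsmul_eq_mul]
  have hlogD : ((4 * s ^ 2 : ℕ) : ℝ) * Real.log ‖TT r M α‖ ≤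
      ((8 * s ^ 2 - 4 * s : ℕ) : ℝ) * l +
        2 * Real.log (J s r M : ℝ) +
        ∑ j ∈ Finset.Icc 1 r, Real.log (WJ s M j (α j)) := by
    have k1 := Real.log_le_log hTpow hD
    have k2 : (0 : ℝ) < ∏ j ∈ Finset.Icc 1 r, WJ s M j (α j) :=
      Finset.prod_pos hWpos
    rw [Real.log_mul (by positivity) k2.ne', Real.log_mul (by positivity) (by positivity),
      Real.log_pow, Real.log_pow, Real.log_pow, Real.log_prod (fun j hj => (hWpos j hj).ne'),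
      ← hl] at k1
    exact_mod_cast k1
  have hcast1 : ((4 * s ^ 2 : ℕ) : ℝ) = 4 * (s : ℝ) ^ 2 := by push_cast; ring
  have hcast2 : ((8 * s ^ 2 - 4 * s : ℕ) : ℝ) = 8 * (s : ℝ) ^ 2 - 4 * s := by
    rw [Nat.cast_sub]
    · push_cast
      ring
    · nlinarith
  rw [hcast1, hcast2] at hlogD
  have hη : (r : ℝ) * (r + 1) * (1 - 1 / (r : ℝ)) ^ (r ^ 2) ≤ 1 / 100000 := by
    refine le_trans ?_ (small hr)
    have := pow_le_exp' (r := r) (by omega)
    gcongr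
  have hηl : (r : ℝ) * (r + 1) * (1 - 1 / (r : ℝ)) ^ (r ^ 2) * l ≤ 1 / 100000 * l := by
    gcongr
  have hlog3 : Real.log (3 * s) ≤ 3 * s := by
    have := Real.log_le_sub_one_of_pos (show (0 : ℝ) < 3 * s by positivity)
    linarith
  have hrl : r * (2 * Real.log (3 * s)) ≤ 6 * (s : ℝ) ^ 2 := by
    calc r * (2 * Real.log (3 * s)) ≤ s * (2 * (3 * s)) := by gcongr
      _ = _ := by ring
  have hA : 2 * (C1 * ((r : ℝ) + r ^ 2) ^ C1) + 6 * (s : ℝ) ^ 2 ≤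
      4 * (s : ℝ) ^ 2 * (C * (r : ℝ) ^ C) := by
    have k1 : (r : ℝ) + r ^ 2 ≤ 2 * r ^ 2 := by nlinarith
    have k2 : ((r : ℝ) + r ^ 2) ^ C1 ≤ 2 ^ C1 * (r : ℝ) ^ (2 * C1) := by
      calc ((r : ℝ) + r ^ 2) ^ C1 ≤ (2 * (r : ℝ) ^ 2) ^ C1 :=
            pow_le_pow_left₀ (by positivity) k1 _
        _ = _ := by rw [mul_pow, ← pow_mul]
    have hrC : (1 : ℝ) ≤ (r : ℝ) ^ C := one_le_pow₀ (by linarith)
    have k3 : (r : ℝ) ^ (2 * C1) ≤ (r : ℝ) ^ C := by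
      apply pow_le_pow_right₀ (by linarith)
      rw [hC]
      omega
    have hc1 : (0 : ℝ) ≤ C1 := Nat.cast_nonneg _
    have k4 : 2 * (C1 * ((r : ℝ) + r ^ 2) ^ C1) ≤ (2 * C1 * 2 ^ C1) * (r : ℝ) ^ C := by
      calc 2 * (C1 * ((r : ℝ) + r ^ 2) ^ C1) ≤ 2 * (C1 * (2 ^ C1 * (r : ℝ) ^ C)) := by
            gcongr
            exact k2.trans (by gcongr)
        _ = _ := by ring
    have hs2 : (1 : ℝ) ≤ (s : ℝ) ^ 2 := one_le_pow₀ hs1r
    have hCr : (C : ℝ) = 2 * C1 * 2 ^ C1 + 2 * C1 + 2 := by rw [hC]; push_cast; ring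
    have hX : (0 : ℝ) ≤ 2 * C1 * 2 ^ C1 * (r : ℝ) ^ C := by positivity
    calc 2 * (C1 * ((r : ℝ) + r ^ 2) ^ C1) + 6 * (s : ℝ) ^ 2
        ≤ (2 * C1 * 2 ^ C1) * (r : ℝ) ^ C + 6 * (s : ℝ) ^ 2 := by linarith
      _ ≤ (4 * (s : ℝ) ^ 2) * ((2 * C1 * 2 ^ C1) * (r : ℝ) ^ C) +
          4 * (s : ℝ) ^ 2 * (2 * (r : ℝ) ^ C) := by nlinarith
      _ = 4 * (s : ℝ) ^ 2 * ((2 * C1 * 2 ^ C1 + 2) * (r : ℝ) ^ C) := by ring
      _ ≤ 4 * (s : ℝ) ^ 2 * (C * (r : ℝ) ^ C) := by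
          rw [hCr]
          gcongr
          linarith
  have hs4 : (0 : ℝ) < 4 * (s : ℝ) ^ 2 := by positivity
  refine le_of_mul_le_mul_left ?_ hs4
  have hR : 4 * (s : ℝ) ^ 2 * (2 * l + C * (r : ℝ) ^ C +
      (1 / 100000 * l - Real.log Δ) * (1 / (4 * (s : ℝ) ^ 2))) =
      8 * (s : ℝ) ^ 2 * l + 4 * (s : ℝ) ^ 2 * (C * (r : ℝ) ^ C) + (1 / 100000 * l - Real.log Δ) := by
    field_simp
    ring
  rw [hR]
  rw [he] at hlogJ
  nlinarith

theorem tnq : S_VMVT → S_DBL → S_WB → S_TNQ := tnq'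

end Pool.Agent.H980.PP
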