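import Pool.Agent.H567.PP.Stm2

set_option autoImplicit false

/-!
# PP-16: the cells of the primes (helper974)
-/

namespace Pool.Agent.H974.PP

open Finset
open Pool.Agent.H567.PP
open Pool.Agent.helper24_UT (tw)
open Pool.Agent.R460.GS (a1 a2)

theorem cell1 : S_PINT → S_CELL1 := by
  classical
  rintro ⟨η, hη0, hη1, H⟩
  refine ⟨η, hη0, hη1, fun B K => ?_⟩
  obtain ⟨L₀, hL₀, HL⟩ := H B (K + 1)
  refine ⟨L₀, hL₀, fun L hL q χ t hχ hrad hq hqe ht c hc W Z j X hW hZ => ?_⟩
  have hL2 : (2 : ℝ) ≤ L := le_trans hL₀ hL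
  have hLpos : (0 : ℝ) < L := by linarith
  have hLK : (0 : ℝ) < L ^ K := pow_pos hLpos K
  have hW1 : 1 ≤ W := by
    have h1 : (1 : ℝ) ≤ W := le_trans (Real.one_le_exp (Real.rpow_nonneg hLpos.le _)) hW
    exact_mod_cast h1
  set A : Finset ℕ := (Ico X (2 * X)).filter (fun m => W < m ∧ m ≤ Z ∧ c m = j) with hA
  have hsum : ∑ m ∈ Ico X (2 * X), a1 W Z c j m * (χ (m : ZMod q) * tw t m) =
      ∑ p ∈ A.filter Nat.Prime, χ (p : ZMod q) * tw t p := by
    rw [hA, filter_filter, sum_filter]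
    refine sum_congr rfl fun m _ => ?_
    unfold a1
    by_cases h : (m.Prime ∧ W < m ∧ m ≤ Z) ∧ c m = j
    · rw [if_pos h, if_pos ⟨⟨h.1.2.1, h.1.2.2, h.2⟩, h.1.1⟩, one_mul]
    · rw [if_neg h, if_neg (fun h' => h ⟨⟨h'.2, h'.1.1, h'.1.2.1⟩, h'.1.2.2⟩), zero_mul]
  rw [hsum]
  rcases A.eq_empty_or_nonempty with hAe | hAn
  · rw [hAe, filter_empty, sum_empty, norm_zero]
    positivity
  · set u := A.min' hAn with hu
    set v := A.max' hAn with hv
    have hum : u ∈ A := A.min'_mem hAn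
    have hvm : v ∈ A := A.max'_mem hAn
    have hu' := hum
    have hv' := hvm
    rw [hA, mem_filter, mem_Ico] at hu' hv'
    have huv : u ≤ v := A.min'_le v hvm
    have hu1 : 1 ≤ u := by omega
    have hAeq : A = Ioc (u - 1) v := by
      ext m
      rw [mem_Ioc]
      constructor
      · intro hm
        have h1 : u ≤ m := A.min'_le m hm
        have h2 : m ≤ v := A.le_max' m hm
        omega
      · rintro ⟨h1, h2⟩
        have h3 : u ≤ m := by omega
        have h4 := hc u m hu1 h3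
        have h5 := hc m v (by omega) h2
        rw [hA, mem_filter, mem_Ico]
        refine ⟨⟨by omega, by omega⟩, by omega, by omega, ?_⟩
        omega
    rw [hAeq]
    have hy1 : Real.exp (L ^ (1 - η)) ≤ (v : ℝ) := by
      refine le_trans hW ?_
      have : W ≤ v := by omega
      exact_mod_cast this
    have hy2 : (v : ℝ) ≤ Real.exp L := by
      refine le_trans ?_ hZ
      exact_mod_cast hv'.2.2.1
    have hb := HL L hL q χ t hχ hrad hq hqe ht (u - 1) v (by omega) hy1 hy2
    refine le_trans hb ?_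
    have hvX : (v : ℝ) ≤ 2 * X := by
      have : v ≤ 2 * X := by omega
      exact_mod_cast this
    rw [pow_succ, div_le_div_iff₀ (by positivity) hLK]
    have hX0 : (0 : ℝ) ≤ X := Nat.cast_nonneg X
    calc (v : ℝ) * L ^ K ≤ (2 * X) * L ^ K := mul_le_mul_of_nonneg_right hvX hLK.le
      _ = X * (L ^ K * 2) := by ring
      _ ≤ X * (L ^ K * L) := by
          refine mul_le_mul_of_nonneg_left ?_ hX0
          exact mul_le_mul_of_nonneg_left hL2 hLK.le

end Pool.Agent.H974.PP
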