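import Pool.Agent.H567.PP.Stm2

/-!
# Project PP (helper567), job 17: the cells of the divisors
-/

set_option autoImplicit false

namespace Pool.Agent.H740.PP

open Finset
open Pool.Agent.helper24_UT (tw)
open Pool.Agent.R460.GS (a2 pmx mu Sm pmx_mem le_pmx mu_mul_prime)
open Pool.Agent.H567.PP

lemma tw_norm (t x : ℝ) : ‖tw t x‖ = 1 := by
  unfold tw Pool.Agent.H376R2.MR.er
  exact Complex.norm_exp_ofReal_mul_I _

lemma tw_mul (t : ℝ) {x y : ℝ} (hx : x ≠ 0) (hy : y ≠ 0) : tw t (x * y) = tw t x * tw t y := by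
  unfold tw Pool.Agent.H376R2.MR.er
  rw [Real.log_mul hx hy, ← Complex.exp_add]
  congr 1
  push_cast
  ring

lemma convex_Ioc {I : Finset ℕ} (hne : I.Nonempty) (h1 : ∀ a ∈ I, 1 ≤ a)
    (hc : ∀ a ∈ I, ∀ b ∈ I, ∀ n, a ≤ n → n ≤ b → n ∈ I) :
    ∃ x y, x ≤ y ∧ y ∈ I ∧ (∀ a ∈ I, a ≤ y) ∧ I = Ioc x y := by
  have h0 := I.le_max' _ (I.min'_mem hne)
  refine ⟨I.min' hne - 1, I.max' hne, by omega, I.max'_mem hne, fun a ha => I.le_max' a ha, ?_⟩
  ext n
  have hm := h1 _ (I.min'_mem hne)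
  rw [mem_Ioc]
  constructor
  · intro hn
    have h3 := I.min'_le n hn
    have h4 := I.le_max' n hn
    omega
  · rintro ⟨h3, h4⟩
    exact hc _ (I.min'_mem hne) _ (I.max'_mem hne) n (by omega) h4

lemma not_dvd_of {p e : ℕ} (hp : p.Prime) (he : 1 ≤ e) (h : ∀ r ∈ e.primeFactors, r < p) :
    ¬ p ∣ e := fun hd => (h p (Nat.mem_primeFactors.2 ⟨hp, hd, by omega⟩)).false

lemma pmx_mul {p e : ℕ} (hp : p.Prime) (he : 1 ≤ e) (h : ∀ r ∈ e.primeFactors, r < p) :
    pmx (p * e) = p := by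
  apply le_antisymm
  · refine Finset.sup_le fun b hb => ?_
    rw [Nat.mem_primeFactors] at hb
    rcases (Nat.Prime.dvd_mul hb.1).1 hb.2.1 with h1 | h1
    · exact Nat.le_of_dvd hp.pos h1
    · exact (h b (Nat.mem_primeFactors.2 ⟨hb.1, h1, by omega⟩)).le
  · exact le_pmx (Nat.mem_primeFactors.2 ⟨hp, dvd_mul_right _ _, mul_ne_zero hp.ne_zero (by omega)⟩)

lemma mu_abs (e : ℕ) : |mu e| ≤ 1 := by
  unfold mu
  have h := ArithmeticFunction.abs_moebius_le_one (n := e)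
  exact_mod_cast h

theorem cell2 : S_PINT → S_SMOOTH → S_CELL2 := by
  classical
  rintro ⟨η, hη0, hη1, hP⟩ hSm k B K hk
  obtain ⟨L₁, hL1, hP⟩ := hP B (K + 3)
  obtain ⟨L₂, hL2, hSm⟩ := hSm η hη0 (by linarith) k (K + 1) hk
  refine ⟨max 3 (max L₁ L₂), (by norm_num : (2 : ℝ) ≤ 3).trans (le_max_left _ _), ?_⟩
  intro L hL q χ t hχ hrad hq1 hq2 ht c hc W j X hW1 hW2
  have hL3 : 3 ≤ L := (le_max_left _ _).trans hL
  have hL1' : L₁ ≤ L := (le_max_left _ _).trans ((le_max_right _ _).trans hL)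
  have hL2' : L₂ ≤ L := (le_max_right _ _).trans ((le_max_right _ _).trans hL)
  have hL0 : 0 < L := by linarith
  have hW0 : 1 ≤ W := by
    by_contra h
    have h0 : W = 0 := by omega
    rw [h0] at hW1
    have := Real.exp_pos (L / k)
    rw [Nat.cast_zero, mul_zero] at hW1
    linarith
  set S : Finset ℕ := (Ico X (2 * X)).filter
    (fun m => (Sm W m ∧ W < m ∧ m / pmx m ≤ W) ∧ c (pmx m) = j) with hS
  have hsum : ∑ m ∈ Ico X (2 * X), a2 W W c j m * (χ (m : ZMod q) * tw t m) =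
      ∑ m ∈ S, ((mu m : ℝ) : ℂ) * (χ (m : ZMod q) * tw t m) := by
    rw [hS, sum_filter]
    refine sum_congr rfl fun m _ => ?_
    unfold a2
    split_ifs
    · rfl
    · rw [zero_mul]
  rw [hsum]
  rcases S.eq_empty_or_nonempty with hSe | hSne
  · rw [hSe, sum_empty, norm_zero]
    positivity
  have hmem : ∀ m ∈ S, m ∈ Ico X (2 * X) ∧ Sm W m ∧ W < m ∧ m / pmx m ≤ W ∧ c (pmx m) = j ∧
      pmx m ∈ m.primeFactors ∧ m = pmx m * (m / pmx m) ∧ 1 ≤ m / pmx m ∧ pmx m ≤ W := by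
    intro m hm
    rw [hS, mem_filter] at hm
    obtain ⟨h1, ⟨h2, h3, h4⟩, h5⟩ := hm
    have h6 := pmx_mem (e := m) (by omega)
    have h7 := Nat.dvd_of_mem_primeFactors h6
    have h8 := Nat.prime_of_mem_primeFactors h6
    exact ⟨h1, h2, h3, h4, h5, h6, (Nat.mul_div_cancel' h7).symm,
      Nat.div_pos (Nat.le_of_dvd (by omega) h7) h8.pos, h2.2 _ h6⟩
  obtain ⟨m₀, hm₀⟩ := hSne
  obtain ⟨g1, g2, g3, g4, g5, g6, g7, g8, g9⟩ := hmem m₀ hm₀
  rw [mem_Ico] at g1
  have hX1 : Real.exp (L / k) ≤ 4 * X := by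
    have : (W : ℝ) < 2 * X := by exact_mod_cast (lt_trans g3 g1.2)
    linarith
  have hX2 : (X : ℝ) ≤ Real.exp (2 * L) := by
    have h1 : X ≤ W * W := by
      calc X ≤ m₀ := g1.1
        _ = pmx m₀ * (m₀ / pmx m₀) := g7
        _ ≤ W * W := Nat.mul_le_mul g9 g4
    have h2 : (X : ℝ) ≤ W * W := by exact_mod_cast h1
    have h3 : Real.exp (2 * L) = Real.exp L * Real.exp L := by
      rw [← Real.exp_add]
      ring_nf
    rw [h3]
    exact h2.trans (mul_le_mul hW2 hW2 (by positivity) (by positivity))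
  obtain ⟨Sf, hSf, hSfc⟩ : ∃ Sf : Finset ℕ, (∀ m, m ∈ Sf ↔ m ∈ Ico X (2 * X) ∧ Squarefree m ∧
      ∀ p, p ∈ m.primeFactors → (p : ℝ) ≤ Real.exp (L ^ (1 - η))) ∧
      (Sf.card : ℝ) ≤ X / L ^ (K + 1) :=
    ⟨_, fun m => mem_filter, hSm L hL2' X hX1 hX2⟩
  have hkey : ∀ e ∈ Icc 1 W,
      ‖∑ m ∈ S.filter (fun m => m / pmx m = e), ((mu m : ℝ) : ℂ) * (χ (m : ZMod q) * tw t m)‖ ≤
        2 * X / L ^ (K + 3) * (e : ℝ)⁻¹ + (((S.filter (fun m => m / pmx m = e)) ∩ Sf).card : ℝ) := by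
    intro e he
    rw [mem_Icc] at he
    rcases (S.filter (fun m => m / pmx m = e)).eq_empty_or_nonempty with hf | ⟨m₁, hm₁⟩
    · rw [hf, sum_empty, norm_zero]
      exact add_nonneg (by positivity) (Nat.cast_nonneg _)
    rw [mem_filter] at hm₁
    have hesq : Squarefree e := by
      obtain ⟨-, b2, -, -, -, b6, -⟩ := hmem m₁ hm₁.1
      rw [← hm₁.2]
      exact b2.1.squarefree_of_dvd (Nat.div_dvd_of_dvd (Nat.dvd_of_mem_primeFactors b6))
    set I : Finset ℕ := (Icc 1 W).filter (fun p => (∀ r ∈ e.primeFactors, r < p) ∧ W < p * e ∧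
      X ≤ p * e ∧ p * e < 2 * X ∧ c p = j) with hI
    have hfib : ∀ m ∈ S, m / pmx m = e → pmx m ∈ I := by
      intro m hm hme
      obtain ⟨b1, b2, b3, b4, b5, b6, b7, b8, b9⟩ := hmem m hm
      rw [mem_Ico] at b1
      rw [hme] at b7
      have hp := Nat.prime_of_mem_primeFactors b6
      rw [hI, mem_filter, mem_Icc]
      refine ⟨⟨hp.one_le, b9⟩, ?_, by rw [← b7]; exact b3, by rw [← b7]; exact b1.1,
        by rw [← b7]; exact b1.2, b5⟩
      intro r hr
      have hrm : r ∈ m.primeFactors := Nat.mem_primeFactors.2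
        ⟨Nat.prime_of_mem_primeFactors hr, (Nat.dvd_of_mem_primeFactors hr).trans
          (by rw [← hme]; exact Nat.div_dvd_of_dvd (Nat.dvd_of_mem_primeFactors b6)), by omega⟩
      refine lt_of_le_of_ne (le_pmx hrm) ?_
      intro hreq
      have h2 : r * r ∣ m := by
        have h3 : r * r ∣ pmx m * e := by
          rw [← hreq]
          exact Nat.mul_dvd_mul_left r (Nat.dvd_of_mem_primeFactors hr)
        rwa [← b7] at h3
      have h4 := b2.1 r h2
      exact (Nat.prime_of_mem_primeFactors hr).one_lt.ne' (Nat.isUnit_iff.1 h4)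
    have hbij : ∀ f : ℕ → ℂ, ∑ m ∈ S.filter (fun m => m / pmx m = e), f m =
        ∑ p ∈ I.filter Nat.Prime, f (p * e) := by
      intro f
      refine sum_nbij' (fun m => pmx m) (fun p => p * e) ?_ ?_ ?_ ?_ ?_
      · intro m hm
        rw [mem_filter] at hm
        exact mem_filter.2 ⟨hfib m hm.1 hm.2,
          Nat.prime_of_mem_primeFactors (hmem m hm.1).2.2.2.2.2.1⟩
      · intro p hp
        rw [mem_filter, hI, mem_filter, mem_Icc] at hp
        obtain ⟨⟨⟨c1, c2⟩, c3, c4, c5, c6, c7⟩, c8⟩ := hp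
        have d1 := pmx_mul c8 he.1 c3
        have d2 : p * e / p = e := Nat.mul_div_cancel_left e c8.pos
        rw [mem_filter, hS, mem_filter, mem_Ico, d1, d2]
        refine ⟨⟨⟨c5, c6⟩, ⟨⟨?_, ?_⟩, c4, he.2⟩, c7⟩, rfl⟩
        · exact (Nat.squarefree_mul ((Nat.Prime.coprime_iff_not_dvd c8).2
            (not_dvd_of c8 he.1 c3))).2 ⟨c8.squarefree, hesq⟩
        · intro r hr
          have := le_pmx hr
          rw [d1] at this
          omega
      · intro m hm
        rw [mem_filter] at hm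
        have b7 := (hmem m hm.1).2.2.2.2.2.2.1
        rw [hm.2] at b7
        exact b7.symm
      · intro p hp
        rw [mem_filter, hI, mem_filter, mem_Icc] at hp
        exact pmx_mul hp.2 he.1 hp.1.2.1
      · intro m hm
        rw [mem_filter] at hm
        have b7 := (hmem m hm.1).2.2.2.2.2.2.1
        rw [hm.2] at b7
        rw [← b7]
    have hIne : I.Nonempty := ⟨_, hfib m₁ hm₁.1 hm₁.2⟩
    obtain ⟨x, y, hxy, hyI, hymax, hIeq⟩ := convex_Ioc hIne (fun a ha => by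
      rw [hI, mem_filter, mem_Icc] at ha
      exact ha.1.1) (fun a ha b hb n han hnb => by
      rw [hI, mem_filter, mem_Icc] at ha hb ⊢
      obtain ⟨⟨a1, a2⟩, a3, a4, a5, a6, a7⟩ := ha
      obtain ⟨⟨b1, b2⟩, b3, b4, b5, b6, b7⟩ := hb
      have hh1 := Nat.mul_le_mul_right e han
      have hh2 := Nat.mul_le_mul_right e hnb
      refine ⟨⟨by omega, by omega⟩, fun r hr => (a3 r hr).trans_le han, by omega, by omega,
        by omega, ?_⟩
      have hh3 := hc a n a1 han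
      have hh4 := hc n b (by omega) hnb
      omega)
    have hyI' := hyI
    rw [hI, mem_filter, mem_Icc] at hyI'
    obtain ⟨⟨y1, y2⟩, -, -, -, y6, -⟩ := hyI'
    rcases le_or_gt (Real.exp (L ^ (1 - η))) y with hy | hy
    · have hval : ∑ m ∈ S.filter (fun m => m / pmx m = e),
          ((mu m : ℝ) : ℂ) * (χ (m : ZMod q) * tw t m) =
          -((mu e : ℝ) : ℂ) * (χ (e : ZMod q) * tw t e) *
            ∑ p ∈ (Ioc x y).filter Nat.Prime, χ (p : ZMod q) * tw t p := by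
        rw [hbij, hIeq, mul_sum]
        refine sum_congr rfl fun p hp => ?_
        rw [mem_filter, ← hIeq, hI, mem_filter, mem_Icc] at hp
        obtain ⟨⟨⟨c1, c2⟩, c3, -⟩, c8⟩ := hp
        have hp0 : (p : ℝ) ≠ 0 := Nat.cast_ne_zero.2 (by omega)
        have he0 : (e : ℝ) ≠ 0 := Nat.cast_ne_zero.2 (by omega)
        rw [mu_mul_prime c8 (not_dvd_of c8 he.1 c3), Nat.cast_mul, Nat.cast_mul, map_mul,
          tw_mul t hp0 he0, Complex.ofReal_neg]
        ring
      have hbound := hP L hL1' q χ t hχ hrad hq1 hq2 ht x y hxy hy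
        ((by exact_mod_cast y2 : (y : ℝ) ≤ W).trans hW2)
      rw [hval, norm_mul, norm_mul, norm_mul, norm_neg, tw_norm, mul_one, Complex.norm_real]
      have n1 : ‖mu e‖ ≤ 1 := mu_abs e
      have n2 : ‖χ (e : ZMod q)‖ ≤ 1 := DirichletCharacter.norm_le_one χ _
      have n3 : ‖mu e‖ * ‖χ (e : ZMod q)‖ ≤ 1 := mul_le_one₀ n1 (norm_nonneg _) n2
      have he0 : (0 : ℝ) < e := by exact_mod_cast he.1
      have n4 : (y : ℝ) ≤ 2 * X * (e : ℝ)⁻¹ := by
        rw [← div_eq_mul_inv, le_div_iff₀ he0]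
        exact_mod_cast y6.le
      have hLK : 0 < L ^ (K + 3) := by positivity
      calc ‖mu e‖ * ‖χ (e : ZMod q)‖ * ‖∑ p ∈ (Ioc x y).filter Nat.Prime, χ (p : ZMod q) * tw t p‖
          ≤ 1 * (y / L ^ (K + 3)) := mul_le_mul n3 hbound (norm_nonneg _) zero_le_one
        _ ≤ 1 * (2 * X * (e : ℝ)⁻¹ / L ^ (K + 3)) := by gcongr
        _ = 2 * X / L ^ (K + 3) * (e : ℝ)⁻¹ := by ring
        _ ≤ _ := by
          have : (0 : ℝ) ≤ (((S.filter (fun m => m / pmx m = e)) ∩ Sf).card : ℝ) := Nat.cast_nonneg _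
          linarith
    · have hsub : (S.filter (fun m => m / pmx m = e)) ∩ Sf = S.filter (fun m => m / pmx m = e) := by
        rw [inter_eq_left]
        intro m hm
        rw [mem_filter] at hm
        obtain ⟨b1, b2, -⟩ := hmem m hm.1
        rw [hSf]
        refine ⟨b1, b2.1, fun r hr => ?_⟩
        have h1 := le_pmx hr
        have h2 := hymax _ (hfib m hm.1 hm.2)
        have h3 : (r : ℝ) ≤ y := by exact_mod_cast h1.trans h2
        exact h3.trans hy.le
      rw [hsub]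
      have h1 : ‖∑ m ∈ S.filter (fun m => m / pmx m = e),
          ((mu m : ℝ) : ℂ) * (χ (m : ZMod q) * tw t m)‖ ≤
          ∑ m ∈ S.filter (fun m => m / pmx m = e), (1 : ℝ) := by
        refine norm_sum_le_of_le _ fun m _ => ?_
        rw [norm_mul, norm_mul, tw_norm, mul_one, Complex.norm_real]
        exact mul_le_one₀ (mu_abs m) (norm_nonneg _) (DirichletCharacter.norm_le_one χ _)
      rw [sum_const, nsmul_eq_mul, mul_one] at h1
      have h2 : 0 ≤ 2 * X / L ^ (K + 3) * (e : ℝ)⁻¹ := by positivity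
      linarith
  have hmaps : ∀ m ∈ S, m / pmx m ∈ Icc 1 W := fun m hm => by
    obtain ⟨-, -, -, b4, -, -, -, b8, -⟩ := hmem m hm
    exact mem_Icc.2 ⟨b8, b4⟩
  rw [← sum_fiberwise_of_maps_to hmaps]
  refine (norm_sum_le_of_le _ hkey).trans ?_
  rw [sum_add_distrib, ← mul_sum]
  have hcard : ∑ e ∈ Icc 1 W, (((S.filter (fun m => m / pmx m = e)) ∩ Sf).card : ℝ) ≤
      X / L ^ (K + 1) := by
    refine le_trans ?_ hSfc
    have h1 : ∑ e ∈ Icc 1 W, ((S.filter (fun m => m / pmx m = e)) ∩ Sf).card ≤ Sf.card := by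
      have h2 := card_eq_sum_card_fiberwise (s := S ∩ Sf) (t := Icc 1 W) (f := fun m => m / pmx m)
        (fun m hm => hmaps m (mem_inter.1 (mem_coe.1 hm)).1)
      have h3 : (S ∩ Sf).card ≤ Sf.card := card_le_card inter_subset_right
      rw [h2] at h3
      refine le_trans (le_of_eq ?_) h3
      refine sum_congr rfl fun e _ => ?_
      rw [filter_inter]
    exact_mod_cast h1
  have hharm : ∑ e ∈ Icc 1 W, ((e : ℝ))⁻¹ ≤ 1 + L := by
    have h1 := harmonic_le_one_add_log W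
    rw [harmonic_eq_sum_Icc] at h1
    push_cast at h1
    refine h1.trans ?_
    have h2 : Real.log W ≤ L := by
      rw [Real.log_le_iff_le_exp (by exact_mod_cast hW0)]
      exact hW2
    linarith
  have hLp : 0 < L ^ K := by positivity
  have hX0 : (0 : ℝ) ≤ X := Nat.cast_nonneg X
  have h1 : 2 * X / L ^ (K + 3) * ∑ e ∈ Icc 1 W, ((e : ℝ))⁻¹ ≤ X / L ^ K * (1 / 3) := by
    have h2 : 2 * X / L ^ (K + 3) * ∑ e ∈ Icc 1 W, ((e : ℝ))⁻¹ ≤ 2 * X / L ^ (K + 3) * (1 + L) :=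
      mul_le_mul_of_nonneg_left hharm (by positivity)
    refine h2.trans ?_
    have e1 : 2 * X / L ^ (K + 3) * (1 + L) = X / L ^ K * (2 * (1 + L) / L ^ 3) := by
      rw [pow_add]
      field_simp
    rw [e1]
    refine mul_le_mul_of_nonneg_left ?_ (by positivity)
    rw [div_le_iff₀ (by positivity)]
    nlinarith [sq_nonneg (L - 3), mul_nonneg (sub_nonneg.2 hL3) (sub_nonneg.2 hL3),
      mul_nonneg (mul_nonneg (sub_nonneg.2 hL3) (sub_nonneg.2 hL3)) (sub_nonneg.2 hL3)]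
  have h3 : X / L ^ (K + 1) ≤ X / L ^ K * (1 / 3) := by
    have e1 : X / L ^ (K + 1) = X / L ^ K * (1 / L) := by
      rw [pow_succ]
      field_simp
    rw [e1]
    refine mul_le_mul_of_nonneg_left ?_ (by positivity)
    exact one_div_le_one_div_of_le (by norm_num) hL3
  have h4 : 0 ≤ X / L ^ K := by positivity
  linarith

end Pool.Agent.H740.PP
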