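import Pool.Agent.H567.PP.Stm2

/-!
# Square-free smooth numbers (`S_SMOOTH`)
-/

set_option autoImplicit false

namespace Pool.Agent.H685.PP

open Finset
open Pool.Agent.H567.PP

/-- sum of the numbers of divisors -/
theorem sum_div (n : ℕ) : ((∑ m ∈ Ioc 0 n, m.divisors.card : ℕ) : ℝ) ≤ n * (1 + Real.log n) := by
  have h1 : ∑ m ∈ Ioc 0 n, m.divisors.card ≤ ∑ a ∈ Ioc 0 n, n / a := by
    have h2 : ∀ m ∈ Ioc 0 n, m.divisors.card ≤ ∑ a ∈ Ioc 0 n, if a ∣ m then 1 else 0 := by
      intro m hm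
      rw [mem_Ioc] at hm
      rw [← Finset.card_filter]
      refine Finset.card_le_card fun a ha => ?_
      have ha' := Nat.dvd_of_mem_divisors ha
      rw [mem_filter, mem_Ioc]
      exact ⟨⟨Nat.pos_of_mem_divisors ha, (Nat.le_of_dvd hm.1 ha').trans hm.2⟩, ha'⟩
    refine (Finset.sum_le_sum h2).trans ?_
    rw [Finset.sum_comm]
    refine Finset.sum_le_sum fun a _ => ?_
    rw [← Finset.card_filter, Nat.Ioc_filter_dvd_card_eq_div]
  have h3 : ((∑ a ∈ Ioc 0 n, n / a : ℕ) : ℝ) ≤ n * (harmonic n : ℝ) := by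
    rw [harmonic_eq_sum_Icc]
    push_cast
    rw [Finset.mul_sum]
    have h4 : Ioc 0 n = Icc 1 n := by
      ext a
      rw [mem_Ioc, mem_Icc]
      omega
    rw [h4]
    refine Finset.sum_le_sum fun a _ => ?_
    rw [← div_eq_mul_inv]
    exact Nat.cast_div_le
  have h5 : ((∑ m ∈ Ioc 0 n, m.divisors.card : ℕ) : ℝ) ≤ ((∑ a ∈ Ioc 0 n, n / a : ℕ) : ℝ) := by
    exact_mod_cast h1
  exact h5.trans (h3.trans (mul_le_mul_of_nonneg_left (harmonic_le_one_add_log n) (Nat.cast_nonneg n)))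

theorem two_pow_le {m : ℕ} (hm : m ≠ 0) : 2 ^ m.primeFactors.card ≤ m.divisors.card := by
  rw [Nat.card_divisors hm, ← Finset.prod_const]
  refine Finset.prod_le_prod (fun p _ => Nat.zero_le _) fun p hp => ?_
  have := (Nat.prime_of_mem_primeFactors hp).factorization_pos_of_dvd hm (Nat.dvd_of_mem_primeFactors hp)
  omega

theorem le_pow {m : ℕ} (hm : Squarefree m) {y : ℝ} (h : ∀ p ∈ m.primeFactors, (p : ℝ) ≤ y) :
    (m : ℝ) ≤ y ^ m.primeFactors.card := by
  have h1 : (m : ℝ) = ∏ p ∈ m.primeFactors, (p : ℝ) := by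
    rw [← Nat.cast_prod, Nat.prod_primeFactors_of_squarefree hm]
  rw [h1, ← Finset.prod_const]
  exact Finset.prod_le_prod (fun p _ => Nat.cast_nonneg p) h

theorem smooth : S_SMOOTH := by
  intro η hη hη2 k K hk
  have hk0 : (0 : ℝ) < k := by exact_mod_cast hk
  set b : ℝ := Real.log 2 / (2 * k) with hb
  have hlog2 : 0 < Real.log 2 := Real.log_pos one_lt_two
  have hb0 : 0 < b := div_pos hlog2 (by positivity)
  have ev1 : ∀ᶠ L : ℝ in Filter.atTop, L ^ ((K : ℝ) + 2) ≤ Real.exp (b * L ^ η) := by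
    have h1 := (isLittleO_rpow_exp_pos_mul_atTop (((K : ℝ) + 2) / η) hb0).bound one_pos
    have h2 := (tendsto_rpow_atTop hη).eventually h1
    filter_upwards [h2, Filter.eventually_ge_atTop (0 : ℝ)] with L hL hL0
    rw [← Real.rpow_mul hL0, mul_div_cancel₀ _ hη.ne', one_mul, Real.norm_eq_abs, Real.norm_eq_abs,
      abs_of_nonneg (Real.rpow_nonneg hL0 _), abs_of_pos (Real.exp_pos _)] at hL
    exact hL
  obtain ⟨L₁, hL₁⟩ := Filter.eventually_atTop.1 ev1
  refine ⟨max L₁ (max 6 (2 * k * Real.log 4)), ?_, ?_⟩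
  · exact le_trans (by norm_num) (le_trans (le_max_left (6 : ℝ) _) (le_max_right _ _))
  intro L hL X hX hX2
  have hLL : L₁ ≤ L := (le_max_left _ _).trans hL
  have hL6 : (6 : ℝ) ≤ L := ((le_max_left _ _).trans (le_max_right _ _)).trans hL
  have hL4 : 2 * k * Real.log 4 ≤ L := ((le_max_right _ _).trans (le_max_right _ _)).trans hL
  have hL0 : (0 : ℝ) < L := by linarith
  have hX0 : (0 : ℝ) < X := by
    have := Real.exp_pos (L / k)
    linarith
  have hXn : 0 < X := by exact_mod_cast hX0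
  set S := (Ico X (2 * X)).filter (fun m : ℕ => Squarefree m ∧
    ∀ p : ℕ, p ∈ m.primeFactors → (p : ℝ) ≤ Real.exp (L ^ (1 - η))) with hS
  -- every element has many divisors
  have hdiv : ∀ m ∈ S, Real.exp (b * L ^ η) ≤ (m.divisors.card : ℝ) := by
    intro m hm
    rw [hS, mem_filter, mem_Ico] at hm
    obtain ⟨⟨hm1, hm2⟩, hsq, hp⟩ := hm
    have hm0 : m ≠ 0 := by omega
    have h1 := le_pow hsq hp
    have hmX : (X : ℝ) ≤ m := by exact_mod_cast hm1
    have hm0' : (0 : ℝ) < m := lt_of_lt_of_le hX0 hmX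
    have h2 : Real.log m ≤ m.primeFactors.card * L ^ (1 - η) := by
      have h3 := Real.log_le_log hm0' h1
      rwa [Real.log_pow, Real.log_exp] at h3
    have h3 : L / k - Real.log 4 ≤ Real.log m := by
      have h4 : L / k ≤ Real.log (4 * X) := by
        rw [← Real.log_exp (L / k)]
        exact Real.log_le_log (Real.exp_pos _) hX
      rw [Real.log_mul (by norm_num) hX0.ne'] at h4
      have h5 := Real.log_le_log hX0 hmX
      linarith
    have h4 : L / (2 * k) ≤ L / k - Real.log 4 := by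
      have h5 : Real.log 4 ≤ L / (2 * k) := by
        rw [le_div_iff₀ (by positivity)]
        linarith
      have h6 : L / k = L / (2 * k) + L / (2 * k) := by
        field_simp
        ring
      linarith
    have h5 : L = L ^ η * L ^ (1 - η) := by
      rw [← Real.rpow_add hL0, add_sub_cancel, Real.rpow_one]
    have h6 : L ^ η / (2 * k) ≤ m.primeFactors.card := by
      have h7 : L ^ η / (2 * k) * L ^ (1 - η) ≤ m.primeFactors.card * L ^ (1 - η) := by
        have h8 : L ^ η / (2 * k) * L ^ (1 - η) = L / (2 * k) := by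
          rw [div_mul_eq_mul_div, ← h5]
        rw [h8]
        linarith
      exact le_of_mul_le_mul_right h7 (Real.rpow_pos_of_pos hL0 _)
    have h7 : (2 : ℝ) ^ m.primeFactors.card ≤ m.divisors.card := by
      exact_mod_cast two_pow_le hm0
    refine le_trans ?_ h7
    rw [← Real.rpow_natCast, Real.rpow_def_of_pos two_pos]
    apply Real.exp_le_exp.2
    have h8 : b * L ^ η = Real.log 2 * (L ^ η / (2 * k)) := by
      rw [hb]
      ring
    rw [h8]
    exact mul_le_mul_of_nonneg_left h6 hlog2.le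
  have h1 : (S.card : ℝ) * Real.exp (b * L ^ η) ≤ ((∑ m ∈ Ioc 0 (2 * X), m.divisors.card : ℕ) : ℝ) := by
    have h2 : ∑ _m ∈ S, Real.exp (b * L ^ η) ≤ ∑ m ∈ S, (m.divisors.card : ℝ) := Finset.sum_le_sum hdiv
    rw [Finset.sum_const, nsmul_eq_mul] at h2
    refine h2.trans ?_
    push_cast
    refine Finset.sum_le_sum_of_subset_of_nonneg ?_ fun m _ _ => Nat.cast_nonneg _
    intro m hm
    rw [hS, mem_filter, mem_Ico] at hm
    rw [mem_Ioc]
    omega
  have h2 := h1.trans (sum_div (2 * X))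
  have h3 : Real.log ((2 * X : ℕ) : ℝ) ≤ 1 + 2 * L := by
    push_cast
    rw [Real.log_mul two_ne_zero hX0.ne']
    have h4 : Real.log X ≤ 2 * L := by
      rw [← Real.log_exp (2 * L)]
      exact Real.log_le_log hX0 hX2
    have h5 : Real.log 2 ≤ 1 := by
      have := Real.log_two_lt_d9
      linarith
    linarith
  have h4 : (S.card : ℝ) * Real.exp (b * L ^ η) ≤ X * (L * L) := by
    refine h2.trans ?_
    have h5 : ((2 * X : ℕ) : ℝ) * (1 + Real.log ((2 * X : ℕ) : ℝ)) ≤ (2 * X) * (1 + (1 + 2 * L)) := by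
      push_cast at h3 ⊢
      exact mul_le_mul_of_nonneg_left (by linarith) (by positivity)
    refine h5.trans ?_
    have h6 : (2 * (X : ℝ)) * (1 + (1 + 2 * L)) = X * (4 + 4 * L) := by ring
    rw [h6]
    refine mul_le_mul_of_nonneg_left ?_ hX0.le
    nlinarith
  have h5 := hL₁ L hLL
  have h6 : L ^ ((K : ℝ) + 2) = L ^ K * (L * L) := by
    rw [Real.rpow_add hL0, Real.rpow_natCast]
    congr 1
    rw [Real.rpow_two, sq]
  rw [h6] at h5
  rw [le_div_iff₀ (pow_pos hL0 K)]
  have h7 : (S.card : ℝ) * (L ^ K * (L * L)) ≤ X * (L * L) :=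
    (mul_le_mul_of_nonneg_left h5 (Nat.cast_nonneg _)).trans h4
  have h8 : 0 < L * L := by positivity
  have h9 : (S.card : ℝ) * L ^ K * (L * L) ≤ X * (L * L) := by
    rw [mul_assoc]
    exact h7
  exact le_of_mul_le_mul_right h9 h8

end Pool.Agent.H685.PP
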