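import Pool.Agent.H567.PP.Stm4
import Pool.Agent.H567.PP.X.Jac2
import Pool.Graph.R_pool_sql_team_seeded_47a924f7.T6.H3.FF.ShlB
import Pool.Graph.R_seed8.Y235.GJ.Vau
import Pool.Graph.R_seed8.Y812.GJ.L2

set_option autoImplicit false

/-!
# Project PP (helper567), part PP-22: correlations of the primes with shifted characters, only the common divisor
with the conductor matters.  An adaptation of the library's `Pool.Agent.T6.H3.FF.shl4`.
-/

namespace Pool.Agent.H707.PP

open Finset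
open Pool.Agent.H567.PP
open Pool.Agent.H807R2.Dav (ee norm_ee)
open Pool.Agent.Y883.GJ
open Pool.Agent.R461.GS
open Pool.Agent.Y183.GJ (ci gi Yi Xi Dm wn ai decomp w_sum gi_pos gi_le lt_gi ee_sub)
open Pool.Agent.T6.H3.FF (main_num4 fin_num4)

lemma cond_pos {q : ℕ} [NeZero q] (χ : DirichletCharacter ℂ q) : 0 < χ.conductor := by
  have hq0 : 0 < q := Nat.pos_of_ne_zero (NeZero.ne q)
  rcases Nat.eq_zero_or_pos χ.conductor with h | h
  · have h1 := χ.conductor_dvd_level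
    rw [h] at h1
    exact absurd (Nat.eq_zero_of_zero_dvd h1) hq0.ne'
  · exact h

lemma gcd_pos' {q : ℕ} [NeZero q] (χ : DirichletCharacter ℂ q) (α : ZMod q) :
    0 < Nat.gcd α.val χ.conductor := Nat.gcd_pos_of_pos_right _ (cond_pos χ)

/-- the bound by the conductor of `χ` -/
lemma JJ_A {q : ℕ} [NeZero q] (χ : DirichletCharacter ℂ q) (a : ZMod q)
    (ψ : DirichletCharacter ℂ q) :
    ‖JJ χ a ψ‖ ≤ q * (1 + Real.log q) *
      Real.sqrt ((Nat.gcd a.val χ.conductor : ℝ) / χ.conductor) := by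
  have h := Pool.Agent.H294.PP.jac2 q χ ψ⁻¹ a
  have e : JJ χ a ψ = ∑ l : ZMod q, χ l * ψ⁻¹ (a - l) := by
    unfold JJ
    rw [← Equiv.sum_comp (Equiv.subLeft a)]
    refine Finset.sum_congr rfl fun l _ => ?_
    simp only [Equiv.subLeft_apply, sub_sub_cancel]
    ring
  rw [e]
  exact h

/-- the bound by the conductor of the quotient -/
lemma JJ_B (hJ : S_JACF) {q : ℕ} [NeZero q] (χ : DirichletCharacter ℂ q) (a : ZMod q)
    (ξ : DirichletCharacter ℂ q) :
    ‖JJ χ a (χ * ξ)‖ ≤ q * (1 + Real.log q) * Real.sqrt (1 / (ξ.conductor : ℝ)) :=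
  hJ q χ ξ a

lemma AS_mul {q : ℕ} (X : ℕ) (a : ℕ → ℂ) (χ ξ : DirichletCharacter ℂ q) :
    AS X a (χ * ξ) = AS X (fun m => a m * χ (m : ZMod q)) ξ := by
  unfold AS
  refine Finset.sum_congr rfl fun m _ => ?_
  rw [MulChar.mul_apply]
  ring

lemma nn_mul_le {q : ℕ} (X : ℕ) (a : ℕ → ℂ) (χ : DirichletCharacter ℂ q) :
    nn X (fun m => a m * χ (m : ZMod q)) ≤ nn X a := by
  unfold nn
  apply Real.sqrt_le_sqrt
  refine Finset.sum_le_sum fun m _ => ?_
  rw [norm_mul]
  have h1 := χ.norm_le_one (m : ZMod q)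
  have h2 := norm_nonneg (χ (m : ZMod q))
  have h3 := norm_nonneg (a m)
  exact pow_le_pow_left₀ (mul_nonneg h3 h2) (mul_le_of_le_one_right h3 h1) 2

open Classical in
/-- all characters -/
lemma bil2 (hJ : S_JACF) (hL : L2Stm) (q X Y D : ℕ) [NeZero q] (hD : 1 ≤ D) (hX : D ^ 2 ≤ X)
    (hY : D ^ 2 ≤ Y) (a b : ℕ → ℂ) (χ : DirichletCharacter ℂ q) (α : ZMod q) :
    ∑ ψ : DirichletCharacter ℂ q, ‖JJ χ α ψ‖ * (‖AS X a ψ‖ * ‖AS Y b ψ‖) ≤
      q * (1 + Real.log q) * (nn X a * nn Y b) *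
        (12 * √((Nat.gcd α.val χ.conductor : ℝ) / χ.conductor) * √((X : ℝ) * Y) +
          (q.divisors.card : ℝ) * √((X : ℝ) * Y / D + X + Y + q)) := by
  have hq0 : 0 < q := Nat.pos_of_ne_zero (NeZero.ne q)
  have hq1 : (1 : ℝ) ≤ q := by exact_mod_cast hq0
  have hlq : 0 ≤ Real.log q := Real.log_nonneg hq1
  rw [← Equiv.sum_comp (Equiv.mulLeft χ)]
  simp only [Equiv.coe_mulLeft]
  obtain ⟨a', ha'⟩ : ∃ a' : ℕ → ℂ, a' = fun m => a m * χ (m : ZMod q) := ⟨_, rfl⟩
  obtain ⟨b', hb'⟩ : ∃ b' : ℕ → ℂ, b' = fun m => b m * χ (m : ZMod q) := ⟨_, rfl⟩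
  have hab : ∀ ξ : DirichletCharacter ℂ q, ‖JJ χ α (χ * ξ)‖ * (‖AS X a (χ * ξ)‖ * ‖AS Y b (χ * ξ)‖) =
      ‖JJ χ α (χ * ξ)‖ * (‖AS X a' ξ‖ * ‖AS Y b' ξ‖) := by
    intro ξ
    rw [AS_mul, AS_mul, ha', hb']
  rw [Finset.sum_congr rfl fun ξ _ => hab ξ]
  have hn1 := nn_nonneg X a'
  have hn2 := nn_nonneg Y b'
  have hnn : nn X a' * nn Y b' ≤ nn X a * nn Y b := by
    rw [ha', hb']
    exact mul_le_mul (nn_mul_le X a χ) (nn_mul_le Y b χ) (nn_nonneg _ _) (nn_nonneg _ _)
  have hF : 0 ≤ (q : ℝ) * (1 + Real.log q) := by positivity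
  rw [← Finset.sum_filter_add_sum_filter_not univ (fun ψ : DirichletCharacter ℂ q => ψ.conductor ≤ D)]
  have h1 : ∑ ψ ∈ (univ : Finset (DirichletCharacter ℂ q)).filter (fun χ => χ.conductor ≤ D),
      ‖JJ χ α (χ * ψ)‖ * (‖AS X a' ψ‖ * ‖AS Y b' ψ‖) ≤
      (q * (1 + Real.log q) * √((Nat.gcd α.val χ.conductor : ℝ) / χ.conductor)) *
        (12 * √((X : ℝ) * Y) * (nn X a' * nn Y b')) := by
    refine le_trans ?_ (mul_le_mul_of_nonneg_left (part_small q X Y D hX hY a' b') (by positivity))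
    rw [mul_sum]
    refine sum_le_sum fun ψ _ => ?_
    exact mul_le_mul_of_nonneg_right (JJ_A χ α (χ * ψ)) (by positivity)
  have h2 : ∑ ψ ∈ (univ : Finset (DirichletCharacter ℂ q)).filter (fun χ => ¬ χ.conductor ≤ D),
      ‖JJ χ α (χ * ψ)‖ * (‖AS X a' ψ‖ * ‖AS Y b' ψ‖) ≤
      (q.divisors.card : ℝ) * ((q * (1 + Real.log q)) *
        (√((X : ℝ) * Y / D + X + Y + q) * (nn X a' * nn Y b'))) := by
    have h3 : ∀ ψ ∈ (univ : Finset (DirichletCharacter ℂ q)).filter (fun χ => ¬ χ.conductor ≤ D),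
        ψ.conductor ∈ q.divisors.filter (fun d => D < d) := by
      intro ψ hψ
      rw [mem_filter] at hψ ⊢
      exact ⟨Nat.mem_divisors.mpr ⟨ψ.conductor_dvd_level, NeZero.ne q⟩, by omega⟩
    rw [← sum_fiberwise_of_maps_to h3]
    have h4 : ∀ d ∈ q.divisors.filter (fun d => D < d),
        ∑ ψ ∈ ((univ : Finset (DirichletCharacter ℂ q)).filter (fun χ => ¬ χ.conductor ≤ D)).filter
          (fun ψ => ψ.conductor = d), ‖JJ χ α (χ * ψ)‖ * (‖AS X a' ψ‖ * ‖AS Y b' ψ‖) ≤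
        (q * (1 + Real.log q)) *
        (√((X : ℝ) * Y / D + X + Y + q) * (nn X a' * nn Y b')) := by
      intro d hd
      rw [mem_filter, Nat.mem_divisors] at hd
      have hd0 : (0 : ℝ) < d := by exact_mod_cast (by omega : 0 < d)
      have hsd : 0 < √(d : ℝ) := Real.sqrt_pos.2 hd0
      refine le_trans ?_ (mul_le_mul_of_nonneg_left (part_one hL q X Y D d hd.1.1 hD hd.2.le a' b') (by positivity))
      rw [mul_div_assoc', mul_sum, sum_div]
      refine le_trans (sum_le_sum_of_subset_of_nonneg (t := (univ : Finset (DirichletCharacter ℂ q)).filter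
        (fun χ => χ.conductor = d)) ?_ fun _ _ _ => by positivity) (sum_le_sum fun ψ hψ => ?_)
      · intro ψ hψ
        rw [mem_filter] at hψ ⊢
        exact ⟨mem_univ _, hψ.2⟩
      · rw [mem_filter] at hψ
        have h5 := JJ_B hJ χ α ψ
        rw [hψ.2, Real.sqrt_div (by positivity), Real.sqrt_one] at h5
        rw [mul_div_right_comm]
        apply mul_le_mul_of_nonneg_right _ (by positivity)
        refine h5.trans (le_of_eq ?_)
        ring
    refine (sum_le_sum h4).trans ?_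
    rw [sum_const, nsmul_eq_mul]
    apply mul_le_mul_of_nonneg_right _ (by positivity)
    exact_mod_cast card_filter_le _ _
  have h6 : (q * (1 + Real.log q) * √((Nat.gcd α.val χ.conductor : ℝ) / χ.conductor)) *
        (12 * √((X : ℝ) * Y) * (nn X a' * nn Y b')) +
      (q.divisors.card : ℝ) * ((q * (1 + Real.log q)) *
        (√((X : ℝ) * Y / D + X + Y + q) * (nn X a' * nn Y b'))) =
      q * (1 + Real.log q) * (nn X a' * nn Y b') *
        (12 * √((Nat.gcd α.val χ.conductor : ℝ) / χ.conductor) * √((X : ℝ) * Y) +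
          (q.divisors.card : ℝ) * √((X : ℝ) * Y / D + X + Y + q)) := by
    ring
  refine (add_le_add h1 h2).trans ((le_of_eq h6).trans ?_)
  apply mul_le_mul_of_nonneg_right _ (by positivity)
  exact mul_le_mul_of_nonneg_left hnn hF

/-- one class -/
lemma one_class2 (hJ : S_JACF) (hL : L2Stm) {q N y i D U : ℕ} [NeZero q] {δ η : ℝ} (hδ : 0 < δ) (hy : y ≤ N)
    (hL1 : 1 ≤ Real.log N) (hD : 1 ≤ D) (hDU : D ^ 2 ≤ U) (hqN : (q : ℝ) ≤ N / D) (hq' : q ≤ N)
    {a b : ℕ → ℂ} (ha : ∀ m ∈ Icc 1 N, ‖a m‖ ≤ Real.log N * (m.divisors.card : ℝ))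
    (hb : ∀ m ∈ Icc 1 N, ‖b m‖ ≤ Real.log N * (m.divisors.card : ℝ))
    (haU : ∀ m, a m ≠ 0 → U < m ∧ m ≤ N) (hbU : ∀ m, b m ≠ 0 → U < m) (χ : DirichletCharacter ℂ q) (α : ZMod q) :
    ‖(q.totient : ℂ)⁻¹ * ∑ ψ : DirichletCharacter ℂ q, JJ χ α ψ *
        (AS (Xi δ i) (ai δ a i) ψ * AS (Yi δ y i) (fun k => b k * ee (gi δ i * k * η)) ψ)‖ ≤
      2 * (1 + Real.log N) ^ 8 * N * (12 * √((Nat.gcd α.val χ.conductor : ℝ) / χ.conductor) +
        2 * ((q.divisors.card : ℝ) / √(Nat.gcd α.val χ.conductor : ℝ) *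
          √(Nat.gcd α.val χ.conductor : ℝ) / √(D : ℝ))) := by
  have hq0 : 0 < q := Nat.pos_of_ne_zero (NeZero.ne q)
  have hq1 : (1 : ℝ) ≤ q := by exact_mod_cast hq0
  have hlq : 0 ≤ Real.log q := Real.log_nonneg hq1
  have hN0 : (0 : ℝ) < N := by exact_mod_cast (by omega : 0 < N)
  have hD0 : (0 : ℝ) < D := by exact_mod_cast (by omega : 0 < D)
  have hgi := gi_pos δ (i + 1)
  set b' : ℕ → ℂ := fun k => b k * ee (gi δ i * k * η) with hb'
  have hbb : ∀ k, ‖b' k‖ = ‖b k‖ := by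
    intro k
    rw [hb']
    simp only
    rw [norm_mul, norm_ee, mul_one]
  by_cases hXU : U < Xi δ i
  · by_cases hYU : U < Yi δ y i
    · have h1 : ‖(q.totient : ℂ)⁻¹ * ∑ ψ : DirichletCharacter ℂ q, JJ χ α ψ *
          (AS (Xi δ i) (ai δ a i) ψ * AS (Yi δ y i) b' ψ)‖ ≤
          (q.totient : ℝ)⁻¹ * (q * (1 + Real.log q) * (nn (Xi δ i) (ai δ a i) * nn (Yi δ y i) b') *
          (12 * √((Nat.gcd α.val χ.conductor : ℝ) / χ.conductor) * √(((Xi δ i : ℕ) : ℝ) * (Yi δ y i : ℕ)) +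
            (q.divisors.card : ℝ) / √(Nat.gcd α.val χ.conductor : ℝ) * √(Nat.gcd α.val χ.conductor : ℝ) *
              √(((Xi δ i : ℕ) : ℝ) * (Yi δ y i : ℕ) / D + (Xi δ i : ℕ) + (Yi δ y i : ℕ) + q))) := by
        rw [norm_mul, norm_inv, Complex.norm_natCast]
        apply mul_le_mul_of_nonneg_left _ (by positivity)
        have hg0 : (0 : ℝ) < √(Nat.gcd α.val χ.conductor : ℝ) :=
          Real.sqrt_pos.2 (by exact_mod_cast gcd_pos' χ α)
        rw [div_mul_cancel₀ _ hg0.ne']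
        refine le_trans ?_ (bil2 hJ hL q (Xi δ i) (Yi δ y i) D hD (by omega) (by omega) (ai δ a i) b' χ α)
        refine (norm_sum_le _ _).trans (sum_le_sum fun ψ _ => ?_)
        rw [norm_mul, norm_mul]
      refine h1.trans ?_
      have hXle : ((Xi δ i : ℕ) : ℝ) ≤ gi δ (i + 1) := Nat.floor_le hgi.le
      have hYle : ((Yi δ y i : ℕ) : ℝ) ≤ y / gi δ (i + 1) := Nat.floor_le (by positivity)
      have hyN : (y : ℝ) ≤ N := by exact_mod_cast hy
      have hXY : ((Xi δ i : ℕ) : ℝ) * (Yi δ y i : ℕ) ≤ N := by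
        calc ((Xi δ i : ℕ) : ℝ) * (Yi δ y i : ℕ) ≤ gi δ (i + 1) * (y / gi δ (i + 1)) :=
              mul_le_mul hXle hYle (Nat.cast_nonneg _) hgi.le
          _ = y := by field_simp
          _ ≤ N := hyN
      have hXN : Xi δ i ≤ N := by
        have h2 : Xi δ i * Yi δ y i ≤ N := by exact_mod_cast hXY
        exact le_trans (Nat.le_mul_of_pos_right _ (by omega)) h2
      have hYN : Yi δ y i ≤ N := by
        have h2 : Xi δ i * Yi δ y i ≤ N := by exact_mod_cast hXY
        exact le_trans (Nat.le_mul_of_pos_left _ (by omega)) h2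
      refine class_num (U := (U : ℝ)) hL1 rfl hN0 (by exact_mod_cast hD) ?_ (Nat.cast_nonneg _) (Nat.cast_nonneg _) hXY ?_ ?_
        hq1 hqN (tot_pos q) ?_ ?_ hlq (by positivity) (Nat.cast_nonneg _) (nn_nonneg _ _) (nn_nonneg _ _) ?_ ?_ ?_
      · have : D ≤ U := le_trans (by nlinarith) hDU
        exact_mod_cast this
      · exact_mod_cast hXU.le
      · exact_mod_cast hYU.le
      · exact Pool.Agent.R461.GS.phi_low q hq0
      · exact Real.log_le_log (by linarith) (by exact_mod_cast hq')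
      · apply nn_le (Xi δ i) N hXN _ _ le_rfl
        intro m hm
        rw [mem_Icc] at hm
        unfold ai
        have hd : (0 : ℝ) ≤ (m.divisors.card : ℝ) := Nat.cast_nonneg _
        have h3 := ha m (mem_Icc.2 ⟨hm.1, hm.2.trans hXN⟩)
        split_ifs
        · nlinarith
        · rw [norm_zero]
          nlinarith
      · apply nn_le (Yi δ y i) N hYN _ _ le_rfl
        intro m hm
        rw [mem_Icc] at hm
        have hd : (0 : ℝ) ≤ (m.divisors.card : ℝ) := Nat.cast_nonneg _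
        have h3 := hb m (mem_Icc.2 ⟨hm.1, hm.2.trans hYN⟩)
        rw [hbb]
        nlinarith
      · have : χ.conductor ≠ 0 := by
          intro h
          have := χ.conductor_dvd_level
          rw [h] at this
          exact hq0.ne' (Nat.eq_zero_of_zero_dvd this)
        exact_mod_cast Nat.pos_of_ne_zero this
    · have h0 : ∀ ψ : DirichletCharacter ℂ q, AS (Yi δ y i) b' ψ = 0 := by
        intro ψ
        unfold AS
        refine sum_eq_zero fun k hk => ?_
        rw [mem_Icc] at hk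
        have : b k = 0 := by
          by_contra h
          have := hbU k h
          omega
        have h2 : b' k = 0 := by
          rw [hb']
          simp only
          rw [this, zero_mul]
        rw [h2, zero_mul]
      simp only [h0, mul_zero, sum_const_zero, norm_zero]
      positivity
  · have h0 : ∀ ψ : DirichletCharacter ℂ q, AS (Xi δ i) (ai δ a i) ψ = 0 := by
      intro ψ
      unfold AS
      refine sum_eq_zero fun k hk => ?_
      rw [mem_Icc] at hk
      have : a k = 0 := by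
        by_contra h
        have := (haU k h).1
        omega
      unfold ai
      rw [this, ite_self, zero_mul]
    simp only [h0, zero_mul, mul_zero, sum_const_zero, norm_zero]
    positivity

/-- type I sums -/
lemma typeI2 {q N : ℕ} [NeZero q] (χ : DirichletCharacter ℂ q) (α : ZMod q) {η P : ℝ}
    (hη : N * |η| ≤ P) (c : ℕ) (hc : 1 ≤ c) (y : ℕ) (hy : y ≤ N / c) :
    ‖∑ b ∈ Icc 1 y, ff χ α ((b * c : ℕ) : ZMod q) * ee ((b * c : ℕ) * η)‖ ≤
      ((N : ℝ) / c * ((1 + Real.log q) * √((Nat.gcd α.val χ.conductor : ℝ) / χ.conductor)) + q) * (1 + 7 * P) := by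
  have hq0 : 0 < q := Nat.pos_of_ne_zero (NeZero.ne q)
  have hq1 : (1 : ℝ) ≤ q := by exact_mod_cast hq0
  have hq0' : (0 : ℝ) < q := by linarith
  have hlq : 0 ≤ Real.log q := Real.log_nonneg hq1
  have hc0 : (0 : ℝ) < c := by exact_mod_cast hc
  have hycN : (y : ℝ) * c ≤ N := by
    have : y * c ≤ N := (Nat.le_div_iff_mul_le hc).1 hy
    exact_mod_cast this
  have hyc : (y : ℝ) ≤ N / c := by rwa [le_div_iff₀ hc0]
  by_cases hu : IsUnit ((c : ℕ) : ZMod q)
  · have h1 := Pool.Agent.R460.GS.abelI (fun b : ℕ => ff χ α ((b : ZMod q) * (c : ZMod q)))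
      (fun b : ℕ => ee ((b * c : ℕ) * η))
      ((N : ℝ) / c * ((1 + Real.log q) * √((Nat.gcd α.val χ.conductor : ℝ) / χ.conductor)) + q) (7 * (c * |η|)) y ?_ ?_ ?_
    · have h2 : ∑ b ∈ Icc 1 y, ff χ α ((b * c : ℕ) : ZMod q) * ee ((b * c : ℕ) * η) =
          ∑ i ∈ Icc 1 y, ee (((i * c : ℕ) : ℝ) * η) • ff χ α ((i : ZMod q) * (c : ZMod q)) := by
        refine sum_congr rfl fun b _ => ?_
        rw [smul_eq_mul, Nat.cast_mul, mul_comm]
      rw [h2]
      refine h1.trans ?_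
      apply mul_le_mul_of_nonneg_left _ (by positivity)
      have h3 : 7 * (c * |η|) * y ≤ 7 * P := by
        calc 7 * (c * |η|) * y = 7 * ((y * c) * |η|) := by ring
          _ ≤ 7 * (N * |η|) := by
            apply mul_le_mul_of_nonneg_left _ (by norm_num)
            exact mul_le_mul_of_nonneg_right hycN (abs_nonneg _)
          _ ≤ 7 * P := mul_le_mul_of_nonneg_left hη (by norm_num)
      linarith
    · intro m hm
      have h4 := per_le q (fun l => ff χ α (l * (c : ZMod q))) (fun l => ff_norm χ α _) m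
      refine h4.trans ?_
      rw [complete χ α _ hu]
      apply add_le_add_left
      have h5 := JJ_A χ α 1
      have hmy : (m : ℝ) ≤ N / c := le_trans (by exact_mod_cast hm) hyc
      calc (m : ℝ) / q * ‖JJ χ α 1‖ ≤ (m : ℝ) / q * (q * (1 + Real.log q) * √((Nat.gcd α.val χ.conductor : ℝ) / χ.conductor)) :=
            mul_le_mul_of_nonneg_left h5 (by positivity)
        _ = m * ((1 + Real.log q) * √((Nat.gcd α.val χ.conductor : ℝ) / χ.conductor)) := by
            field_simp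
        _ ≤ _ := mul_le_mul_of_nonneg_right hmy (by positivity)
    · intro i
      rw [norm_ee]
    · intro i
      refine (ee_sub _ _).trans (le_of_eq ?_)
      have h6 : (((i + 1) * c : ℕ) : ℝ) * η - ((i * c : ℕ) : ℝ) * η = c * η := by
        push_cast
        ring
      rw [h6, abs_mul, abs_of_pos hc0]
  · have h7 : ∀ b : ℕ, ff χ α ((b * c : ℕ) : ZMod q) = 0 := by
      intro b
      unfold ff
      rw [if_neg]
      intro h
      rw [Nat.cast_mul] at h
      exact hu (isUnit_of_mul_isUnit_right h)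
    simp only [h7, zero_mul, sum_const_zero, norm_zero]
    have hP : 0 ≤ P := le_trans (by positivity) hη
    positivity

/-- type II sums -/
theorem typeII2 (hJ : S_JACF) (hL2 : L2Stm) (B C : ℕ) : ∃ K N₀ : ℕ, ∀ N : ℕ, N₀ ≤ N →
    ∀ (q : ℕ) [NeZero q], (q : ℝ) ≤ (N : ℝ) ^ (4 / 5 : ℝ) → ∀ χ : DirichletCharacter ℂ q,
    ∀ α : ZMod q, Real.log N ^ K * (Nat.gcd α.val χ.conductor : ℝ) < χ.conductor →
    ∀ η : ℝ, |η| ≤ Real.log N ^ C / N → ∀ y : ℕ, y ≤ N → ∀ a b : ℕ → ℂ,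
    (∀ m ∈ Icc 1 N, ‖a m‖ ≤ Real.log N * (m.divisors.card : ℝ)) →
    (∀ m ∈ Icc 1 N, ‖b m‖ ≤ Real.log N * (m.divisors.card : ℝ)) →
    (∀ m, a m ≠ 0 → ⌊(N : ℝ) ^ (1 / 20 : ℝ)⌋₊ < m) → (∀ m, b m ≠ 0 → ⌊(N : ℝ) ^ (1 / 20 : ℝ)⌋₊ < m) →
    ‖∑ m ∈ Icc 1 y, ∑ k ∈ Icc 1 (y / m), a m * b k * (ff χ α ((m * k : ℕ) : ZMod q) * ee ((m * k : ℕ) * η))‖ ≤
      N / Real.log N ^ B := by
  obtain ⟨p₁, hp₁⟩ : ∃ p₁ : ℕ, 2 ^ 12 = p₁ := ⟨_, rfl⟩
  obtain ⟨p₂, hp₂⟩ : ∃ p₂ : ℕ, 2 ^ 6 = p₂ := ⟨_, rfl⟩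
  obtain ⟨C1, hC1, hdiv⟩ := Pool.Agent.H510R2.divisor_bound (1 / 200) (by norm_num)
  obtain ⟨M, hM⟩ : ∃ M : ℕ, M = p₁ + p₂ + 4 * B + 2 * C + 10 := ⟨_, rfl⟩
  obtain ⟨K', hK'⟩ : ∃ K' : ℕ, K' = M + B + 10 := ⟨_, rfl⟩
  obtain ⟨n1, hn1⟩ := Pool.Agent.H373R2.T7.ev_L' (28672 + 512 * 2 ^ p₁ + 784 * 2 ^ p₂)
  obtain ⟨n2, hn2⟩ := Pool.Agent.Y883.T3.ev_log_rpow (0 + K') (2 * C1) (3 / 400) (by norm_num)
  obtain ⟨n3, hn3⟩ := Pool.Agent.Y883.T3.ev_log_rpow M 1 1 (by norm_num)
  refine ⟨0 + 2 * K', max (max n1 n2) (max n3 3), fun N hN q _ hq χ α hχ η hη y hy a b ha hb haU hbU => ?_⟩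
  have hNn1 : n1 ≤ N := le_trans (le_trans (le_max_left _ _) (le_max_left _ _)) hN
  have hNn2 : n2 ≤ N := le_trans (le_trans (le_max_right _ _) (le_max_left _ _)) hN
  have hNn3 : n3 ≤ N := le_trans (le_trans (le_max_left _ _) (le_max_right _ _)) hN
  have hN3 : 3 ≤ N := le_trans (le_trans (le_max_right _ _) (le_max_right _ _)) hN
  have hLb := hn1 N hNn1
  have hbig := hn2 N hNn2
  have hM1 := hn3 N hNn3
  rw [one_mul, Real.rpow_one] at hM1
  have hN1 : (1 : ℝ) ≤ N := by exact_mod_cast (by omega : 1 ≤ N)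
  have hN0 : (0 : ℝ) < N := by linarith
  obtain ⟨L, hLdef⟩ : ∃ L, L = Real.log (N : ℝ) := ⟨_, rfl⟩
  have hp1' : (0 : ℝ) < 2 ^ p₁ := by positivity
  have hp2' : (0 : ℝ) < 2 ^ p₂ := by positivity
  have hL1 : (1 : ℝ) ≤ Real.log N := by linarith
  set U := ⌊(N : ℝ) ^ (1 / 20 : ℝ)⌋₊ with hU
  obtain ⟨D, hD⟩ : ∃ D : ℕ, D = ⌊(N : ℝ) ^ (1 / 40 : ℝ)⌋₊ := ⟨_, rfl⟩
  have hDle : (D : ℝ) ≤ (N : ℝ) ^ (1 / 40 : ℝ) := by rw [hD]; exact Nat.floor_le (by positivity)
  have hD1 : 1 ≤ D := by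
    rw [hD]
    apply Nat.le_floor
    simpa using Real.one_le_rpow hN1 (by norm_num : (0 : ℝ) ≤ 1 / 40)
  have hD0 : (0 : ℝ) < D := by exact_mod_cast hD1
  have hDge : (N : ℝ) ^ (1 / 40 : ℝ) ≤ 2 * D := by
    have e1 := Nat.lt_floor_add_one ((N : ℝ) ^ (1 / 40 : ℝ))
    rw [← hD] at e1
    have e2 : (1 : ℝ) ≤ D := by exact_mod_cast hD1
    linarith
  have hDU : D ^ 2 ≤ U := by
    rw [hU]
    apply Nat.le_floor
    push_cast
    calc (D : ℝ) ^ 2 ≤ ((N : ℝ) ^ (1 / 40 : ℝ)) ^ 2 := pow_le_pow_left₀ hD0.le hDle 2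
      _ = (N : ℝ) ^ (1 / 20 : ℝ) := by
        rw [← Real.rpow_natCast, ← Real.rpow_mul hN0.le]
        norm_num
  have hqD : (q : ℝ) ≤ N / D := by
    rw [le_div_iff₀ hD0]
    calc (q : ℝ) * D ≤ (N : ℝ) ^ (4 / 5 : ℝ) * (N : ℝ) ^ (1 / 40 : ℝ) :=
          mul_le_mul hq hDle hD0.le (by positivity)
      _ = (N : ℝ) ^ (33 / 40 : ℝ) := by rw [← Real.rpow_add hN0]; norm_num
      _ ≤ (N : ℝ) ^ (1 : ℝ) := Real.rpow_le_rpow_of_exponent_le hN1 (by norm_num)
      _ = N := Real.rpow_one _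
  have hqN : q ≤ N := by
    have e1 : (q : ℝ) ≤ N := hq.trans (by
      calc (N : ℝ) ^ (4 / 5 : ℝ) ≤ (N : ℝ) ^ (1 : ℝ) := Real.rpow_le_rpow_of_exponent_le hN1 (by norm_num)
        _ = N := Real.rpow_one _)
    exact_mod_cast e1
  have hdq : ((q.divisors.card : ℕ) : ℝ) ≤ C1 * (N : ℝ) ^ (1 / 200 : ℝ) := by
    refine (hdiv q (Nat.pos_of_ne_zero (NeZero.ne q))).trans ?_
    apply mul_le_mul_of_nonneg_left _ hC1.le
    apply Real.rpow_le_rpow (Nat.cast_nonneg _) (by exact_mod_cast hqN) (by norm_num)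
  obtain ⟨δ, hδ⟩ : ∃ δ : ℝ, δ = (Real.log N ^ M)⁻¹ := ⟨_, rfl⟩
  have hδ0 : 0 < δ := by rw [hδ]; positivity
  obtain ⟨I, hI⟩ : ∃ I : ℕ, I = ⌊Real.log N / δ⌋₊ + 1 := ⟨_, rfl⟩
  have hIle : (I : ℝ) ≤ 2 * Real.log N ^ (M + 1) := by
    have e1 : ((⌊Real.log N / δ⌋₊ : ℕ) : ℝ) ≤ Real.log N / δ := Nat.floor_le (by positivity)
    have e2 : Real.log N / δ = Real.log N ^ (M + 1) := by
      rw [hδ, div_inv_eq_mul, pow_succ]
      ring
    have e3 : 1 ≤ Real.log N ^ (M + 1) := one_le_pow₀ hL1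
    have e4 := e1.trans (le_of_eq e2)
    rw [hI]
    push_cast
    linarith
  -- restriction to `m ≤ y`
  set a' : ℕ → ℂ := fun m => if m ≤ y then a m else 0 with ha'
  have hsum : ∑ m ∈ Icc 1 y, ∑ k ∈ Icc 1 (y / m), a m * b k * (ff χ α ((m * k : ℕ) : ZMod q) * ee ((m * k : ℕ) * η)) =
      ∑ m ∈ Icc 1 y, ∑ k ∈ Icc 1 (y / m), a' m * b k * (ff χ α ((m * k : ℕ) : ZMod q) * ee ((m * k : ℕ) * η)) := by
    refine sum_congr rfl fun m hm => ?_
    rw [mem_Icc] at hm
    have : a' m = a m := by rw [ha']; simp only; rw [if_pos hm.2]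
    rw [this]
  have ha1 : ∀ m ∈ Icc 1 N, ‖a' m‖ ≤ Real.log N * (m.divisors.card : ℝ) := by
    intro m hm
    rw [ha']
    simp only
    split_ifs
    · exact ha m hm
    · rw [norm_zero]
      positivity
  have ha2 : ∀ m, a' m ≠ 0 → m ≤ y ∧ a m ≠ 0 := by
    intro m hm
    rw [ha'] at hm
    simp only at hm
    by_cases h : m ≤ y
    · rw [if_pos h] at hm
      exact ⟨h, hm⟩
    · rw [if_neg h] at hm
      exact absurd rfl hm
  rw [hsum, split_II (I := I) hδ0 (fun m hm h0 => ⟨(ha2 m h0).1, by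
    rw [hI]
    unfold ci
    apply Nat.lt_succ_of_le
    apply Nat.floor_le_floor
    apply div_le_div_of_nonneg_right _ hδ0.le
    exact Real.log_le_log (by exact_mod_cast hm) (by exact_mod_cast (ha2 m h0).1.trans hy)⟩) χ α]
  have hmain : ‖∑ i ∈ range I, (q.totient : ℂ)⁻¹ * ∑ ψ : DirichletCharacter ℂ q, JJ χ α ψ *
        (AS (Xi δ i) (ai δ a' i) ψ * AS (Yi δ y i) (fun k => b k * ee (gi δ i * k * η)) ψ)‖ ≤
      N / (2 * Real.log N ^ B) := by
    refine (norm_sum_le _ _).trans ((sum_le_sum fun i _ => one_class2 hJ hL2 hδ0 hy hL1 hD1 hDU hqD hqN ha1 hb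
      (fun m h0 => ⟨haU m (ha2 m h0).2, (ha2 m h0).1.trans hy⟩) hbU χ α).trans ?_)
    rw [sum_const, card_range, nsmul_eq_mul]
    have hg0 : (0 : ℝ) < (Nat.gcd α.val χ.conductor : ℝ) := by exact_mod_cast gcd_pos' χ α
    have hsg : (0 : ℝ) < √(Nat.gcd α.val χ.conductor : ℝ) := Real.sqrt_pos.2 hg0
    have hc1 : Real.log N ^ (0 + 2 * K') < (χ.conductor : ℝ) / (Nat.gcd α.val χ.conductor : ℝ) := by
      rw [lt_div_iff₀ hg0]
      exact hχ
    have hmn := main_num4 (g := 1) (T := 0) (D := (D : ℝ)) hL1 (by linarith) hN1 hIle (Nat.cast_nonneg _)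
      (by rw [pow_zero]) zero_le_one hc1 rfl hK' (Nat.cast_nonneg _) hdq hC1.le hD0 hDge hbig
    rw [one_div_div, Real.sqrt_one, mul_one] at hmn
    rw [div_mul_cancel₀ _ hsg.ne']
    exact hmn
  have herr : ‖∑ n ∈ Icc 1 y, wn δ y η a' b n * ff χ α (n : ZMod q)‖ ≤ N / (2 * Real.log N ^ B) := by
    have hηy : (y : ℝ) * |η| ≤ Real.log N ^ C := by
      calc (y : ℝ) * |η| ≤ N * (Real.log N ^ C / N) :=
            mul_le_mul (by exact_mod_cast hy) hη (abs_nonneg _) hN0.le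
        _ = _ := by field_simp
    obtain ⟨S, hS0, hS1, hS2⟩ := w_sum (ℓ := Real.log N) (a := a') (b := b) hp₁ hp₂ hδ0 hηy
      (fun m hm => ha1 m (mem_Icc.2 ⟨(mem_Icc.1 hm).1, (mem_Icc.1 hm).2.trans hy⟩))
      (fun m hm => hb m (mem_Icc.2 ⟨(mem_Icc.1 hm).1, (mem_Icc.1 hm).2.trans hy⟩)) (by linarith)
    have hlog : 1 + Real.log y ≤ 2 * Real.log N := by
      rcases Nat.eq_zero_or_pos y with h0 | h0
      · rw [h0]
        simp only [Nat.cast_zero, Real.log_zero]
        linarith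
      · have : Real.log y ≤ Real.log N := Real.log_le_log (by exact_mod_cast h0) (by exact_mod_cast hy)
        linarith
    have hlog0 : 0 ≤ 1 + Real.log y := by
      have := Real.log_natCast_nonneg y
      linarith
    have hy0 : (0 : ℝ) ≤ y := Nat.cast_nonneg _
    have hsq : √((y : ℝ) * ∑ n ∈ Icc 1 y, ‖wn δ y η a' b n‖ ^ 2) ≤ N / (2 * Real.log N ^ B) := by
      refine err_num (y := y) (S := S) (E := Real.log N ^ C) (δ := δ) (c1 := 2 ^ p₁) (c2 := 2 ^ p₂) (C := C) (M := M)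
        (p₁ := p₁) (p₂ := p₂) hL1 hy0 (by exact_mod_cast hy) hN0 hp1'.le hp2'.le hδ hM1 rfl hS0 (hS1.trans ?_)
        (Real.sqrt_nonneg _) ?_ hM (by linarith) (by linarith)
      · apply mul_le_mul_of_nonneg_left _ (by positivity)
        apply mul_le_mul_of_nonneg_left _ hy0
        rw [← mul_pow]
        exact pow_le_pow_left₀ hlog0 hlog _
      · rw [Real.sq_sqrt (by positivity)]
        apply mul_le_mul_of_nonneg_left _ hy0
        refine hS2.trans ?_
        apply mul_le_mul_of_nonneg_left _ (by positivity)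
        apply add_le_add_right
        apply mul_le_mul_of_nonneg_left _ (by positivity)
        apply mul_le_mul_of_nonneg_left _ hy0
        rw [← mul_pow]
        exact pow_le_pow_left₀ hlog0 hlog _
    refine le_trans ?_ hsq
    refine (norm_sum_le _ _).trans ?_
    calc ∑ n ∈ Icc 1 y, ‖wn δ y η a' b n * ff χ α (n : ZMod q)‖ ≤ ∑ n ∈ Icc 1 y, ‖wn δ y η a' b n‖ := by
          refine sum_le_sum fun n _ => ?_
          rw [norm_mul]
          have := ff_norm χ α (n : ZMod q)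
          have h2 := norm_nonneg (wn δ y η a' b n)
          nlinarith
      _ ≤ √((y : ℝ) * ∑ n ∈ Icc 1 y, ‖wn δ y η a' b n‖ ^ 2) := by
          apply Real.le_sqrt_of_sq_le
          have := sq_sum_le_card_mul_sum_sq (s := Icc 1 y) (f := fun n => ‖wn δ y η a' b n‖)
          rw [Nat.card_Icc] at this
          simpa using this
  calc _ ≤ N / (2 * Real.log N ^ B) + N / (2 * Real.log N ^ B) := (norm_add_le _ _).trans (add_le_add hmain herr)
    _ = N / Real.log N ^ B := by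
        field_simp
        ring

/-- correlations of the primes with shifted characters -/
theorem shl2' (hV : VauStm) (hJ : S_JACF) (hL2 : L2Stm) (B C : ℕ) (ρ : ℝ) (hρ : 0 < ρ) :
    ∃ K N₀ : ℕ, ∀ N : ℕ, N₀ ≤ N → ShG N (-(1 / 10) + ρ) B C K LA := by
  obtain ⟨K1, n1, hII⟩ := typeII2 hJ hL2 (B + 1) C
  obtain ⟨K2, hK2⟩ : ∃ K2 : ℕ, K2 = B + C + 6 := ⟨_, rfl⟩
  obtain ⟨n2, hn2⟩ := Pool.Agent.H373R2.T7.ev_L' 10000
  obtain ⟨n3, hn3⟩ := Pool.Agent.Y883.T3.ev_log_rpow (B + C + 4) 10000 (1 / 10) (by norm_num)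
  refine ⟨K1 + 2 * K2, max (max n1 n2) (max n3 3), fun N hN q _ hq χ α hχ η hη y hy => ?_⟩
  have hNn1 : n1 ≤ N := le_trans (le_trans (le_max_left _ _) (le_max_left _ _)) hN
  have hNn2 : n2 ≤ N := le_trans (le_trans (le_max_right _ _) (le_max_left _ _)) hN
  have hNn3 : n3 ≤ N := le_trans (le_trans (le_max_left _ _) (le_max_right _ _)) hN
  have hN3 : 3 ≤ N := le_trans (le_trans (le_max_right _ _) (le_max_right _ _)) hN
  have hLb := hn2 N hNn2
  have hbig := hn3 N hNn3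
  have hN1 : (1 : ℝ) ≤ N := by exact_mod_cast (by omega : 1 ≤ N)
  have hN0 : (0 : ℝ) < N := by linarith
  have hL1 : (1 : ℝ) ≤ Real.log N := by linarith
  have hL0 : (0 : ℝ) < Real.log N := by linarith
  have hq0 : 0 < q := Nat.pos_of_ne_zero (NeZero.ne q)
  have hq' : (q : ℝ) ≤ (N : ℝ) ^ (4 / 5 : ℝ) :=
    hq.trans (Real.rpow_le_rpow_of_exponent_le hN1 (by linarith))
  have hqN : q ≤ N := by
    have e1 : (q : ℝ) ≤ N := hq'.trans (by
      calc (N : ℝ) ^ (4 / 5 : ℝ) ≤ (N : ℝ) ^ (1 : ℝ) := Real.rpow_le_rpow_of_exponent_le hN1 (by norm_num)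
        _ = N := Real.rpow_one _)
    exact_mod_cast e1
  have hyN : (y : ℝ) ≤ N := by exact_mod_cast hy
  -- the sum over the classes
  have hsum : ∑ l : ZMod q, cl q y LA η l * χ (α - l) =
      ∑ n ∈ Icc 1 y, LA n * ee (n * η) * χ (α - (n : ZMod q)) := by
    unfold cl
    rw [← Finset.sum_fiberwise (Icc 1 y) (fun n : ℕ => (n : ZMod q))]
    refine Finset.sum_congr rfl fun l _ => ?_
    rw [Finset.sum_mul]
    refine Finset.sum_congr rfl fun n hn => ?_
    rw [Finset.mem_filter] at hn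
    rw [hn.2]
  rw [hsum]
  set U := ⌊(N : ℝ) ^ (1 / 20 : ℝ)⌋₊ with hU
  have hUle : (U : ℝ) ≤ (N : ℝ) ^ (1 / 20 : ℝ) := Nat.floor_le (by positivity)
  have hU1 : 1 ≤ U := by
    rw [hU]
    apply Nat.le_floor
    simpa using Real.one_le_rpow hN1 (by norm_num : (0 : ℝ) ≤ 1 / 20)
  have hLAn : ∀ n : ℕ, ‖LA n‖ = ArithmeticFunction.vonMangoldt n := by
    intro n
    unfold LA
    rw [Complex.norm_real, Real.norm_of_nonneg ArithmeticFunction.vonMangoldt_nonneg]
  have hlamle : ∀ n ∈ Icc 1 N, ArithmeticFunction.vonMangoldt n ≤ Real.log N := by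
    intro n hn
    rw [mem_Icc] at hn
    exact ArithmeticFunction.vonMangoldt_le_log.trans
      (Real.log_le_log (by exact_mod_cast hn.1) (by exact_mod_cast hn.2))
  by_cases hUy : U * U ≤ y
  swap
  · -- short sums
    push Not at hUy
    have h1 : ‖∑ n ∈ Icc 1 y, LA n * ee (n * η) * χ (α - (n : ZMod q))‖ ≤ y * Real.log N := by
      refine (norm_sum_le _ _).trans ?_
      calc _ ≤ ∑ _n ∈ Icc 1 y, Real.log N := by
            refine sum_le_sum fun n hn => ?_
            rw [mem_Icc] at hn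
            rw [norm_mul, norm_mul, norm_ee, mul_one, hLAn]
            have h2 := χ.norm_le_one (α - (n : ZMod q))
            have h3 := hlamle n (mem_Icc.2 ⟨hn.1, hn.2.trans hy⟩)
            have h4 : (0 : ℝ) ≤ ArithmeticFunction.vonMangoldt n := ArithmeticFunction.vonMangoldt_nonneg
            have h5 := norm_nonneg (χ (α - (n : ZMod q)))
            nlinarith
        _ = _ := by rw [sum_const, Nat.card_Icc, nsmul_eq_mul]; simp
    refine h1.trans ?_
    rw [le_div_iff₀ (by positivity)]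
    have h2 : (y : ℝ) ≤ (N : ℝ) ^ (1 / 10 : ℝ) := by
      calc (y : ℝ) ≤ (U : ℝ) * U := by exact_mod_cast hUy.le
        _ ≤ (N : ℝ) ^ (1 / 20 : ℝ) * (N : ℝ) ^ (1 / 20 : ℝ) := mul_le_mul hUle hUle (Nat.cast_nonneg _) (by positivity)
        _ = (N : ℝ) ^ (1 / 10 : ℝ) := by rw [← Real.rpow_add hN0]; norm_num
    have h3 : Real.log N * Real.log N ^ B ≤ (N : ℝ) ^ (1 / 10 : ℝ) := by
      have f1 : Real.log N * Real.log N ^ B = Real.log N ^ (B + 1) := by ring
      have f2 : Real.log N ^ (B + 1) ≤ Real.log N ^ (B + C + 4) := pow_le_pow_right₀ hL1 (by omega)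
      have f3 : 0 < Real.log N ^ (B + C + 4) := by positivity
      rw [f1]
      linarith
    calc (y : ℝ) * Real.log N * Real.log N ^ B = y * (Real.log N * Real.log N ^ B) := by ring
      _ ≤ (N : ℝ) ^ (1 / 10 : ℝ) * (N : ℝ) ^ (1 / 10 : ℝ) := mul_le_mul h2 h3 (by positivity) (by positivity)
      _ = (N : ℝ) ^ (1 / 5 : ℝ) := by rw [← Real.rpow_add hN0]; norm_num
      _ ≤ (N : ℝ) ^ (1 : ℝ) := Real.rpow_le_rpow_of_exponent_le hN1 (by norm_num)
      _ = N := Real.rpow_one _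
  · -- the identity of Vaughan
    have hηN : (N : ℝ) * |η| ≤ Real.log N ^ C := by
      calc (N : ℝ) * |η| ≤ N * (Real.log N ^ C / N) := mul_le_mul_of_nonneg_left hη hN0.le
        _ = _ := by field_simp
    have hηy : (y : ℝ) * |η| ≤ Real.log N ^ C :=
      (mul_le_mul_of_nonneg_right hyN (abs_nonneg _)).trans hηN
    set E : ℕ → ℂ := fun n => ff χ α (n : ZMod q) * ee ((n : ℝ) * η) with hE
    have hE1 : ∀ n, ‖E n‖ ≤ 1 := by
      intro n
      rw [hE]
      simp only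
      rw [norm_mul, norm_ee, mul_one]
      exact ff_norm _ _ _
    obtain ⟨s, hs⟩ : ∃ s, s = √((Nat.gcd α.val χ.conductor : ℝ) / χ.conductor) := ⟨_, rfl⟩
    have hs0 : 0 ≤ s := by rw [hs]; exact Real.sqrt_nonneg _
    have hlq : Real.log q ≤ Real.log N := Real.log_le_log (by exact_mod_cast hq0) (by exact_mod_cast hqN)
    have hlq0 : 0 ≤ Real.log q := Real.log_natCast_nonneg q
    have hly : Real.log y ≤ Real.log N := by
      rcases Nat.eq_zero_or_pos y with h0 | h0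
      · rw [h0]
        simp only [Nat.cast_zero, Real.log_zero]
        linarith
      · exact Real.log_le_log (by exact_mod_cast h0) (by exact_mod_cast hy)
    have hly0 : 0 ≤ Real.log y := Real.log_natCast_nonneg y
    have hg0 : (0 : ℝ) < (Nat.gcd α.val χ.conductor : ℝ) := by exact_mod_cast gcd_pos' χ α
    have hχK : Real.log N ^ K1 * (Nat.gcd α.val χ.conductor : ℝ) < χ.conductor := by
      refine lt_of_le_of_lt ?_ hχ
      exact mul_le_mul_of_nonneg_right (pow_le_pow_right₀ hL1 (by omega)) hg0.le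
    have hχ2 : Real.log N ^ (2 * K2) * (Nat.gcd α.val χ.conductor : ℝ) < χ.conductor := by
      refine lt_of_le_of_lt ?_ hχ
      exact mul_le_mul_of_nonneg_right (pow_le_pow_right₀ hL1 (by omega)) hg0.le
    have hs1 : s ≤ (Real.log N ^ K2)⁻¹ := by
      have hc0 : (0 : ℝ) < χ.conductor := lt_trans (by positivity) hχ2
      rw [hs, Real.sqrt_le_left (by positivity), div_le_iff₀ hc0]
      have hx : (Real.log N ^ K2)⁻¹ * Real.log N ^ K2 = 1 := inv_mul_cancel₀ (by positivity)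
      calc (Nat.gcd α.val χ.conductor : ℝ) =
          ((Real.log N ^ K2)⁻¹ * Real.log N ^ K2) ^ 2 * (Nat.gcd α.val χ.conductor : ℝ) := by rw [hx]; ring
        _ = ((Real.log N ^ K2)⁻¹) ^ 2 * (Real.log N ^ (2 * K2) * (Nat.gcd α.val χ.conductor : ℝ)) := by ring
        _ ≤ ((Real.log N ^ K2)⁻¹) ^ 2 * χ.conductor := mul_le_mul_of_nonneg_left hχ2.le (by positivity)
    have hVa := hV ℂ E y U (fun c => ((N : ℝ) / c * ((1 + Real.log q) * s) + q) * (1 + 7 * Real.log N ^ C)) hU1 hUy ?_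
    swap
    · intro c hc y' hy'
      rw [mem_Icc] at hc
      have hy2 : y' ≤ N / c := hy'.trans (Nat.div_le_div_right hy)
      have := typeI2 χ α hηN c hc.1 y' hy2
      rw [← hs] at this
      exact this
    -- the bilinear sum
    have hB2 := hII N hNn1 q hq' χ α hχK η hη y hy (fun m => ((bt U m : ℝ) : ℂ)) (fun m => ((lv U m : ℝ) : ℂ))
      ?_ ?_ ?_ ?_
    rotate_left
    · intro m hm
      rw [Complex.norm_real, Real.norm_eq_abs]
      have h1 := Pool.Agent.Y776.GJ.bt_abs U m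
      have h2 : (0 : ℝ) ≤ (m.divisors.card : ℝ) := Nat.cast_nonneg _
      nlinarith
    · intro m hm
      rw [mem_Icc] at hm
      rw [Complex.norm_real, Real.norm_eq_abs]
      have h1 := Pool.Agent.Y776.GJ.lv_abs (U := U) hm.1 hm.2
      have h2 : (1 : ℝ) ≤ (m.divisors.card : ℝ) := by
        have : 0 < m.divisors.card := Finset.card_pos.2 ⟨1, Nat.one_mem_divisors.2 (by omega)⟩
        exact_mod_cast this
      nlinarith
    · intro m hm
      by_contra h
      push Not at h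
      rw [Pool.Agent.Y776.GJ.bt_zero h] at hm
      simp at hm
    · intro m hm
      by_contra h
      have : lv U m = 0 := by unfold lv; rw [if_neg h]
      rw [this] at hm
      simp at hm
    have hbil : ∑ b ∈ Icc 1 y, ∑ c ∈ Icc 1 (y / b), (bt U b * lv U c) • E (b * c) =
        ∑ m ∈ Icc 1 y, ∑ k ∈ Icc 1 (y / m), ((bt U m : ℝ) : ℂ) * ((lv U k : ℝ) : ℂ) *
          (ff χ α ((m * k : ℕ) : ZMod q) * ee ((m * k : ℕ) * η)) := by
      refine sum_congr rfl fun m _ => sum_congr rfl fun k _ => ?_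
      rw [Complex.real_smul, Complex.ofReal_mul]
    rw [hbil] at hVa
    -- the part which is not coprime to `q`
    have hsplit : ∑ n ∈ Icc 1 y, LA n * ee (n * η) * χ (α - (n : ZMod q)) =
        ∑ n ∈ Icc 1 y, (ArithmeticFunction.vonMangoldt n) • E n +
        ∑ n ∈ (Icc 1 y).filter (fun n : ℕ => ¬ n.Coprime q), LA n * ee (n * η) * χ (α - (n : ZMod q)) := by
      rw [sum_filter, ← sum_add_distrib]
      refine sum_congr rfl fun n _ => ?_
      rw [hE]
      simp only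
      rw [Complex.real_smul]
      unfold ff LA
      by_cases h : n.Coprime q
      · rw [if_pos ((ZMod.isUnit_iff_coprime n q).2 h), if_neg (not_not.2 h)]
        ring
      · rw [if_neg (fun h2 => h ((ZMod.isUnit_iff_coprime n q).1 h2)), if_pos h]
        ring
    have hnc : ‖∑ n ∈ (Icc 1 y).filter (fun n : ℕ => ¬ n.Coprime q), LA n * ee (n * η) * χ (α - (n : ZMod q))‖ ≤
        6 * Real.log N ^ 3 := by
      refine (norm_sum_le _ _).trans ?_
      calc _ ≤ ∑ n ∈ (Icc 1 y).filter (fun n : ℕ => ¬ n.Coprime q), ArithmeticFunction.vonMangoldt n := by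
            refine sum_le_sum fun n _ => ?_
            rw [norm_mul, norm_mul, norm_ee, mul_one, hLAn]
            have h2 := χ.norm_le_one (α - (n : ZMod q))
            have h4 : (0 : ℝ) ≤ ArithmeticFunction.vonMangoldt n := ArithmeticFunction.vonMangoldt_nonneg
            nlinarith
        _ ≤ ∑ n ∈ (Icc 1 N).filter (fun n : ℕ => ¬ n.Coprime q), ArithmeticFunction.vonMangoldt n := by
            apply sum_le_sum_of_subset_of_nonneg
            · exact filter_subset_filter _ (Icc_subset_Icc_right hy)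
            · intro n _ _
              exact ArithmeticFunction.vonMangoldt_nonneg
        _ ≤ (Nat.log 2 N : ℝ) * ((Nat.log 2 N + 1 : ℝ) * Real.log N) := Pool.Agent.Y918.GJ.lam_noncop q N hq0 hqN
        _ ≤ (2 * Real.log N) * ((3 * Real.log N) * Real.log N) := by
            have h5 : (Nat.log 2 N : ℝ) ≤ 2 * Real.log N := by
              have h6 : 2 ^ Nat.log 2 N ≤ N := Nat.pow_log_le_self 2 (by omega)
              have h7 : (2 : ℝ) ^ Nat.log 2 N ≤ N := by exact_mod_cast h6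
              have h8 := Real.log_le_log (by positivity) h7
              rw [Real.log_pow] at h8
              have h9 := Real.log_two_gt_d9
              have h10 : (0 : ℝ) ≤ (Nat.log 2 N : ℝ) := Nat.cast_nonneg _
              nlinarith
            have h11 : (0 : ℝ) ≤ (Nat.log 2 N : ℝ) := Nat.cast_nonneg _
            apply mul_le_mul h5 _ (by positivity) (by positivity)
            apply mul_le_mul_of_nonneg_right _ hL0.le
            linarith
        _ = 6 * Real.log N ^ 3 := by ring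
    -- the error terms
    have hY : ∑ n ∈ Icc 1 U, ArithmeticFunction.vonMangoldt n * ‖E n‖ +
        3 * (1 + Real.log y) * ∑ c ∈ Icc 1 (U * U), ((N : ℝ) / c * ((1 + Real.log q) * s) + q) * (1 + 7 * Real.log N ^ C) ≤
        N / (2 * Real.log N ^ (B + 1)) := by
      have hUN : U ≤ N := by
        have : (U : ℝ) ≤ N := hUle.trans (by
          calc (N : ℝ) ^ (1 / 20 : ℝ) ≤ (N : ℝ) ^ (1 : ℝ) := Real.rpow_le_rpow_of_exponent_le hN1 (by norm_num)
            _ = N := Real.rpow_one _)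
        exact_mod_cast this
      have h1 : ∑ n ∈ Icc 1 U, ArithmeticFunction.vonMangoldt n * ‖E n‖ ≤ U * Real.log N := by
        calc _ ≤ ∑ _n ∈ Icc 1 U, Real.log N := by
              refine sum_le_sum fun n hn => ?_
              rw [mem_Icc] at hn
              have h2 := hlamle n (mem_Icc.2 ⟨hn.1, hn.2.trans hUN⟩)
              have h3 := hE1 n
              have h4 : (0 : ℝ) ≤ ArithmeticFunction.vonMangoldt n := ArithmeticFunction.vonMangoldt_nonneg
              have h5 := norm_nonneg (E n)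
              nlinarith
          _ = _ := by rw [sum_const, Nat.card_Icc, nsmul_eq_mul]; simp
      have h6 : ∑ c ∈ Icc 1 (U * U), ((N : ℝ) / c * ((1 + Real.log q) * s) + q) ≤
          (N * (2 * Real.log N)) * (2 * Real.log N * s) + U * U * q := by
        rw [sum_add_distrib, ← sum_mul]
        apply add_le_add
        · apply mul_le_mul _ _ (by positivity) (by positivity)
          · have h7 : ∑ c ∈ Icc 1 (U * U), (N : ℝ) / c = N * ∑ c ∈ Icc 1 (U * U), (1 : ℝ) / c := by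
              rw [mul_sum]
              refine sum_congr rfl fun c _ => ?_
              ring
            have h8 : ∑ c ∈ Icc 1 (U * U), (1 : ℝ) / c ≤ 1 + Real.log ((U * U : ℕ) : ℝ) := by
              have h := harmonic_le_one_add_log (U * U)
              rw [harmonic_eq_sum_Icc] at h
              push_cast at h ⊢
              simpa [one_div] using h
            have h9 : Real.log ((U * U : ℕ) : ℝ) ≤ Real.log N :=
              Real.log_le_log (by exact_mod_cast Nat.mul_pos hU1 hU1) (by exact_mod_cast hUy.trans hy)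
            rw [h7]
            apply mul_le_mul_of_nonneg_left _ hN0.le
            linarith
          · apply mul_le_mul_of_nonneg_right _ hs0
            linarith
        · rw [sum_const, Nat.card_Icc, nsmul_eq_mul]
          simp
      rw [← sum_mul]
      have h10 : 1 + 7 * Real.log N ^ C ≤ 8 * Real.log N ^ C := by
        have := one_le_pow₀ hL1 (n := C)
        linarith
      have h11 : (0 : ℝ) ≤ 7 * Real.log N ^ C := by positivity
      have h12 : 0 ≤ ∑ c ∈ Icc 1 (U * U), ((N : ℝ) / c * ((1 + Real.log q) * s) + q) :=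
        sum_nonneg fun c _ => by positivity
      refine le_trans ?_ (fin_num4 (U := U) (q := q) (s := s) (B := B) (C := C) (K2 := K2) hL1 hLb hN1 (Nat.cast_nonneg _) hUle (Nat.cast_nonneg _) hq'
        hK2 hs0 hs1 rfl hbig)
      apply add_le_add h1
      apply mul_le_mul _ _ (by positivity) (by positivity)
      · apply mul_le_mul_of_nonneg_left _ (by norm_num)
        linarith
      · exact mul_le_mul h6 h10 (by linarith) (le_trans h12 h6)
    rw [hsplit]
    set Sm := ∑ n ∈ Icc 1 y, (ArithmeticFunction.vonMangoldt n) • E n with hSm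
    set Bm := ∑ m ∈ Icc 1 y, ∑ k ∈ Icc 1 (y / m), ((bt U m : ℝ) : ℂ) * ((lv U k : ℝ) : ℂ) *
          (ff χ α ((m * k : ℕ) : ZMod q) * ee ((m * k : ℕ) * η)) with hBm
    have h13 : ‖Sm‖ ≤ N / (2 * Real.log N ^ (B + 1)) + N / Real.log N ^ (B + 1) := by
      calc ‖Sm‖ = ‖(Sm - Bm) + Bm‖ := by rw [sub_add_cancel]
        _ ≤ ‖Sm - Bm‖ + ‖Bm‖ := norm_add_le _ _
        _ ≤ _ := add_le_add (hVa.trans hY) hB2
    have h14 : 6 * Real.log N ^ 3 ≤ N / Real.log N ^ (B + 1) := by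
      rw [le_div_iff₀ (by positivity)]
      have f1 : 6 * Real.log N ^ 3 * Real.log N ^ (B + 1) = 6 * Real.log N ^ (B + 4) := by ring
      have f2 : Real.log N ^ (B + 4) ≤ Real.log N ^ (B + C + 4) := pow_le_pow_right₀ hL1 (by omega)
      have f3 : (N : ℝ) ^ (1 / 10 : ℝ) ≤ N := by
        calc (N : ℝ) ^ (1 / 10 : ℝ) ≤ (N : ℝ) ^ (1 : ℝ) := Real.rpow_le_rpow_of_exponent_le hN1 (by norm_num)
          _ = N := Real.rpow_one _
      have f4 : 0 < Real.log N ^ (B + C + 4) := by positivity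
      rw [f1]
      linarith
    have h15 : N / (2 * Real.log N ^ (B + 1)) + N / Real.log N ^ (B + 1) + N / Real.log N ^ (B + 1) ≤ N / Real.log N ^ B := by
      have f1 : Real.log N ^ (B + 1) = Real.log N ^ B * Real.log N := by ring
      have f2 : N / (2 * Real.log N ^ (B + 1)) + N / Real.log N ^ (B + 1) + N / Real.log N ^ (B + 1) =
          N / Real.log N ^ B * (5 / (2 * Real.log N)) := by
        rw [f1]
        field_simp
        ring
      rw [f2]
      have f3 : 5 / (2 * Real.log N) ≤ 1 := by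
        rw [div_le_one (by positivity)]
        linarith
      have f4 : 0 ≤ N / Real.log N ^ B := by positivity
      nlinarith
    refine (norm_add_le _ _).trans ?_
    linarith

/-- **PP-22** -/
theorem shl2 : S_JACF → S_SHL2 := fun hJ B C ρ hρ =>
  shl2' Pool.Agent.Y235.GJ.vau hJ Pool.Agent.Y812.GJ.l2 B C ρ hρ

end Pool.Agent.H707.PP
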